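import Pool.Agent.Mld.Defs

/-!
# Common definitions for the example: the field `k(t_0,t_1,t_2)`, Laurent monomials, monomial
valuations, the logarithmic form, the toric ring.
-/

open scoped BigOperators

namespace MldPoly

variable (k : Type) [Field k]

/-- polynomial ring in three variables -/
abbrev P3 := MvPolynomial (Fin 3) k

/-- its fraction field `k(t_0,t_1,t_2)` -/
abbrev K3 := FractionRing (P3 k)

/-- the variable `t_i` in `k(t_0,t_1,t_2)` -/
noncomputable def tt (i : Fin 3) : K3 k := algebraMap (P3 k) (K3 k) (MvPolynomial.X i)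

/-- the Laurent monomial `t^m` -/
noncomputable def mono (m : Fin 3 → ℤ) : K3 k := ∏ i, tt k i ^ m i

/-- pairing of a weight vector and an exponent vector -/
def dot (u m : Fin 3 → ℤ) : ℤ := ∑ i, u i * m i

theorem tt_ne (i : Fin 3) : tt k i ≠ 0 := by
  unfold tt
  exact (map_ne_zero_iff _ (IsFractionRing.injective (P3 k) (K3 k))).2 (MvPolynomial.X_ne_zero i)

theorem mono_ne (m : Fin 3 → ℤ) : mono k m ≠ 0 :=
  Finset.prod_ne_zero_iff.2 fun i _ => zpow_ne_zero _ (tt_ne k i)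

theorem mono_zero : mono k 0 = 1 := by simp [mono]

theorem mono_add (m m' : Fin 3 → ℤ) : mono k (m + m') = mono k m * mono k m' := by
  unfold mono
  rw [← Finset.prod_mul_distrib]
  exact Finset.prod_congr rfl fun i _ => by
    rw [Pi.add_apply, zpow_add₀ (tt_ne k i)]

theorem mono_neg (m : Fin 3 → ℤ) : mono k (-m) = (mono k m)⁻¹ := by
  unfold mono
  rw [← Finset.prod_inv_distrib]
  exact Finset.prod_congr rfl fun i _ => by rw [Pi.neg_apply, zpow_neg]

theorem mono_sub (m m' : Fin 3 → ℤ) : mono k (m - m') = mono k m / mono k m' := by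
  rw [sub_eq_add_neg, mono_add, mono_neg, div_eq_mul_inv]

theorem mono_nsmul (n : ℕ) (m : Fin 3 → ℤ) : mono k (n • m) = mono k m ^ n := by
  induction n with
  | zero => simp [mono_zero]
  | succ n ih => rw [succ_nsmul, mono_add, ih, pow_succ]

theorem mono_nat (s : Fin 3 →₀ ℕ) :
    mono k (fun i => (s i : ℤ)) = algebraMap (P3 k) (K3 k) (MvPolynomial.monomial s 1) := by
  rw [MvPolynomial.monomial_eq, MvPolynomial.C_1, one_mul, Finsupp.prod_fintype _ _ (by simp),
    map_prod]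
  unfold mono tt
  exact Finset.prod_congr rfl fun i _ => by rw [zpow_natCast, map_pow]

theorem dot_add (u m m' : Fin 3 → ℤ) : dot u (m + m') = dot u m + dot u m' := by
  unfold dot
  rw [← Finset.sum_add_distrib]
  exact Finset.sum_congr rfl fun i _ => by rw [Pi.add_apply, mul_add]

theorem dot_neg (u m : Fin 3 → ℤ) : dot u (-m) = -dot u m := by
  unfold dot
  rw [← Finset.sum_neg_distrib]
  exact Finset.sum_congr rfl fun i _ => by rw [Pi.neg_apply, mul_neg]

theorem dot_sub (u m m' : Fin 3 → ℤ) : dot u (m - m') = dot u m - dot u m' := by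
  rw [sub_eq_add_neg, dot_add, dot_neg, sub_eq_add_neg]

theorem dot_zero (u : Fin 3 → ℤ) : dot u 0 = 0 := by simp [dot]

theorem dot_nsmul (u : Fin 3 → ℤ) (n : ℕ) (m : Fin 3 → ℤ) : dot u (n • m) = n * dot u m := by
  induction n with
  | zero => simp [dot_zero]
  | succ n ih => rw [succ_nsmul, dot_add, ih]; push_cast; ring

theorem dot_smul (u : Fin 3 → ℤ) (z : ℤ) (m : Fin 3 → ℤ) : dot u (z • m) = z * dot u m := by
  unfold dot
  rw [Finset.mul_sum]
  exact Finset.sum_congr rfl fun i _ => by rw [Pi.smul_apply, smul_eq_mul]; ring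

/-- `E` is the monomial divisor with weight vector `u`: the order of a nonzero polynomial is the
least weight of its monomials. -/
def IsMonoDiv (u : Fin 3 → ℤ) (E : PrimeDiv k (K3 k)) : Prop :=
  ∀ g : P3 k, g ≠ 0 →
    IsLeast {z : ℤ | ∃ s ∈ g.support, z = ∑ i, u i * (s i : ℤ)}
      (E.ord (algebraMap (P3 k) (K3 k) g))

/-- the logarithmic form `dt_0/t_0 ∧ dt_1/t_1 ∧ dt_2/t_2` -/
noncomputable def omega0 : TopForm k (K3 k) 3 := (∏ i, tt k i)⁻¹ • dForm (tt k)

/-- the three rays of the cone, in the lattice `N = ℤ³` (coordinates w.r.t. the basis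
`(1,a,n-1-a)/n, e_2, e_3`), where `n = ab - 1` -/
def ray (a b : ℤ) : Fin 3 → Fin 3 → ℤ :=
  ![![a * b - 1, -a, -(a * b - 2 - a)], ![0, 1, 0], ![0, 0, 1]]

/-- the exponents of the invariant monomials `x_1^n, x_2^n, x_3^n` -/
def xm (a b : ℤ) : Fin 3 → Fin 3 → ℤ :=
  ![![1, 0, 0], ![a, a * b - 1, 0], ![a * b - 2 - a, 0, a * b - 1]]

/-- the dual cone monoid -/
def SS (a b : ℤ) : Set (Fin 3 → ℤ) := {m | ∀ ρ, 0 ≤ dot (ray a b ρ) m}

/-- the toric ring `k[SS a b]`, isomorphic to the ring of invariants of `μ_n` acting on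
`k[x_1,x_2,x_3]` with weights `(1, a, n-1-a)` -/
noncomputable def AA (a b : ℤ) : Subalgebra k (K3 k) := Algebra.adjoin k (mono k '' SS a b)

theorem SS_zero (a b : ℤ) : (0 : Fin 3 → ℤ) ∈ SS a b := fun _ => (dot_zero _).ge

theorem SS_add {a b : ℤ} {m m' : Fin 3 → ℤ} (h : m ∈ SS a b) (h' : m' ∈ SS a b) :
    m + m' ∈ SS a b := fun ρ => by
  rw [dot_add]; exact add_nonneg (h ρ) (h' ρ)

theorem mono_mem_AA {a b : ℤ} {m : Fin 3 → ℤ} (h : m ∈ SS a b) : mono k m ∈ AA k a b :=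
  Algebra.subset_adjoin ⟨m, h, rfl⟩

/-- coordinates: `m ∈ SS a b` iff `m_1, m_2 ≥ 0` and `a m_1 + (ab-2-a) m_2 ≤ (ab-1) m_0` -/
theorem mem_SS {a b : ℤ} {m : Fin 3 → ℤ} :
    m ∈ SS a b ↔ a * m 1 + (a * b - 2 - a) * m 2 ≤ (a * b - 1) * m 0 ∧ 0 ≤ m 1 ∧ 0 ≤ m 2 := by
  unfold SS dot ray
  simp only [Set.mem_ofPred_eq, Fin.forall_fin_succ, Fin.sum_univ_three]
  simp
  intro _ _
  constructor <;> intro h <;> nlinarith

theorem dot_ray_xm (a b : ℤ) (ρ σ : Fin 3) :
    dot (ray a b ρ) (xm a b σ) = if ρ = σ then a * b - 1 else 0 := by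
  fin_cases ρ <;> fin_cases σ <;> simp [dot, ray, xm, Fin.sum_univ_three] <;> ring

theorem xm_mem_SS {a b : ℤ} (h : 1 ≤ a * b) (σ : Fin 3) : xm a b σ ∈ SS a b := fun ρ => by
  rw [dot_ray_xm]; split_ifs <;> omega

/-- an interior exponent: the sum of the three `xm` -/
def mint (a b : ℤ) : Fin 3 → ℤ := xm a b 0 + xm a b 1 + xm a b 2

theorem dot_ray_mint (a b : ℤ) (ρ : Fin 3) : dot (ray a b ρ) (mint a b) = a * b - 1 := by
  unfold mint
  rw [dot_add, dot_add, dot_ray_xm, dot_ray_xm, dot_ray_xm]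
  fin_cases ρ <;> simp

theorem ord_mono_of_isMonoDiv {u : Fin 3 → ℤ} {E : PrimeDiv k (K3 k)} (h : IsMonoDiv k u E)
    (m : Fin 3 → ℤ) : E.ord (mono k m) = dot u m := by
  have key : ∀ s : Fin 3 →₀ ℕ, E.ord (mono k (fun i => (s i : ℤ))) = dot u (fun i => (s i : ℤ)) := by
    intro s
    have h1 := h (MvPolynomial.monomial s 1) (by simp)
    rw [← mono_nat] at h1
    obtain ⟨⟨s', hs', hz⟩, -⟩ := h1
    have hs'' := MvPolynomial.support_monomial_subset hs'
    rw [Finset.mem_singleton] at hs''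
    subst hs''
    exact hz
  have hm : m = (fun i => (((Finsupp.equivFunOnFinite.symm fun i => (m i).toNat) i : ℕ) : ℤ)) -
      (fun i => (((Finsupp.equivFunOnFinite.symm fun i => (-m i).toNat) i : ℕ) : ℤ)) := by
    funext i
    simp only [Finsupp.equivFunOnFinite_symm_apply_apply, Pi.sub_apply]
    omega
  rw [hm, dot_sub, mono_sub, ← key, ← key]
  have h2 := E.ord_mul (mono k (fun i => (((Finsupp.equivFunOnFinite.symm
      fun i => (m i).toNat) i : ℕ) : ℤ)) / mono k (fun i => (((Finsupp.equivFunOnFinite.symm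
      fun i => (-m i).toNat) i : ℕ) : ℤ))) (mono k (fun i => (((Finsupp.equivFunOnFinite.symm
      fun i => (-m i).toNat) i : ℕ) : ℤ))) (div_ne_zero (mono_ne k _) (mono_ne k _)) (mono_ne k _)
  rw [div_mul_cancel₀ _ (mono_ne k _)] at h2
  linarith

/-- the value of the minimal log discrepancy in the example -/
noncomputable def mldval (a b : ℤ) (w : Fin 2 → ℝ) : ℝ :=
  1 - w 0 - w 1 + min ((a : ℝ) * w 0 + w 1) (w 0 + (b : ℝ) * w 1) / ((a : ℝ) * b - 1)

namespace PrimeDiv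

variable {k} {K : Type} [Field K] [Algebra k K] (E : PrimeDiv k K)

theorem ord_inv (f : K) (hf : f ≠ 0) : E.ord f⁻¹ = -E.ord f := by
  have h := E.ord_mul f f⁻¹ hf (inv_ne_zero hf)
  rw [mul_inv_cancel₀ hf, E.ord_one] at h
  linarith

theorem ord_div (f g : K) (hf : f ≠ 0) (hg : g ≠ 0) : E.ord (f / g) = E.ord f - E.ord g := by
  rw [div_eq_mul_inv, E.ord_mul f g⁻¹ hf (inv_ne_zero hg), E.ord_inv g hg, sub_eq_add_neg]

theorem ord_pow (f : K) (hf : f ≠ 0) (n : ℕ) : E.ord (f ^ n) = n * E.ord f := by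
  induction n with
  | zero => simp [E.ord_one]
  | succ n ih => rw [pow_succ, E.ord_mul _ _ (pow_ne_zero _ hf) hf, ih]; push_cast; ring

theorem ord_zpow (f : K) (hf : f ≠ 0) (n : ℤ) : E.ord (f ^ n) = n * E.ord f := by
  cases n with
  | ofNat n => simpa using E.ord_pow f hf n
  | negSucc n =>
    rw [zpow_negSucc, E.ord_inv _ (pow_ne_zero _ hf), E.ord_pow f hf, Int.negSucc_eq]
    push_cast; ring

theorem ord_prod {ι : Type*} (s : Finset ι) (f : ι → K) (hf : ∀ i ∈ s, f i ≠ 0) :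
    E.ord (∏ i ∈ s, f i) = ∑ i ∈ s, E.ord (f i) := by
  classical
  induction s using Finset.induction_on with
  | empty => simp [E.ord_one]
  | insert i s hi ih =>
    rw [Finset.prod_insert hi, Finset.sum_insert hi, E.ord_mul _ _ (hf i (Finset.mem_insert_self i s))
      (Finset.prod_ne_zero_iff.2 fun j hj => hf j (Finset.mem_insert_of_mem hj)),
      ih fun j hj => hf j (Finset.mem_insert_of_mem hj)]

theorem exists_ord (z : ℤ) : ∃ f : K, f ≠ 0 ∧ E.ord f = z := by
  obtain ⟨ϖ, h0, h1⟩ := E.exists_uniformizer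
  exact ⟨ϖ ^ z, zpow_ne_zero _ h0, by rw [E.ord_zpow _ h0, h1, mul_one]⟩

end PrimeDiv

end MldPoly
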