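import Pool.Agent.Mld.Stmts

/-!
# Module Class: prime divisors on the toric variety
-/

namespace MldPoly

namespace ClassX

variable {k : Type} [Field k]

/-- two height one primes, one contained in the other, are equal -/
theorem eq_of_le {d : ℕ} {K : Type} [Field K] [Algebra k K] {X : NormalVariety k K d}
    (p q : PrimeWeil X) (h : p.1 ≤ q.1) : p.1 = q.1 := by
  by_contra hne
  haveI := p.2.1
  haveI := q.2.1
  have hlt : p.1 < q.1 := lt_of_le_of_ne h hne
  have h1 := Ideal.height_add_one_le_of_lt_of_isPrime hlt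
  rw [p.2.2, q.2.2] at h1
  exact absurd h1 (by decide)

theorem mono_zero_of_SS {a b : ℤ} (ha : 3 ≤ a) (hb : 3 ≤ b) (F : PrimeDiv k (K3 k))
    (h : ∀ m ∈ SS a b, F.ord (mono k m) = 0) (m : Fin 3 → ℤ) : F.ord (mono k m) = 0 := by
  have hab : 9 ≤ a * b := by nlinarith
  -- a large multiple of the interior point
  obtain ⟨N, hN⟩ : ∃ N : ℕ, ∀ ρ, -(dot (ray a b ρ) m) ≤ N := by
    refine ⟨(∑ ρ, (dot (ray a b ρ) m).natAbs), fun ρ => ?_⟩
    have h1 : ((dot (ray a b ρ) m).natAbs : ℤ) ≤ ((∑ ρ, (dot (ray a b ρ) m).natAbs : ℕ) : ℤ) := by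
      exact_mod_cast Finset.single_le_sum (f := fun ρ => (dot (ray a b ρ) m).natAbs)
        (fun i _ => Nat.zero_le _) (Finset.mem_univ ρ)
    have h2 : -(dot (ray a b ρ) m) ≤ ((dot (ray a b ρ) m).natAbs : ℤ) := by omega
    exact le_trans h2 h1
  have hm1 : N • mint a b ∈ SS a b := fun ρ => by
    rw [dot_nsmul, dot_ray_mint]
    exact mul_nonneg (by positivity) (by linarith)
  have hm2 : m + N • mint a b ∈ SS a b := fun ρ => by
    rw [dot_add, dot_nsmul, dot_ray_mint]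
    have := hN ρ
    have hN0 : (0 : ℤ) ≤ N := by positivity
    nlinarith
  have e : m = (m + N • mint a b) - N • mint a b := by simp
  rw [e, mono_sub, F.ord_div _ _ (mono_ne k _) (mono_ne k _), h _ hm2, h _ hm1, sub_zero]

end ClassX

open ClassX

theorem class_proof (hCover : Stmt_Cover) (hHt : Stmt_HtRay) (hLoc : Stmt_LocRay) :
    Stmt_Class := by
  intro k _ a b ha hb X hX p F hF
  by_cases hex : ∃ m ∈ SS a b, 0 < F.ord (mono k m)
  · left
    obtain ⟨m, hm, hpos⟩ := hex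
    have hmA : mono k m ∈ X.A := by rw [hX]; exact mono_mem_AA k hm
    have hy : (⟨mono k m, hmA⟩ : X.A) ∈ p.1 := (hF.2 _).2 (Or.inr hpos)
    obtain ⟨ρ, hρ⟩ := hCover k a b ha hb X hX p.1 p.2.1 _ hy ⟨m, hm, rfl⟩
    refine ⟨ρ, fun E hE => ?_⟩
    obtain ⟨q, hq⟩ := hHt k a b ha hb X hX ρ E hE
    have hle : q.1 ≤ p.1 := fun f hf => hρ E hE f ((hq.2 f).1 hf)
    have heq : q.1 = p.1 := eq_of_le q p hle
    -- elements of AA with E.ord zero have F.ord zero
    have hunit : ∀ y : K3 k, y ∈ X.A → y ≠ 0 → E.ord y = 0 → F.ord y = 0 := by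
      intro y hy hy0 hEy
      have h1 : (⟨y, hy⟩ : X.A) ∉ p.1 := by
        rw [← heq]
        intro hmem
        rcases (hq.2 _).1 hmem with h | h
        · exact hy0 h
        · simp only at h; omega
      have h2 : 0 ≤ F.ord y := hF.1 y hy hy0
      by_contra hne
      exact h1 ((hF.2 _).2 (Or.inr (lt_of_le_of_ne h2 (Ne.symm hne))))
    have hnn : ∀ f : K3 k, f ≠ 0 → 0 ≤ E.ord f → 0 ≤ F.ord f := by
      intro f hf hEf
      obtain ⟨x, hx, y, hy, hy0, hEy, rfl⟩ := (hLoc k a b ha hb ρ E hE).2 f hf hEf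
      have hx0 : x ≠ 0 := by rintro rfl; simp at hf
      rw [F.ord_div _ _ hx0 hy0, hunit y (hX ▸ hy) hy0 hEy, sub_zero]
      exact hF.1 x (hX ▸ hx) hx0
    have hz : ∀ f : K3 k, f ≠ 0 → E.ord f = 0 → F.ord f = 0 := by
      intro f hf hEf
      have h1 := hnn f hf hEf.ge
      have h2 := hnn f⁻¹ (inv_ne_zero hf) (by rw [E.ord_inv f hf, hEf, neg_zero])
      rw [F.ord_inv f hf] at h2
      omega
    obtain ⟨ϖ, hϖ0, hϖ1⟩ := E.exists_uniformizer
    have hgen : ∀ f : K3 k, f ≠ 0 → F.ord f = E.ord f * F.ord ϖ := by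
      intro f hf
      have h1 := hz (f / ϖ ^ E.ord f) (div_ne_zero hf (zpow_ne_zero _ hϖ0)) (by
        rw [E.ord_div _ _ hf (zpow_ne_zero _ hϖ0), E.ord_zpow _ hϖ0, hϖ1, mul_one, sub_self])
      rw [F.ord_div _ _ hf (zpow_ne_zero _ hϖ0), F.ord_zpow _ hϖ0] at h1
      linarith
    have hc : F.ord ϖ = 1 := by
      have h0 : 0 ≤ F.ord ϖ := hnn ϖ hϖ0 (by rw [hϖ1]; norm_num)
      obtain ⟨g, hg0, hg1⟩ := F.exists_uniformizer
      rw [hgen g hg0] at hg1
      rcases Int.eq_one_or_neg_one_of_mul_eq_one' hg1 with h | h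
      · exact h.2
      · omega
    intro f hf
    rw [hgen f hf, hc, mul_one]
  · right
    push Not at hex
    refine mono_zero_of_SS ha hb F (fun m hm => ?_)
    have hmA : mono k m ∈ X.A := by rw [hX]; exact mono_mem_AA k hm
    exact le_antisymm (hex m hm) (hF.1 _ hmA (mono_ne k m))

end MldPoly
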