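import Pool.Agent.Mld.Stmts

open scoped BigOperators

namespace MldPoly

namespace CoverX

theorem one_le_ab {a b : ℤ} (ha : 3 ≤ a) (hb : 3 ≤ b) : 1 ≤ a * b - 1 := by nlinarith

theorem nsmul_mem {a b : ℤ} {m : Fin 3 → ℤ} (h : m ∈ SS a b) (N : ℕ) : N • m ∈ SS a b := fun ρ => by
  rw [dot_nsmul]
  exact mul_nonneg (by positivity) (h ρ)

variable (k : Type) [Field k]

/-- the monomial as an element of the coordinate ring -/
noncomputable def mo {a b : ℤ} {X : NormalVariety k (K3 k) 3} (hX : X.A = AA k a b)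
    (m : Fin 3 → ℤ) (hm : m ∈ SS a b) : X.A := ⟨mono k m, hX ▸ mono_mem_AA k hm⟩

theorem key (hMem : Stmt_Mem) (hOrd : Stmt_OrdSum) {a b : ℤ}
    (X : NormalVariety k (K3 k) 3) (hX : X.A = AA k a b) (p : Ideal X.A) (ρ : Fin 3)
    (E : PrimeDiv k (K3 k)) (hE : IsMonoDiv k (ray a b ρ) E) (f : X.A)
    (hf : (f : K3 k) = 0 ∨ 0 < E.ord (f : K3 k)) (hfp : f ∉ p) :
    ∃ (m : Fin 3 → ℤ) (hm : m ∈ SS a b), 0 < dot (ray a b ρ) m ∧ mo k hX m hm ∉ p := by
  have hf0 : (f : K3 k) ≠ 0 := by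
    intro h
    apply hfp
    have : f = 0 := Subtype.ext h
    rw [this]; exact p.zero_mem
  have hord := hf.resolve_left hf0
  have hfA : (f : K3 k) ∈ AA k a b := hX ▸ f.2
  obtain ⟨s, c, hs, hfs⟩ := (hMem k a b (f : K3 k)).1 hfA
  have hne : s.Nonempty := by
    rw [Finset.nonempty_iff_ne_empty]
    rintro rfl
    apply hf0
    rw [hfs]; simp
  obtain ⟨-, hleast⟩ := hOrd k (ray a b ρ) E hE s c (fun m hm => (hs m hm).2) hne
  rw [← hfs] at hleast
  by_contra hcon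
  push Not at hcon
  apply hfp
  have hall : ∀ m (hm : m ∈ s), mo k hX m (hs m hm).1 ∈ p := fun m hm =>
    hcon m (hs m hm).1 (lt_of_lt_of_le hord (hleast.2 ⟨m, hm, rfl⟩))
  have hsum : f = ∑ m ∈ s.attach, (c m.1) • mo k hX m.1 (hs m.1 m.2).1 := by
    apply Subtype.ext
    rw [hfs]
    rw [← Finset.sum_attach]
    rw [AddSubmonoidClass.coe_finsetSum]
    rfl
  rw [hsum]
  refine Ideal.sum_mem _ fun m _ => ?_
  rw [Algebra.smul_def]
  exact Ideal.mul_mem_left _ _ (hall m.1 m.2)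

end CoverX

theorem cover_proof (hMem : Stmt_Mem) (hOrd : Stmt_OrdSum) : Stmt_Cover := by
  intro k _ a b ha hb X hX p hp y hy hym
  obtain ⟨m, hm, hmy⟩ := hym
  by_contra hcon
  push Not at hcon
  choose E hE f hf hfp using hcon
  have h1 : ∀ ρ : Fin 3, ∃ (m : Fin 3 → ℤ) (hm : m ∈ SS a b), 0 < dot (ray a b ρ) m ∧
      CoverX.mo k hX m hm ∉ p := fun ρ =>
    CoverX.key k hMem hOrd X hX p ρ (E ρ) (hE ρ) (f ρ) (hf ρ) (hfp ρ)
  choose M hM hMpos hMp using h1
  have hS : M 0 + M 1 + M 2 ∈ SS a b := SS_add (SS_add (hM 0) (hM 1)) (hM 2)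
  have hSpos : ∀ ρ, 1 ≤ dot (ray a b ρ) (M 0 + M 1 + M 2) := by
    intro ρ
    rw [dot_add, dot_add]
    have t0 := hM 0 ρ
    have t1 := hM 1 ρ
    have t2 := hM 2 ρ
    fin_cases ρ
    · have := hMpos 0; simp at *; omega
    · have := hMpos 1; simp at *; omega
    · have := hMpos 2; simp at *; omega
  have hSp : CoverX.mo k hX _ hS ∉ p := by
    have hprod : CoverX.mo k hX _ hS = CoverX.mo k hX _ (hM 0) * CoverX.mo k hX _ (hM 1) *
        CoverX.mo k hX _ (hM 2) := by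
      apply Subtype.ext
      show mono k (M 0 + M 1 + M 2) = mono k (M 0) * mono k (M 1) * mono k (M 2)
      rw [mono_add, mono_add]
    rw [hprod]
    intro h
    rcases hp.mem_or_mem h with h | h
    · rcases hp.mem_or_mem h with h | h
      · exact hMp 0 h
      · exact hMp 1 h
    · exact hMp 2 h
  let N : ℕ := ∑ ρ, (dot (ray a b ρ) m).toNat
  have hN : ∀ ρ, dot (ray a b ρ) m ≤ N := by
    intro ρ
    have h3 : (dot (ray a b ρ) m).toNat ≤ N :=
      Finset.single_le_sum (f := fun ρ => (dot (ray a b ρ) m).toNat)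
        (fun _ _ => Nat.zero_le _) (Finset.mem_univ ρ)
    exact le_trans (Int.self_le_toNat _) (by exact_mod_cast h3)
  have hdiff : N • (M 0 + M 1 + M 2) - m ∈ SS a b := by
    intro ρ
    rw [dot_sub, dot_nsmul]
    have h4 : (N : ℤ) * 1 ≤ N * dot (ray a b ρ) (M 0 + M 1 + M 2) :=
      mul_le_mul_of_nonneg_left (hSpos ρ) (by positivity)
    linarith [hN ρ]
  have hpow : (CoverX.mo k hX _ hS) ^ N = CoverX.mo k hX _ hdiff * y := by
    apply Subtype.ext
    show (mono k (M 0 + M 1 + M 2)) ^ N = mono k (N • (M 0 + M 1 + M 2) - m) * (y : K3 k)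
    rw [hmy, ← mono_add, sub_add_cancel, mono_nsmul]
  apply hSp
  apply hp.mem_of_pow_mem N
  rw [hpow]
  exact Ideal.mul_mem_left _ _ hy

end MldPoly
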