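import Mathlib

/-!
# Minimal log discrepancies of affine normal germs (definitions)

`K/k` is a field extension (the function field).  Everything below is a statement about the
valuations, derivations and subrings of `K`; no schemes are used.
-/

open scoped BigOperators

namespace MldPoly

/-- A prime divisor over (some model of) the function field `K` of a variety over `k`, given by
its order function `ord = ord_E` (the value `ord 0` is irrelevant): a surjective discrete
valuation of `K`, trivial on `k`, whose valuation ring is the local ring, at some point, of an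
affine variety `Spec k[s]`, `s ⊆ K` finite.  (A discrete valuation ring of this form is the local
ring of a normal variety with function field `K` at a codimension one point, and conversely.) -/
structure PrimeDiv (k K : Type) [Field k] [Field K] [Algebra k K] where
  /-- the order of vanishing along `E` -/
  ord : K → ℤ
  ord_mul : ∀ f g : K, f ≠ 0 → g ≠ 0 → ord (f * g) = ord f + ord g
  ord_add : ∀ f g : K, f ≠ 0 → g ≠ 0 → f + g ≠ 0 → min (ord f) (ord g) ≤ ord (f + g)
  ord_const : ∀ c : k, c ≠ 0 → ord (algebraMap k K c) = 0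
  exists_uniformizer : ∃ ϖ : K, ϖ ≠ 0 ∧ ord ϖ = 1
  exists_model : ∃ s : Finset K,
    (∀ a ∈ Algebra.adjoin k (s : Set K), a ≠ 0 → 0 ≤ ord a) ∧
    ∀ f : K, f ≠ 0 → 0 ≤ ord f → ∃ a ∈ Algebra.adjoin k (s : Set K),
      ∃ b ∈ Algebra.adjoin k (s : Set K), b ≠ 0 ∧ ord b = 0 ∧ f = a / b

namespace PrimeDiv

variable {k K : Type} [Field k] [Field K] [Algebra k K] (E : PrimeDiv k K)

theorem ord_one : E.ord 1 = 0 := by
  have h := E.ord_mul 1 1 one_ne_zero one_ne_zero
  rw [mul_one] at h
  linarith

theorem ord_neg_one : E.ord (-1) = 0 := by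
  have h := E.ord_mul (-1) (-1) (by simp) (by simp)
  have h1 := E.ord_one
  rw [neg_mul_neg, mul_one] at h
  linarith

theorem ord_neg (f : K) (hf : f ≠ 0) : E.ord (-f) = E.ord f := by
  have h := E.ord_mul (-1) f (by simp) hf
  rw [neg_one_mul, E.ord_neg_one, zero_add] at h
  exact h

/-- The valuation ring of `E`, i.e. the local ring at the generic point of `E`. -/
def ring : Subalgebra k K where
  carrier := {f | f = 0 ∨ 0 ≤ E.ord f}
  mul_mem' := by
    rintro a b ha hb
    rcases eq_or_ne a 0 with rfl | ha0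
    · left; simp
    rcases eq_or_ne b 0 with rfl | hb0
    · left; simp
    right
    rw [E.ord_mul a b ha0 hb0]
    exact add_nonneg (ha.resolve_left ha0) (hb.resolve_left hb0)
  add_mem' := by
    rintro a b ha hb
    rcases eq_or_ne a 0 with rfl | ha0
    · simpa using hb
    rcases eq_or_ne b 0 with rfl | hb0
    · simpa using ha
    rcases eq_or_ne (a + b) 0 with h | h
    · left; exact h
    right
    exact le_trans (le_min (ha.resolve_left ha0) (hb.resolve_left hb0)) (E.ord_add a b ha0 hb0 h)
  algebraMap_mem' := by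
    intro c
    rcases eq_or_ne c 0 with rfl | hc
    · left; simp
    right; exact (E.ord_const c hc).ge

theorem mem_ring {f : K} : f ∈ E.ring ↔ f = 0 ∨ 0 ≤ E.ord f := Iff.rfl

end PrimeDiv

/-- Rational top differential forms on the `d`-dimensional variety with function field `K`:
alternating `K`-multilinear `d`-forms on the `K`-vector space of `k`-derivations of `K`
(equivalently, elements of the top exterior power of the Kähler differentials of `K/k`). -/
abbrev TopForm (k K : Type) [Field k] [Field K] [Algebra k K] (d : ℕ) :=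
  (Derivation k K K) [⋀^Fin d]→ₗ[K] K

/-- Evaluation of derivations at the elements `a 0, …, a (d-1)`. -/
def evalAt {k K : Type} [Field k] [Field K] [Algebra k K] {d : ℕ} (a : Fin d → K) :
    Derivation k K K →ₗ[K] (Fin d → K) where
  toFun D := fun j => D (a j)
  map_add' _ _ := rfl
  map_smul' _ _ := rfl

/-- The form `da_0 ∧ … ∧ da_{d-1}`, i.e. `(D_i)_i ↦ det (D_i (a_j))`. -/
def dForm {k K : Type} [Field k] [Field K] [Algebra k K] {d : ℕ} (a : Fin d → K) :
    TopForm k K d :=
  Matrix.detRowAlternating.compLinearMap (evalAt a)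

/-- `η` is regular at the generic point of `E`: it lies in the `O_E`-module generated by the forms
`da_0 ∧ … ∧ da_{d-1}` with all `a_j ∈ O_E`. -/
def RegularAlong {k K : Type} [Field k] [Field K] [Algebra k K] {d : ℕ} (E : PrimeDiv k K)
    (η : TopForm k K d) : Prop :=
  η ∈ Submodule.span E.ring {θ : TopForm k K d | ∃ a : Fin d → K, (∀ j, a j ∈ E.ring) ∧
    θ = dForm a}

/-- `ord_E(ω) = j`, the coefficient of `E` in the divisor of the rational form `ω ≠ 0`:
for every `f ≠ 0`, the form `f ω` is regular at the generic point of `E` if and only if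
`ord_E(f) + j ≥ 0`. -/
def IsFormOrd {k K : Type} [Field k] [Field K] [Algebra k K] {d : ℕ} (E : PrimeDiv k K)
    (ω : TopForm k K d) (j : ℤ) : Prop :=
  ∀ f : K, f ≠ 0 → (RegularAlong E (f • ω) ↔ 0 ≤ E.ord f + j)

/-- A normal affine variety `X = Spec A` of dimension `d` over `k` with function field `K`:
`A ⊆ K` is a finitely generated `k`-subalgebra with fraction field `K`, integrally closed in `K`,
and `K` has transcendence degree `d` over `k`. -/
structure NormalVariety (k K : Type) [Field k] [Field K] [Algebra k K] (d : ℕ) where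
  /-- the coordinate ring -/
  A : Subalgebra k K
  fg : A.FG
  fraction : ∀ f : K, ∃ a ∈ A, ∃ b ∈ A, b ≠ 0 ∧ f = a / b
  normal : ∀ f : K, IsIntegral A f → f ∈ A
  dim : Algebra.trdeg k K = d

/-- `E` is a divisor over `X` whose centre on `X` is the point `p` of `X = Spec A`: `A ⊆ O_E` and
the maximal ideal of `O_E` meets `A` in `p`. -/
def PrimeDiv.HasCenter {k K : Type} [Field k] [Field K] [Algebra k K] {d : ℕ}
    (E : PrimeDiv k K) (X : NormalVariety k K d) (p : Ideal X.A) : Prop :=
  (∀ a ∈ X.A, a ≠ 0 → 0 ≤ E.ord a) ∧ ∀ a : X.A, a ∈ p ↔ ((a : K) = 0 ∨ 0 < E.ord (a : K))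

/-- Prime Weil divisors on `X = Spec A`: prime ideals of height one. -/
def PrimeWeil {k K : Type} [Field k] [Field K] [Algebra k K] {d : ℕ} (X : NormalVariety k K d) :=
  {p : Ideal X.A // p.IsPrime ∧ p.height = 1}

/-- Effective Weil divisors on `X`. -/
abbrev EffDiv {k K : Type} [Field k] [Field K] [Algebra k K] {d : ℕ} (X : NormalVariety k K d) :=
  PrimeWeil X →₀ ℕ

/-- `ℝ`-divisors on `X`. -/
abbrev RDiv {k K : Type} [Field k] [Field K] [Algebra k K] {d : ℕ} (X : NormalVariety k K d) :=
  PrimeWeil X →₀ ℝ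

/-- The `ℝ`-divisor `w_1 B_1 + … + w_m B_m`. -/
noncomputable def comb {k K : Type} [Field k] [Field K] [Algebra k K] {d : ℕ}
    {X : NormalVariety k K d} {m : ℕ} (w : Fin m → ℝ) (B : Fin m → EffDiv X) : RDiv X :=
  ∑ i, w i • (B i).mapRange (fun n : ℕ => (n : ℝ)) Nat.cast_zero

/-- A presentation of `K_X + B` as an `ℝ`-Cartier divisor near the point `x` of `X`: a rational
top form `ω ≠ 0` (so that `K_X = div ω`), rational functions `φ_i ≠ 0` and real numbers `r_i` with
`K_X + B = ∑ r_i div φ_i` near `x`, i.e. with equal coefficients at every prime Weil divisor `p`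
of `X` passing through `x` (`p ≤ x`). -/
structure CartierData {k K : Type} [Field k] [Field K] [Algebra k K] {d : ℕ}
    (X : NormalVariety k K d) (x : Ideal X.A) (B : RDiv X) where
  ω : TopForm k K d
  ω_ne : ω ≠ 0
  n : ℕ
  r : Fin n → ℝ
  φ : Fin n → K
  φ_ne : ∀ i, φ i ≠ 0
  eq_at : ∀ p : PrimeWeil X, p.1 ≤ x → ∀ F : PrimeDiv k K, F.HasCenter X p.1 →
    ∃ j : ℤ, IsFormOrd F ω j ∧ (j : ℝ) + B p = ∑ i, r i * (F.ord (φ i) : ℝ)

/-- `α` is the log discrepancy `a(E,X,B) = 1 + mult_E (K_Y - f^*(K_X + B))` of `E`, computed from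
the presentation `c` of `K_X + B` near `x`: `α = 1 + ord_E ω - ∑ r_i ord_E φ_i`. -/
def IsLogDisc {k K : Type} [Field k] [Field K] [Algebra k K] {d : ℕ}
    {X : NormalVariety k K d} {x : Ideal X.A} {B : RDiv X} (E : PrimeDiv k K)
    (c : CartierData X x B) (α : ℝ) : Prop :=
  ∃ j : ℤ, IsFormOrd E c.ω j ∧ α = 1 + (j : ℝ) - ∑ i, c.r i * (E.ord (c.φ i) : ℝ)

/-- `K_X + B` is `ℝ`-Cartier near `x` and `mld(X ∋ x, B) = μ` (a real number): `μ` is the infimum
of the log discrepancies of the prime divisors over `X` with centre `x`. -/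
def IsMld {k K : Type} [Field k] [Field K] [Algebra k K] {d : ℕ}
    (X : NormalVariety k K d) (x : Ideal X.A) (B : RDiv X) (μ : ℝ) : Prop :=
  Nonempty (CartierData X x B) ∧
    IsGLB {α : ℝ | ∃ E : PrimeDiv k K, E.HasCenter X x ∧ ∃ c : CartierData X x B,
      IsLogDisc E c α} μ

/-- The property asked for in Q1 of MP_1fc009_ag, for varieties over `k`, dimension `d`,
`ε`, `m` and `v`: there are a rational polytope `P` (the convex hull of the rational points
`vtx 0, …, vtx (r-1)`), positive reals `a j` and `ε' j` such that `∑ a j = 1`,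
`∑ a j • vtx j = v` (in particular `v ∈ P`), `∑ a j * ε' j ≥ ε`, and for every normal affine
variety `X` of dimension `d`, closed point `x` and effective Weil divisors `B 0, …, B (m-1)` such
that `(X ∋ x, ∑ v_i B_i)` is `ε`-lc at `x`, the function `w ↦ mld(X ∋ x, ∑ w_i B_i)` is (real
valued and) affine on `P`, and its value at `vtx j` is at least `ε' j` for all `j`. -/
def UniformPolytope (k : Type) [Field k] (d m : ℕ) (ε : ℝ) (v : Fin m → ℝ) : Prop :=
  ∃ (r : ℕ) (vtx : Fin r → Fin m → ℚ) (a ε' : Fin r → ℝ),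
    (∀ j, 0 < a j) ∧ (∀ j, 0 < ε' j) ∧ ∑ j, a j = 1 ∧ (∀ i, ∑ j, a j * (vtx j i : ℝ) = v i) ∧
    ε ≤ ∑ j, a j * ε' j ∧
    ∀ (K : Type) [Field K] [Algebra k K] (X : NormalVariety k K d) (x : Ideal X.A),
      x.IsMaximal → ∀ B : Fin m → EffDiv X, (∃ μ, IsMld X x (comb v B) μ ∧ ε ≤ μ) →
        (∃ (c₀ : ℝ) (c : Fin m → ℝ),
          ∀ w ∈ convexHull ℝ (Set.range fun (j : Fin r) (i : Fin m) => (vtx j i : ℝ)),
            IsMld X x (comb w B) (c₀ + ∑ i, c i * w i)) ∧
        ∀ j, ∃ μ, IsMld X x (comb (fun i => (vtx j i : ℝ)) B) μ ∧ ε' j ≤ μ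

end MldPoly
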