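import Pool.Agent.Mld.Stmts

/-! Module Der: derivations of the rational function field in three variables. -/

namespace MldPoly

namespace DerM

variable {k : Type} [Field k]

/-- the homomorphism `X_i ↦ t_i + ε c_i` -/
noncomputable def phi0 (c : Fin 3 → K3 k) : P3 k →ₐ[k] TrivSqZeroExt (K3 k) (K3 k) :=
  MvPolynomial.aeval (fun i => TrivSqZeroExt.inl (tt k i) + TrivSqZeroExt.inr (c i))

theorem fst_phi0 (c : Fin 3 → K3 k) (p : P3 k) :
    (phi0 c p).fst = algebraMap (P3 k) (K3 k) p := by
  have h : (TrivSqZeroExt.fstHom k (K3 k) (K3 k)).comp (phi0 c)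
      = IsScalarTower.toAlgHom k (P3 k) (K3 k) := by
    apply MvPolynomial.algHom_ext
    intro i
    simp [phi0, tt]
  exact congrArg (fun f : P3 k →ₐ[k] K3 k => f p) h

theorem isUnit_phi0 (c : Fin 3 → K3 k) (y : nonZeroDivisors (P3 k)) : IsUnit (phi0 c y) := by
  rw [TrivSqZeroExt.isUnit_iff_isUnit_fst, fst_phi0]
  exact IsLocalization.map_units (K3 k) y

/-- its extension to the field -/
noncomputable def phi (c : Fin 3 → K3 k) : K3 k →ₐ[k] TrivSqZeroExt (K3 k) (K3 k) :=
  IsLocalization.liftAlgHom (M := nonZeroDivisors (P3 k)) (f := phi0 c) (isUnit_phi0 c)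

theorem phi_algebraMap (c : Fin 3 → K3 k) (p : P3 k) :
    phi c (algebraMap (P3 k) (K3 k) p) = phi0 c p := by
  unfold phi
  rw [IsLocalization.liftAlgHom_apply, IsLocalization.lift_eq]
  rfl

theorem fst_phi (c : Fin 3 → K3 k) (f : K3 k) : (phi c f).fst = f := by
  have h : ((TrivSqZeroExt.fstHom k (K3 k) (K3 k)).comp (phi c)).toRingHom = RingHom.id (K3 k) := by
    apply IsLocalization.ringHom_ext (nonZeroDivisors (P3 k))
    refine RingHom.ext (fun p => ?_)
    change (phi c (algebraMap (P3 k) (K3 k) p)).fst = _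
    rw [phi_algebraMap, fst_phi0]
    rfl
  exact congrArg (fun f' : K3 k →+* K3 k => f' f) h

/-- the derivation -/
noncomputable def der (c : Fin 3 → K3 k) : Derivation k (K3 k) (K3 k) :=
  Derivation.mk' ((TrivSqZeroExt.sndHom (K3 k) (K3 k)).restrictScalars k ∘ₗ (phi c).toLinearMap)
    (by
      intro a b
      change (phi c (a * b)).snd = a • (phi c b).snd + b • (phi c a).snd
      rw [map_mul, TrivSqZeroExt.snd_mul, fst_phi, fst_phi, op_smul_eq_smul])

theorem der_apply (c : Fin 3 → K3 k) (f : K3 k) : der c f = (phi c f).snd := rfl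

theorem der_tt (c : Fin 3 → K3 k) (i : Fin 3) : der c (tt k i) = c i := by
  rw [der_apply]
  unfold tt
  rw [phi_algebraMap]
  simp [phi0]

theorem inj (D : Derivation k (K3 k) (K3 k)) (h : ∀ i, D (tt k i) = 0) : D = 0 := by
  have h1 : ∀ p : P3 k, D (algebraMap (P3 k) (K3 k) p) = 0 := by
    intro p
    induction p using MvPolynomial.induction_on with
    | C a =>
      have : algebraMap (P3 k) (K3 k) (MvPolynomial.C a) = algebraMap k (K3 k) a := by
        rw [IsScalarTower.algebraMap_apply k (P3 k) (K3 k)]; rfl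
      rw [this, Derivation.map_algebraMap]
    | add p q hp hq => rw [map_add, map_add, hp, hq, add_zero]
    | mul_X p i hp =>
      rw [map_mul, Derivation.leibniz, hp, smul_zero, add_zero]
      have := h i
      unfold tt at this
      rw [this, smul_zero]
  ext f
  obtain ⟨a, b, hb, rfl⟩ := IsFractionRing.div_surjective (A := P3 k) f
  have hb0 : algebraMap (P3 k) (K3 k) b ≠ 0 := by
    intro h0
    exact nonZeroDivisors.ne_zero hb ((IsFractionRing.injective (P3 k) (K3 k)) (by rw [h0, map_zero]))
  have h2 := h1 a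
  rw [← div_mul_cancel₀ (algebraMap (P3 k) (K3 k) a) hb0, Derivation.leibniz, h1 b, smul_zero,
    zero_add, smul_eq_mul, mul_eq_zero] at h2
  rcases h2 with h2 | h2
  · exact absurd h2 hb0
  · rw [h2]; rfl

end DerM

open DerM in
theorem der_proof : Stmt_Der := by
  intro k _
  constructor
  · rw [← LinearMap.ker_eq_bot, LinearMap.ker_eq_bot']
    intro D hD
    exact inj D (fun i => congrFun hD i)
  · intro c
    refine ⟨der c, ?_⟩
    funext i
    exact der_tt c i

end MldPoly
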