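import Pool.Agent.Mld.Stmts

/-!
# The transcendence degree of `k(t_0,t_1,t_2)`
-/

namespace MldPoly

theorem dim_proof : Stmt_Dim := by
  intro k _
  have : Algebra.IsAlgebraic (P3 k) (K3 k) :=
    (IsFractionRing.comap_isAlgebraic_iff (A := P3 k) (K := K3 k) (C := K3 k)).mpr inferInstance
  have h1 := (IsTranscendenceBasis.mvPolynomial (Fin 3) k).algebraMap_comp (A := K3 k)
  have h2 := h1.cardinalMk_eq_trdeg
  rw [← h2]
  simp

end MldPoly
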