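import Pool.Agent.Mld.Stmts

open scoped BigOperators

namespace MldPoly

namespace FGX

open Classical in
/-- the box of small exponents -/
noncomputable def T (a b : ℤ) : Finset (Fin 3 → ℤ) :=
  (Finset.Icc (0 : Fin 3 → ℤ) ![a * b - 2, a * b - 1, a * b - 1]).filter (fun m => m ∈ SS a b)

theorem mem_T {a b : ℤ} {m : Fin 3 → ℤ} : m ∈ T a b ↔
    ((0 ≤ m 0 ∧ 0 ≤ m 1 ∧ 0 ≤ m 2) ∧ (m 0 ≤ a * b - 2 ∧ m 1 ≤ a * b - 1 ∧ m 2 ≤ a * b - 1)) ∧
      m ∈ SS a b := by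
  classical
  unfold T
  rw [Finset.mem_filter, Finset.mem_Icc, Pi.le_def, Pi.le_def]
  simp [Fin.forall_fin_succ]

theorem decomp {a b : ℤ} (ha : 3 ≤ a) (hb : 3 ≤ b) {m : Fin 3 → ℤ} (hm : m ∈ SS a b) :
    ∃ (q0 q1 q2 : ℕ) (m' : Fin 3 → ℤ), m' ∈ T a b ∧
      m = q0 • xm a b 0 + q1 • xm a b 1 + q2 • xm a b 2 + m' := by
  have hn : 8 ≤ a * b - 1 := by nlinarith
  have hc : 1 ≤ a * b - 2 - a := by nlinarith
  obtain ⟨h1, h2, h3⟩ := (mem_SS).1 hm
  set n := a * b - 1 with hn_def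
  set c := a * b - 2 - a with hc_def
  have hn0 : (0 : ℤ) < n := by omega
  have e1 := Int.emod_add_mul_ediv (m 1) n
  have e2 := Int.emod_add_mul_ediv (m 2) n
  have r1 := Int.emod_nonneg (m 1) hn0.ne'
  have r2 := Int.emod_nonneg (m 2) hn0.ne'
  have s1 := Int.emod_lt_of_pos (m 1) hn0
  have s2 := Int.emod_lt_of_pos (m 2) hn0
  have q1 := Int.ediv_nonneg h2 hn0.le
  have q2 := Int.ediv_nonneg h3 hn0.le
  set Q1 := m 1 / n with hQ1
  set Q2 := m 2 / n with hQ2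
  set R1 := m 1 % n with hR1
  set R2 := m 2 % n with hR2
  set M0 := m 0 - a * Q1 - c * Q2 with hM0
  have k1 : a * R1 + c * R2 ≤ n * M0 := by
    have : a * (R1 + n * Q1) + c * (R2 + n * Q2) ≤ n * m 0 := by rw [e1, e2]; exact h1
    rw [hM0]; linarith
  have k2 : 0 ≤ M0 := by
    by_contra hneg
    push Not at hneg
    have : n * M0 < 0 := mul_neg_of_pos_of_neg hn0 hneg
    have t1 : 0 ≤ a * R1 := mul_nonneg (by omega) r1
    have t2 : 0 ≤ c * R2 := mul_nonneg (by omega) r2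
    linarith
  have k3 : a * R1 + c * R2 ≤ n * (a + c) := by
    have t1 : a * R1 ≤ a * n := mul_le_mul_of_nonneg_left s1.le (by omega)
    have t2 : c * R2 ≤ c * n := mul_le_mul_of_nonneg_left s2.le (by omega)
    linarith
  have hac : a + c = a * b - 2 := by rw [hc_def]; ring
  refine ⟨(M0 - min M0 (a + c)).toNat, Q1.toNat, Q2.toNat, ![min M0 (a + c), R1, R2], ?_, ?_⟩
  · rw [mem_T, mem_SS]
    simp only [Matrix.cons_val_zero, Matrix.cons_val_one, Matrix.cons_val_two, Matrix.head_cons,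
      Matrix.tail_cons]
    refine ⟨⟨⟨le_min k2 (by omega), r1, r2⟩, ?_, ?_, ?_⟩, ?_, r1, r2⟩
    · rw [← hac]; exact min_le_right _ _
    · omega
    · omega
    · rcases min_cases M0 (a + c) with h | h
      · rw [h.1]; exact k1
      · rw [h.1]; exact k3
  · have hA : ((M0 - min M0 (a + c)).toNat : ℤ) = M0 - min M0 (a + c) :=
      Int.toNat_of_nonneg (sub_nonneg.2 (min_le_left _ _))
    have hB : (Q1.toNat : ℤ) = Q1 := Int.toNat_of_nonneg q1
    have hC : (Q2.toNat : ℤ) = Q2 := Int.toNat_of_nonneg q2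
    funext i
    fin_cases i
    · simp [xm, hA, hB, hC]
      rw [hM0]
      ring
    · simp [xm, hA, hB, hC]
      linarith
    · simp [xm, hA, hB, hC]
      linarith

theorem xm_mem_T {a b : ℤ} (ha : 3 ≤ a) (hb : 3 ≤ b) (σ : Fin 3) : xm a b σ ∈ T a b := by
  have hn : 8 ≤ a * b - 1 := by nlinarith
  have hc : 1 ≤ a * b - 2 - a := by nlinarith
  rw [mem_T]
  refine ⟨?_, xm_mem_SS (by omega) σ⟩
  fin_cases σ <;> simp [xm] <;> omega

end FGX

theorem fg_proof : Stmt_FG := by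
  classical
  intro k _ a b ha hb
  refine ⟨(FGX.T a b).image (mono k), ?_⟩
  rw [Finset.coe_image]
  apply le_antisymm
  · refine Algebra.adjoin_mono (Set.image_mono ?_)
    intro m hm
    exact (FGX.mem_T.1 hm).2
  · unfold AA
    refine Algebra.adjoin_le ?_
    rintro _ ⟨m, hm, rfl⟩
    obtain ⟨q0, q1, q2, m', hm', rfl⟩ := FGX.decomp ha hb hm
    have hT : ∀ m ∈ FGX.T a b, mono k m ∈ Algebra.adjoin k (mono k '' (FGX.T a b : Set (Fin 3 → ℤ))) :=
      fun m hm => Algebra.subset_adjoin ⟨m, hm, rfl⟩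
    rw [mono_add, mono_add, mono_add, mono_nsmul, mono_nsmul, mono_nsmul]
    exact Subalgebra.mul_mem _ (Subalgebra.mul_mem _ (Subalgebra.mul_mem _
      (Subalgebra.pow_mem _ (hT _ (FGX.xm_mem_T ha hb 0)) _)
      (Subalgebra.pow_mem _ (hT _ (FGX.xm_mem_T ha hb 1)) _))
      (Subalgebra.pow_mem _ (hT _ (FGX.xm_mem_T ha hb 2)) _)) (hT _ hm')

end MldPoly
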