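import Pool.Agent.Mld.Stmts

/-! Module Form: top forms are one dimensional. -/

namespace MldPoly

theorem form_proof (h : Stmt_Der) : Stmt_Form := by
  intro k _
  let e : Derivation k (K3 k) (K3 k) ≃ₗ[K3 k] (Fin 3 → K3 k) :=
    LinearEquiv.ofBijective (evalAt (tt k)) (h k)
  have hdet : ∀ ω : TopForm k (K3 k) 3, ∃ c : K3 k, ω = c • dForm (tt k) := by
    intro ω
    refine ⟨(ω.compLinearMap e.symm.toLinearMap) (Pi.basisFun (K3 k) (Fin 3)), ?_⟩
    have h1 := (ω.compLinearMap e.symm.toLinearMap).eq_smul_basis_det (Pi.basisFun (K3 k) (Fin 3))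
    rw [Pi.basisFun_det] at h1
    ext v
    have h2 := congrArg (fun g : (Fin 3 → K3 k) [⋀^Fin 3]→ₗ[K3 k] K3 k => g (fun i => e (v i))) h1
    simp only [AlternatingMap.compLinearMap_apply, AlternatingMap.smul_apply] at h2
    rw [AlternatingMap.smul_apply]
    have h3 : (fun i => e.symm.toLinearMap (e (v i))) = v := by
      funext i; exact e.symm_apply_apply (v i)
    have h4 : dForm (tt k) v = Matrix.detRowAlternating (fun i => e (v i)) := rfl
    have h5 : ω v = ω (fun i => e.symm.toLinearMap (e (v i))) := congrArg ω h3.symm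
    rw [h4, h5]
    exact h2
  have hP : (∏ i, tt k i) ≠ 0 := Finset.prod_ne_zero_iff.2 fun i _ => tt_ne k i
  have hne : (dForm (tt k) : TopForm k (K3 k) 3) ≠ 0 := by
    intro h0
    have h1 : dForm (tt k) (fun i => e.symm (Pi.basisFun (K3 k) (Fin 3) i)) = 0 := by
      rw [h0]; rfl
    have h2 : dForm (tt k) (fun i => e.symm (Pi.basisFun (K3 k) (Fin 3) i))
        = Matrix.detRowAlternating (fun i => e (e.symm (Pi.basisFun (K3 k) (Fin 3) i))) := rfl
    have h5 : (fun i => e (e.symm (Pi.basisFun (K3 k) (Fin 3) i)))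
        = fun i => Pi.basisFun (K3 k) (Fin 3) i := by
      funext i; exact e.apply_symm_apply _
    rw [h2, h5] at h1
    have h3 := (Pi.basisFun (K3 k) (Fin 3)).det_self
    rw [Pi.basisFun_det] at h3
    have h4 : Matrix.detRowAlternating (fun i => Pi.basisFun (K3 k) (Fin 3) i) = (1 : K3 k) := h3
    rw [h4] at h1
    exact one_ne_zero h1
  refine ⟨?_, ?_⟩
  · unfold omega0
    intro h0
    rw [smul_eq_zero] at h0
    rcases h0 with h0 | h0
    · exact inv_ne_zero hP h0
    · exact hne h0
  · intro ω hω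
    obtain ⟨c, hc⟩ := hdet ω
    refine ⟨c * ∏ i, tt k i, ?_, ?_⟩
    · refine mul_ne_zero ?_ hP
      rintro rfl
      exact hω (by rw [hc, zero_smul])
    · unfold omega0
      rw [smul_smul, mul_assoc, mul_inv_cancel₀ hP, mul_one]
      exact hc

end MldPoly
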