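import Pool.Agent.Mld.Stmts

open scoped BigOperators

namespace MldPoly

namespace FracX

variable (k : Type) [Field k]

theorem one_le_ab {a b : ℤ} (ha : 3 ≤ a) (hb : 3 ≤ b) : 1 ≤ a * b - 1 := by nlinarith

theorem mint_mem {a b : ℤ} (ha : 3 ≤ a) (hb : 3 ≤ b) : mint a b ∈ SS a b := fun ρ => by
  rw [dot_ray_mint]
  have := one_le_ab ha hb
  omega

theorem nsmul_mem {a b : ℤ} {m : Fin 3 → ℤ} (h : m ∈ SS a b) (N : ℕ) : N • m ∈ SS a b := fun ρ => by
  rw [dot_nsmul]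
  exact mul_nonneg (by positivity) (h ρ)

theorem shift {a b : ℤ} (ha : 3 ≤ a) (hb : 3 ≤ b) (m : Fin 3 → ℤ) (N : ℕ)
    (hN : ∀ ρ, |dot (ray a b ρ) m| ≤ N) : m + N • mint a b ∈ SS a b := fun ρ => by
  rw [dot_add, dot_nsmul, dot_ray_mint]
  have h1 := one_le_ab ha hb
  have h2 := abs_le.1 (hN ρ)
  have h3 : (N : ℤ) * 1 ≤ N * (a * b - 1) := mul_le_mul_of_nonneg_left h1 (by positivity)
  linarith [h2.1]

theorem poly {a b : ℤ} (ha : 3 ≤ a) (hb : 3 ≤ b) (g : P3 k) :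
    ∃ m ∈ SS a b, algebraMap (P3 k) (K3 k) g * mono k m ∈ AA k a b := by
  let w : (Fin 3 →₀ ℕ) → ℕ := fun s => ∑ ρ, (|dot (ray a b ρ) (fun i => (s i : ℤ))|).toNat
  let N : ℕ := ∑ s ∈ g.support, w s
  refine ⟨N • mint a b, nsmul_mem (mint_mem ha hb) N, ?_⟩
  have hg : g = ∑ s ∈ g.support, MvPolynomial.C (g.coeff s) * MvPolynomial.monomial s 1 := by
    conv_lhs => rw [MvPolynomial.as_sum g]
    refine Finset.sum_congr rfl fun s _ => ?_
    rw [MvPolynomial.C_mul_monomial, mul_one]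
  have h1 : algebraMap (P3 k) (K3 k) g = ∑ s ∈ g.support,
      g.coeff s • mono k (fun i => (s i : ℤ)) := by
    conv_lhs => rw [hg]
    rw [map_sum]
    refine Finset.sum_congr rfl fun s _ => ?_
    rw [map_mul, ← mono_nat, Algebra.smul_def]
    congr 1
  rw [h1, Finset.sum_mul]
  refine Subalgebra.sum_mem _ fun s hs => ?_
  rw [smul_mul_assoc, ← mono_add]
  refine Subalgebra.smul_mem _ (mono_mem_AA k (shift ha hb _ N fun ρ => ?_)) _
  have h2 : w s ≤ N := Finset.single_le_sum (f := w) (fun _ _ => Nat.zero_le _) hs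
  have h3 : (|dot (ray a b ρ) (fun i => (s i : ℤ))|).toNat ≤ w s :=
    Finset.single_le_sum (f := fun ρ => (|dot (ray a b ρ) (fun i => (s i : ℤ))|).toNat)
      (fun _ _ => Nat.zero_le _) (Finset.mem_univ ρ)
  have h4 := Int.self_le_toNat (|dot (ray a b ρ) (fun i => (s i : ℤ))|)
  have h5 : (|dot (ray a b ρ) (fun i => (s i : ℤ))|).toNat ≤ N := le_trans h3 h2
  exact le_trans h4 (by exact_mod_cast h5)

end FracX

theorem frac_proof : Stmt_Frac := by
  intro k _ a b ha hb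
  refine ⟨fun g => FracX.poly k ha hb g, fun f => ?_⟩
  obtain ⟨g, h, hh, rfl⟩ := IsFractionRing.div_surjective (A := P3 k) f
  obtain ⟨m, hm, hgm⟩ := FracX.poly k ha hb g
  obtain ⟨m', hm', hhm⟩ := FracX.poly k ha hb h
  have h0 : algebraMap (P3 k) (K3 k) h ≠ 0 :=
    (map_ne_zero_iff _ (IsFractionRing.injective (P3 k) (K3 k))).2 (nonZeroDivisors.ne_zero hh)
  refine ⟨_, Subalgebra.mul_mem _ hgm (mono_mem_AA k hm'), _,
    Subalgebra.mul_mem _ hhm (mono_mem_AA k hm), ?_, ?_⟩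
  · exact mul_ne_zero (mul_ne_zero h0 (mono_ne k _)) (mono_ne k _)
  · have h1 := mono_ne k m
    have h2 := mono_ne k m'
    field_simp

end MldPoly
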