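import Pool.Agent.Mld.Stmts

set_option autoImplicit false

/-!
# Algebraic Hartogs near a point, for the valuation-theoretic prime divisors
-/

open scoped BigOperators

namespace MldPoly

theorem hartogs_proof (hPD : Stmt_PD) : Stmt_Hartogs := by
  intro k K _ _ _ d X x hx f hf hpos
  classical
  have : Algebra.FiniteType k X.A := X.A.fg_iff_finiteType.1 X.fg
  have : IsNoetherianRing X.A := Algebra.FiniteType.isNoetherianRing k X.A
  -- the ideal of denominators
  let I : Ideal X.A :=
    { carrier := {b | (b : K) * f ∈ X.A}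
      add_mem' := by
        intro b b' hb hb'
        have h : ((b + b' : X.A) : K) * f = (b : K) * f + (b' : K) * f := by push_cast; ring
        change ((b + b' : X.A) : K) * f ∈ X.A
        rw [h]
        exact X.A.add_mem hb hb'
      zero_mem' := by
        change ((0 : X.A) : K) * f ∈ X.A
        simp
      smul_mem' := by
        intro r b hb
        have h : ((r • b : X.A) : K) * f = (r : K) * ((b : K) * f) := by
          rw [smul_eq_mul]; push_cast; ring
        change ((r • b : X.A) : K) * f ∈ X.A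
        rw [h]
        exact X.A.mul_mem r.2 hb }
  have hI : ∀ b : X.A, b ∈ I ↔ (b : K) * f ∈ X.A := fun b => Iff.rfl
  by_contra hcon
  push Not at hcon
  have hIx : I ≤ x := by
    intro b hb
    by_contra hbx
    have hb0 : (b : K) ≠ 0 := by
      intro h
      apply hbx
      have : b = 0 := Subtype.ext h
      rw [this]; exact x.zero_mem
    refine hcon ⟨_, (hI b).1 hb⟩ b hbx ?_
    change f = (b : K) * f / (b : K)
    field_simp
  have := hx
  obtain ⟨p, hp, hpx⟩ := Ideal.exists_minimalPrimes_le hIx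
  have hpp : p.IsPrime := hp.1.1
  have hIp : I ≤ p := hp.1.2
  have hcol : I = Submodule.colon I {(1 : X.A)} := by
    ext b
    rw [Submodule.mem_colon_singleton, smul_eq_mul, mul_one]
  obtain ⟨c, hc⟩ : ∃ c : X.A, p = Submodule.colon I {c} := by
    apply Submodule.exists_eq_colon_of_mem_minimalPrimes (x := (1 : X.A))
    rw [← hcol]
    exact hp
  have hcp : ∀ b : X.A, b ∈ p ↔ (b : K) * (c * f) ∈ X.A := by
    intro b
    rw [hc, Submodule.mem_colon_singleton, smul_eq_mul, hI]
    have : ((b * c : X.A) : K) * f = (b : K) * (c * f) := by push_cast; ring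
    rw [this]
  -- `g = c f` is not in `A`
  have hgA : (c : K) * f ∉ X.A := by
    intro h
    have : (1 : X.A) ∈ p := by
      rw [hcp]
      simpa using h
    exact hpp.ne_top ((Ideal.eq_top_iff_one p).2 this)
  have hc0 : (c : K) ≠ 0 := by
    intro h
    apply hgA
    rw [h, zero_mul]
    exact X.A.zero_mem
  have hg0 : (c : K) * f ≠ 0 := mul_ne_zero hc0 hf
  -- some `b ∈ p` has `b g ∈ A ∖ p`
  obtain ⟨b, hbp, u, hu, hup⟩ : ∃ b ∈ p, ∃ u : X.A, (u : K) = (b : K) * (c * f) ∧ u ∉ p := by
    by_contra hno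
    push Not at hno
    apply hgA
    apply X.normal
    -- Cayley–Hamilton
    let ι : X.A →ₗ[X.A] K := Algebra.linearMap X.A K
    let N : Submodule X.A K := Submodule.map ι p
    have hp0 : p ≠ ⊥ := by
      intro h0
      obtain ⟨a', ha', b', hb', hb0', hfe⟩ := X.fraction f
      have : (⟨b', hb'⟩ : X.A) ∈ p := by
        rw [hcp]
        change b' * ((c : K) * f) ∈ X.A
        have : b' * ((c : K) * f) = (c : K) * a' := by
          rw [hfe]; field_simp
        rw [this]
        exact X.A.mul_mem c.2 ha'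
      rw [h0, Ideal.mem_bot] at this
      exact hb0' (congrArg Subtype.val this)
    have hN0 : N ≠ ⊥ := by
      intro h0
      apply hp0
      rw [eq_bot_iff]
      intro y hy
      have h1 : ι y ∈ N := ⟨y, hy, rfl⟩
      rw [h0, Submodule.mem_bot] at h1
      rw [Ideal.mem_bot]
      exact Subtype.ext h1
    have hNfg : N.FG := (IsNoetherian.noetherian p).map ι
    refine isIntegral_of_smul_mem_submodule N hN0 hNfg ((c : K) * f) ?_
    rintro _ ⟨y, hy, rfl⟩
    have hyA : (y : K) * (c * f) ∈ X.A := (hcp y).1 hy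
    refine ⟨⟨_, hyA⟩, hno y hy ⟨_, hyA⟩ rfl, ?_⟩
    change (y : K) * (c * f) = (c * f) • (y : K)
    rw [smul_eq_mul]; ring
  have hu0 : u ≠ 0 := fun h => hup (h ▸ p.zero_mem)
  have hb0 : b ≠ 0 := by
    rintro rfl
    apply hu0
    apply Subtype.ext
    rw [hu]; simp
  have hbK : (b : K) ≠ 0 := fun h => hb0 (Subtype.ext h)
  have huK : (u : K) ≠ 0 := fun h => hu0 (Subtype.ext h)
  have hmul : ∀ y ∈ p, ∃ c' e : X.A, e ∉ p ∧ y * e = b * c' := by
    intro y hy
    refine ⟨⟨_, (hcp y).1 hy⟩, u, hup, Subtype.ext ?_⟩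
    change (y : K) * (u : K) = (b : K) * ((y : K) * (c * f))
    rw [hu]; ring
  obtain ⟨F, hF, hFb⟩ := hPD k K d X p hpp b hbp hb0 hmul
  -- `p` has height one
  have hht : p.height = 1 := by
    apply le_antisymm
    · refine Ideal.height_le_one_of_isPrincipal_of_mem_minimalPrimes (Ideal.span {b}) p ?_
      refine ⟨⟨hpp, (Ideal.span_singleton_le_iff_mem p).2 hbp⟩, ?_⟩
      rintro q ⟨hq, hbq⟩ hqp y hy
      have := hq
      obtain ⟨c', e, hep, he⟩ := hmul y hy
      have h1 : y * e ∈ q := by
        rw [he]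
        exact q.mul_mem_right _ (hbq (Ideal.mem_span_singleton_self b))
      rcases hq.mem_or_mem h1 with h2 | h2
      · exact h2
      · exact absurd (hqp h2) hep
    · rw [Order.one_le_iff_ne_zero, Ne, Ideal.height_eq_zero_iff_eq_bot]
      intro h0
      rw [h0, Ideal.mem_bot] at hbp
      exact hb0 hbp
  have key := hpos ⟨p, hpp, hht⟩ hpx F hF
  have hc1 : 0 ≤ F.ord (c : K) := hF.1 _ c.2 hc0
  have hu1 : ¬ 0 < F.ord (u : K) := fun h => hup ((hF.2 u).2 (Or.inr h))
  have h2 : F.ord (u : K) = F.ord (b : K) + (F.ord (c : K) + F.ord f) := by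
    rw [hu, F.ord_mul _ _ hbK hg0, F.ord_mul _ _ hc0 hf]
  rw [hFb] at h2
  omega

end MldPoly
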