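import Pool.Agent.Mld.Stmts

/-!
# The centre of a toric divisor has height one
-/

open scoped BigOperators

namespace MldPoly

/-- the centre ideal of a prime divisor with nonnegative orders on `X.A` -/
def htCentre {k K : Type} [Field k] [Field K] [Algebra k K] {d : ℕ} (E : PrimeDiv k K)
    (X : NormalVariety k K d) (h : ∀ a ∈ X.A, a ≠ 0 → 0 ≤ E.ord a) : Ideal X.A where
  carrier := {a | (a : K) = 0 ∨ 0 < E.ord (a : K)}
  zero_mem' := Or.inl rfl
  add_mem' := by
    intro a b ha hb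
    simp only [Set.mem_ofPred_eq, Subalgebra.coe_add] at *
    rcases eq_or_ne (a : K) 0 with ha0 | ha0
    · rw [ha0, zero_add]; exact hb
    rcases eq_or_ne (b : K) 0 with hb0 | hb0
    · rw [hb0, add_zero]; exact ha
    rcases eq_or_ne ((a : K) + b) 0 with h0 | h0
    · exact Or.inl h0
    · exact Or.inr (lt_of_lt_of_le (lt_min (ha.resolve_left ha0) (hb.resolve_left hb0))
        (E.ord_add _ _ ha0 hb0 h0))
  smul_mem' := by
    intro c a ha
    simp only [Set.mem_ofPred_eq, smul_eq_mul, Subalgebra.coe_mul] at *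
    rcases eq_or_ne (a : K) 0 with ha0 | ha0
    · left; rw [ha0, mul_zero]
    rcases eq_or_ne (c : K) 0 with hc0 | hc0
    · left; rw [hc0, zero_mul]
    right
    rw [E.ord_mul _ _ hc0 ha0]
    exact add_pos_of_nonneg_of_pos (h c c.2 hc0) (ha.resolve_left ha0)

theorem mem_htCentre {k K : Type} [Field k] [Field K] [Algebra k K] {d : ℕ} (E : PrimeDiv k K)
    (X : NormalVariety k K d) (h : ∀ a ∈ X.A, a ≠ 0 → 0 ≤ E.ord a) (a : X.A) :
    a ∈ htCentre E X h ↔ ((a : K) = 0 ∨ 0 < E.ord (a : K)) := Iff.rfl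

theorem htCentre_isPrime {k K : Type} [Field k] [Field K] [Algebra k K] {d : ℕ} (E : PrimeDiv k K)
    (X : NormalVariety k K d) (h : ∀ a ∈ X.A, a ≠ 0 → 0 ≤ E.ord a) : (htCentre E X h).IsPrime := by
  refine ⟨?_, ?_⟩
  · rw [Ideal.ne_top_iff_one, mem_htCentre]
    rintro (h1 | h1)
    · exact one_ne_zero h1
    · simp only [Subalgebra.coe_one] at h1
      rw [E.ord_one] at h1
      exact lt_irrefl _ h1
  · intro x y hxy
    rw [mem_htCentre, Subalgebra.coe_mul] at hxy
    rw [mem_htCentre, mem_htCentre]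
    by_contra hcon
    push Not at hcon
    obtain ⟨⟨hx0, hx⟩, hy0, hy⟩ := hcon
    rcases hxy with h0 | h0
    · exact (mul_ne_zero hx0 hy0) h0
    · rw [E.ord_mul _ _ hx0 hy0] at h0
      linarith

/-- if the local ring at the centre is the valuation ring, then the centre has height one -/
theorem htCentre_height {k K : Type} [Field k] [Field K] [Algebra k K] {d : ℕ} (E : PrimeDiv k K)
    (X : NormalVariety k K d) (h : ∀ a ∈ X.A, a ≠ 0 → 0 ≤ E.ord a)
    (h' : ∀ f : K, f ≠ 0 → 0 ≤ E.ord f →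
      ∃ x ∈ X.A, ∃ y ∈ X.A, y ≠ 0 ∧ E.ord y = 0 ∧ f = x / y)
    (g : X.A) (hg0 : g ≠ 0) (hg : g ∈ htCentre E X h) : (htCentre E X h).height = 1 := by
  have := htCentre_isPrime E X h
  have : IsNoetherianRing X.A := by
    have : Algebra.FiniteType k X.A := (Subalgebra.fg_iff_finiteType _).1 X.fg
    exact Algebra.FiniteType.isNoetherianRing k X.A
  -- every prime below the centre containing a nonzero element is the centre
  have key : ∀ q : Ideal X.A, q.IsPrime → (∃ y ∈ q, y ≠ 0) → q ≤ htCentre E X h →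
      htCentre E X h ≤ q := by
    rintro q hq ⟨y, hyq, hy0⟩ hle z hz
    rcases eq_or_ne z 0 with rfl | hz0
    · exact q.zero_mem
    have hy0' : (y : K) ≠ 0 := fun h => hy0 (Subtype.ext h)
    have hz0' : (z : K) ≠ 0 := fun h => hz0 (Subtype.ext h)
    have hzpos : 1 ≤ E.ord (z : K) := (((mem_htCentre E X h z).1 hz).resolve_left hz0')
    obtain ⟨N, hN⟩ : ∃ N : ℕ, (N : ℤ) = E.ord (y : K) :=
      ⟨(E.ord (y : K)).toNat, Int.toNat_of_nonneg (h y y.2 hy0')⟩
    obtain ⟨u, hu, v, hv, hv0, hv1, huv⟩ := h' ((z : K) ^ N / y) (div_ne_zero (pow_ne_zero _ hz0') hy0')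
      (by
        rw [E.ord_div _ _ (pow_ne_zero _ hz0') hy0', E.ord_pow _ hz0', ← hN]
        nlinarith [Int.natCast_nonneg N])
    have hvq : (⟨v, hv⟩ : X.A) ∉ q := by
      intro hvq
      have := (mem_htCentre E X h _).1 (hle hvq)
      simp only at this
      rcases this with h1 | h1
      · exact hv0 h1
      · rw [hv1] at h1
        exact lt_irrefl _ h1
    have heq : z ^ N * ⟨v, hv⟩ = y * ⟨u, hu⟩ := by
      apply Subtype.ext
      simp only [Subalgebra.coe_mul, Subalgebra.coe_pow]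
      rw [div_eq_div_iff hy0' hv0] at huv
      rw [huv]; ring
    have hmem : z ^ N * ⟨v, hv⟩ ∈ q := by
      rw [heq]
      exact q.mul_mem_right _ hyq
    exact hq.mem_of_pow_mem N ((hq.mem_or_mem hmem).resolve_right hvq)
  have hmin : htCentre E X h ∈ (Ideal.span {g}).minimalPrimes := by
    refine ⟨⟨inferInstance, ?_⟩, ?_⟩
    · rw [Ideal.span_singleton_le_iff_mem]
      exact hg
    · rintro q ⟨hq, hgq⟩ hle
      rw [Ideal.span_singleton_le_iff_mem] at hgq
      exact key q hq ⟨g, hgq, hg0⟩ hle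
  apply le_antisymm
  · exact Ideal.height_le_one_of_isPrincipal_of_mem_minimalPrimes _ _ hmin
  · rw [Order.one_le_iff_ne_zero]
    intro h0
    rw [Ideal.height_eq_zero_iff_eq_bot] at h0
    rw [h0, Ideal.mem_bot] at hg
    exact hg0 hg

theorem htRay_proof (hLoc : Stmt_LocRay) : Stmt_HtRay := by
  intro k _ a b ha hb X hX ρ E hE
  obtain ⟨h1, h2⟩ := hLoc k a b ha hb ρ E hE
  rw [← hX] at h1 h2
  have hn : 1 ≤ a * b - 1 := by nlinarith
  have hgm : mono k (xm a b ρ) ∈ X.A := by
    rw [hX]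
    exact mono_mem_AA k (xm_mem_SS (by linarith) ρ)
  refine ⟨⟨htCentre E X h1, htCentre_isPrime E X h1,
    htCentre_height E X h1 h2 ⟨mono k (xm a b ρ), hgm⟩ ?_ ?_⟩, h1, fun _ => Iff.rfl⟩
  · intro h0
    exact mono_ne k _ (congrArg Subtype.val h0)
  · rw [mem_htCentre]
    right
    simp only
    rw [ord_mono_of_isMonoDiv k hE, dot_ray_xm, if_pos rfl]
    linarith

end MldPoly
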