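import Pool.Agent.Mld.Stmts

/-!
# Real combinations of principal divisors: pull back is well defined
-/

open scoped BigOperators

namespace MldPoly

namespace IndepX

variable {k K : Type} [Field k] [Field K] [Algebra k K] {d : ℕ} {X : NormalVariety k K d}

theorem ord_nonneg_of_hartogs (hH : Stmt_Hartogs) {x : Ideal X.A} (hx : x.IsPrime)
    (E : PrimeDiv k K) (hE : E.HasCenter X x) (g : K) (hg : g ≠ 0)
    (h : ∀ p : PrimeWeil X, p.1 ≤ x → ∀ F : PrimeDiv k K, F.HasCenter X p.1 → 0 ≤ F.ord g) :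
    0 ≤ E.ord g := by
  obtain ⟨a, b, hb, hab⟩ := hH k K d X x hx g hg h
  have hb0 : (b : K) ≠ 0 := fun h0 => hb ((hE.2 b).2 (Or.inl h0))
  have ha0 : (a : K) ≠ 0 := by
    rintro h0
    rw [h0, zero_div] at hab
    exact hg hab
  have hordb : E.ord (b : K) = 0 := by
    have h1 := hE.1 b b.2 hb0
    have h2 : ¬ 0 < E.ord (b : K) := fun h2 => hb ((hE.2 b).2 (Or.inr h2))
    omega
  rw [hab, E.ord_div _ _ ha0 hb0, hordb, sub_zero]
  exact hE.1 a a.2 ha0

theorem ord_prod_zpow (E : PrimeDiv k K) {n : ℕ} (φ : Fin n → K) (hφ : ∀ i, φ i ≠ 0)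
    (Z : Fin n → ℤ) : E.ord (∏ i, φ i ^ Z i) = ∑ i, Z i * E.ord (φ i) := by
  rw [E.ord_prod _ _ fun i _ => zpow_ne_zero _ (hφ i)]
  exact Finset.sum_congr rfl fun i _ => E.ord_zpow _ (hφ i) _

end IndepX

open IndepX

theorem indep_proof (hH : Stmt_Hartogs) : Stmt_Indep := by
  intro k K _ _ _ d X x hx E hE n r φ hφ h
  let vec : PrimeDiv k K → (Fin n → ℚ) := fun F i => (F.ord (φ i) : ℚ)
  let S : Set (Fin n → ℚ) := {v | ∃ F : PrimeDiv k K, (∃ p : PrimeWeil X, p.1 ≤ x ∧
    F.HasCenter X p.1) ∧ v = vec F}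
  have hmem : vec E ∈ Submodule.span ℚ S := by
    by_contra hcon
    obtain ⟨f, hfE, hfW⟩ := Submodule.exists_le_ker_of_notMem hcon
    -- integral coefficients
    have hf : ∀ v : Fin n → ℚ, f v = ∑ i, f (fun j => if i = j then 1 else 0) * v i := by
      intro v
      rw [LinearMap.pi_apply_eq_sum_univ f v]
      exact Finset.sum_congr rfl fun i _ => by rw [smul_eq_mul, mul_comm]
    obtain ⟨D, hD⟩ := IsLocalization.exist_integer_multiples_of_finite (nonZeroDivisors ℤ)
      (fun i : Fin n => f (fun j => if i = j then 1 else 0))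
    have hD0 : ((D : ℤ) : ℚ) ≠ 0 := by
      exact_mod_cast nonZeroDivisors.ne_zero D.2
    choose Z hZ using hD
    have hZ' : ∀ i, (Z i : ℚ) = (D : ℤ) * f (fun j => if i = j then 1 else 0) := by
      intro i
      have := hZ i
      simpa [zsmul_eq_mul] using this
    have hval : ∀ F : PrimeDiv k K, ((F.ord (∏ i, φ i ^ Z i) : ℤ) : ℚ) = (D : ℤ) * f (vec F) := by
      intro F
      rw [ord_prod_zpow F φ hφ, hf, Finset.mul_sum]
      push_cast
      refine Finset.sum_congr rfl fun i _ => ?_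
      rw [hZ' i]
      simp only [vec]
      ring
    have hF0 : ∀ p : PrimeWeil X, p.1 ≤ x → ∀ F : PrimeDiv k K, F.HasCenter X p.1 →
        F.ord (∏ i, φ i ^ Z i) = 0 := by
      intro p hp F hF
      have h1 : f (vec F) = 0 := hfW (Submodule.subset_span ⟨F, ⟨p, hp, hF⟩, rfl⟩)
      have h2 := hval F
      rw [h1, mul_zero] at h2
      exact_mod_cast h2
    have hg0 : (∏ i, φ i ^ Z i) ≠ 0 := Finset.prod_ne_zero_iff.2 fun i _ => zpow_ne_zero _ (hφ i)
    have h1 : 0 ≤ E.ord (∏ i, φ i ^ Z i) :=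
      ord_nonneg_of_hartogs hH hx E hE _ hg0 fun p hp F hF => (hF0 p hp F hF).ge
    have h2 : 0 ≤ E.ord (∏ i, φ i ^ Z i)⁻¹ :=
      ord_nonneg_of_hartogs hH hx E hE _ (inv_ne_zero hg0) fun p hp F hF => by
        rw [F.ord_inv _ hg0, hF0 p hp F hF, neg_zero]
    rw [E.ord_inv _ hg0] at h2
    have h3 : E.ord (∏ i, φ i ^ Z i) = 0 := by omega
    have h4 := hval E
    rw [h3, Int.cast_zero] at h4
    rcases mul_eq_zero.1 h4.symm with h5 | h5
    · exact hD0 h5
    · exact hfE h5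
  let R : (Fin n → ℚ) →ₗ[ℚ] ℝ :=
    { toFun := fun v => ∑ i, r i * (v i : ℝ)
      map_add' := by
        intro v w
        rw [← Finset.sum_add_distrib]
        exact Finset.sum_congr rfl fun i _ => by rw [Pi.add_apply]; push_cast; ring
      map_smul' := by
        intro c v
        rw [RingHom.id_apply, Finset.smul_sum]
        refine Finset.sum_congr rfl fun i _ => ?_
        rw [Pi.smul_apply, smul_eq_mul, Rat.smul_def]
        push_cast
        ring }
  have hR : ∀ F : PrimeDiv k K, R (vec F) = ∑ i, r i * (F.ord (φ i) : ℝ) := by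
    intro F
    change ∑ i, r i * (((F.ord (φ i) : ℤ) : ℚ) : ℝ) = _
    exact Finset.sum_congr rfl fun i _ => by push_cast; rfl
  have hker : Submodule.span ℚ S ≤ LinearMap.ker R := by
    rw [Submodule.span_le]
    rintro v ⟨F, ⟨p, hp, hF⟩, rfl⟩
    rw [SetLike.mem_coe, LinearMap.mem_ker, hR]
    exact h p hp F hF
  have := hker hmem
  rw [LinearMap.mem_ker, hR] at this
  exact this

end MldPoly
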