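import Pool.Agent.Mld.Stmts

/-!
# The local ring at the generic point of a toric divisor
-/

open scoped BigOperators

namespace MldPoly

/-- for each ray an exponent in `SS` on which this ray has value one -/
def sray (a b : ℤ) : Fin 3 → Fin 3 → ℤ :=
  ![![a - 1, a * b - 1 - b, 0], ![a, 1, 0], ![1, 0, 1]]

theorem dot_ray_sray (a b : ℤ) (ρ : Fin 3) : dot (ray a b ρ) (sray a b ρ) = 1 := by
  fin_cases ρ <;> simp [dot, ray, sray, Fin.sum_univ_three] <;> ring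

theorem sray_mem_SS {a b : ℤ} (ha : 3 ≤ a) (hb : 3 ≤ b) (ρ : Fin 3) : sray a b ρ ∈ SS a b := by
  have h8 : 8 ≤ a * b - 1 := by nlinarith
  rw [mem_SS]
  fin_cases ρ
  · simp [sray]
    constructor <;> nlinarith
  · simp [sray]
    nlinarith
  · simp [sray]
    nlinarith

/-- for each ray an exponent on which this ray has value minus one, the others being nonnegative -/
def tray (a b : ℤ) (ρ : Fin 3) : Fin 3 → ℤ := (a * b - 2) • sray a b ρ - xm a b ρ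

theorem dot_ray_tray (a b : ℤ) (ρ : Fin 3) : dot (ray a b ρ) (tray a b ρ) = -1 := by
  unfold tray
  rw [dot_sub, dot_smul, dot_ray_sray, dot_ray_xm, if_pos rfl]
  ring

theorem dot_ray_tray_ne {a b : ℤ} (ha : 3 ≤ a) (hb : 3 ≤ b) {ρ σ : Fin 3} (h : σ ≠ ρ) :
    0 ≤ dot (ray a b σ) (tray a b ρ) := by
  unfold tray
  rw [dot_sub, dot_smul, dot_ray_xm, if_neg h, sub_zero]
  have h1 := sray_mem_SS ha hb ρ σ
  have h2 : 0 ≤ a * b - 2 := by nlinarith
  exact mul_nonneg h2 h1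

theorem AA_le_ring (k : Type) [Field k] (a b : ℤ) (ρ : Fin 3) (E : PrimeDiv k (K3 k))
    (hE : IsMonoDiv k (ray a b ρ) E) : AA k a b ≤ E.ring := by
  unfold AA
  rw [Algebra.adjoin_le_iff]
  rintro _ ⟨m, hm, rfl⟩
  right
  rw [ord_mono_of_isMonoDiv k hE]
  exact hm ρ

theorem mul_mono_tray_mem (hMem : Stmt_Mem) (hOrd : Stmt_OrdSum) (k : Type) [Field k] {a b : ℤ}
    (ha : 3 ≤ a) (hb : 3 ≤ b) (ρ : Fin 3) (E : PrimeDiv k (K3 k))
    (hE : IsMonoDiv k (ray a b ρ) E) (x : K3 k) (hx : x ∈ AA k a b) (hx0 : x ≠ 0) (j : ℕ)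
    (hj : (j : ℤ) ≤ E.ord x) : x * mono k (j • tray a b ρ) ∈ AA k a b := by
  obtain ⟨s, c, hs, hxs⟩ := (hMem k a b x).1 hx
  have hne : s.Nonempty := by
    rw [Finset.nonempty_iff_ne_empty]
    rintro rfl
    rw [Finset.sum_empty] at hxs
    exact hx0 hxs
  obtain ⟨-, hL⟩ := hOrd k (ray a b ρ) E hE s c (fun m hm => (hs m hm).2) hne
  rw [← hxs] at hL
  rw [hxs, Finset.sum_mul]
  refine Subalgebra.sum_mem _ fun m hm => ?_
  rw [smul_mul_assoc, ← mono_add]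
  refine Subalgebra.smul_mem _ (mono_mem_AA k ?_) _
  intro σ
  rw [dot_add, dot_nsmul]
  rcases eq_or_ne σ ρ with rfl | hσ
  · rw [dot_ray_tray]
    have h := hL.2 ⟨m, hm, rfl⟩
    linarith
  · have h1 := dot_ray_tray_ne ha hb hσ
    have h2 := (hs m hm).1 σ
    positivity

theorem locRay_proof (hMem : Stmt_Mem) (hOrd : Stmt_OrdSum) (hFrac : Stmt_Frac) :
    Stmt_LocRay := by
  intro k _ a b ha hb ρ E hE
  have hpos : ∀ f ∈ AA k a b, f ≠ 0 → 0 ≤ E.ord f := fun f hf hf0 =>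
    ((E.mem_ring).1 (AA_le_ring k a b ρ E hE hf)).resolve_left hf0
  refine ⟨hpos, fun f hf0 hf => ?_⟩
  obtain ⟨x, hx, y, hy, hy0, hxy⟩ := (hFrac k a b ha hb).2 f
  have hx0 : x ≠ 0 := by
    rintro rfl
    rw [zero_div] at hxy
    exact hf0 hxy
  obtain ⟨j, hj⟩ : ∃ j : ℕ, (j : ℤ) = E.ord y := ⟨(E.ord y).toNat, Int.toNat_of_nonneg (hpos y hy hy0)⟩
  have hxj : (j : ℤ) ≤ E.ord x := by
    have h := E.ord_div x y hx0 hy0
    rw [← hxy] at h
    linarith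
  refine ⟨x * mono k (j • tray a b ρ),
    mul_mono_tray_mem hMem hOrd k ha hb ρ E hE x hx hx0 j hxj,
    y * mono k (j • tray a b ρ),
    mul_mono_tray_mem hMem hOrd k ha hb ρ E hE y hy hy0 j hj.le,
    mul_ne_zero hy0 (mono_ne k _), ?_, ?_⟩
  · rw [E.ord_mul _ _ hy0 (mono_ne k _), ord_mono_of_isMonoDiv k hE, dot_nsmul, dot_ray_tray, hj]
    ring
  · rw [hxy, mul_div_mul_right _ _ (mono_ne k _)]

end MldPoly
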