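import Pool.Agent.Mld.Stmts

/-!
# The logarithmic form has at most simple poles
-/

open scoped BigOperators

namespace MldPoly

namespace LogX

variable {k K : Type} [Field k] [Field K] [Algebra k K]

theorem smul_regular {d : ℕ} {E : PrimeDiv k K} {η : TopForm k K d} (h : RegularAlong E η)
    {c : K} (hc : c ∈ E.ring) : RegularAlong E (c • η) :=
  Submodule.smul_mem _ (⟨c, hc⟩ : E.ring) h

theorem dForm_regular {d : ℕ} {E : PrimeDiv k K} {a : Fin d → K} (ha : ∀ j, a j ∈ E.ring) :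
    RegularAlong E (dForm (k := k) a) :=
  Submodule.subset_span ⟨a, ha, rfl⟩

theorem key (w u : Fin 3 → K) (P t : Fin 3 → K) (ϖ : K) (hw : ∀ i, w i ≠ 0)
    (hP : ∀ i, P i ≠ 0) (hϖ : ϖ ≠ 0) (ht : ∀ i, t i = w i * P i)
    (hD : ∀ (D : Derivation k K K) (i : Fin 3), D (t i) = P i * D (w i) + u i * (w i * P i) / ϖ * D ϖ) :
    ϖ • ((∏ i, t i)⁻¹ • dForm (k := k) t) =
      (ϖ * (w 0)⁻¹ * (w 1)⁻¹ * (w 2)⁻¹) • dForm ![w 0, w 1, w 2] +
      (u 0 * (w 1)⁻¹ * (w 2)⁻¹) • dForm ![ϖ, w 1, w 2] +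
      (u 1 * (w 0)⁻¹ * (w 2)⁻¹) • dForm ![w 0, ϖ, w 2] +
      (u 2 * (w 0)⁻¹ * (w 1)⁻¹) • dForm ![w 0, w 1, ϖ] := by
  ext D
  have h0 := hw 0
  have h1 := hw 1
  have h2 := hw 2
  have p0 := hP 0
  have p1 := hP 1
  have p2 := hP 2
  simp only [AlternatingMap.smul_apply, AlternatingMap.add_apply, dForm,
    AlternatingMap.compLinearMap_apply, Fin.prod_univ_three, smul_eq_mul]
  change ϖ * ((t 0 * t 1 * t 2)⁻¹ * Matrix.det (fun i => evalAt t (D i))) =
    ϖ * (w 0)⁻¹ * (w 1)⁻¹ * (w 2)⁻¹ * Matrix.det (fun i => evalAt ![w 0, w 1, w 2] (D i)) +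
    u 0 * (w 1)⁻¹ * (w 2)⁻¹ * Matrix.det (fun i => evalAt ![ϖ, w 1, w 2] (D i)) +
    u 1 * (w 0)⁻¹ * (w 2)⁻¹ * Matrix.det (fun i => evalAt ![w 0, ϖ, w 2] (D i)) +
    u 2 * (w 0)⁻¹ * (w 1)⁻¹ * Matrix.det (fun i => evalAt ![w 0, w 1, ϖ] (D i))
  simp only [Matrix.det_fin_three, evalAt, LinearMap.coe_mk, AddHom.coe_mk,
    Matrix.cons_val_zero, Matrix.cons_val_one, Matrix.cons_val, hD]
  rw [ht 0, ht 1, ht 2]
  field_simp
  ring

end LogX

open LogX

theorem log_proof : Stmt_Log := by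
  intro k _ E j hj
  obtain ⟨ϖ, hϖ0, hϖ1⟩ := E.exists_uniformizer
  set u : Fin 3 → ℤ := fun i => E.ord (tt k i) with hu
  set P : Fin 3 → K3 k := fun i => ϖ ^ u i with hP
  set w : Fin 3 → K3 k := fun i => tt k i / P i with hw
  have hP0 : ∀ i, P i ≠ 0 := fun i => zpow_ne_zero _ hϖ0
  have hw0 : ∀ i, w i ≠ 0 := fun i => div_ne_zero (tt_ne k i) (hP0 i)
  have hordw : ∀ i, E.ord (w i) = 0 := by
    intro i
    rw [hw]
    simp only
    rw [E.ord_div _ _ (tt_ne k i) (hP0 i)]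
    simp only [hP]
    rw [E.ord_zpow _ hϖ0, hϖ1, mul_one, hu]
    simp
  have ht : ∀ i, tt k i = w i * P i := fun i => (div_mul_cancel₀ _ (hP0 i)).symm
  have hD : ∀ (D : Derivation k (K3 k) (K3 k)) (i : Fin 3), D (tt k i) =
      P i * D (w i) + (u i : K3 k) * (w i * P i) / ϖ * D ϖ := by
    intro D i
    conv_lhs => rw [ht i]
    rw [D.leibniz, hP]
    simp only [smul_eq_mul]
    rw [D.leibniz_zpow, smul_eq_mul, zsmul_eq_mul, zpow_sub_one₀ hϖ0]
    field_simp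
    ring
  have hmem : ∀ i, w i ∈ E.ring := fun i => Or.inr (hordw i).ge
  have hmem' : ∀ i, (w i)⁻¹ ∈ E.ring := fun i =>
    Or.inr (by rw [E.ord_inv _ (hw0 i), hordw, neg_zero])
  have hϖm : ϖ ∈ E.ring := Or.inr (by rw [hϖ1]; exact zero_le_one)
  have hum : ∀ i, (u i : K3 k) ∈ E.ring := fun i => by
    have := E.ring.algebraMap_mem ((u i : k))
    rwa [map_intCast] at this
  have hreg : RegularAlong E (ϖ • omega0 k) := by
    unfold omega0
    rw [key w (fun i => (u i : K3 k)) P (tt k) ϖ hw0 hP0 hϖ0 ht hD]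
    refine Submodule.add_mem _ (Submodule.add_mem _ (Submodule.add_mem _ ?_ ?_) ?_) ?_
    · refine smul_regular (dForm_regular ?_) (E.ring.mul_mem (E.ring.mul_mem (E.ring.mul_mem hϖm
        (hmem' 0)) (hmem' 1)) (hmem' 2))
      intro j; fin_cases j
      · exact hmem 0
      · exact hmem 1
      · exact hmem 2
    · refine smul_regular (dForm_regular ?_) (E.ring.mul_mem (E.ring.mul_mem (hum 0)
        (hmem' 1)) (hmem' 2))
      intro j; fin_cases j
      · exact hϖm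
      · exact hmem 1
      · exact hmem 2
    · refine smul_regular (dForm_regular ?_) (E.ring.mul_mem (E.ring.mul_mem (hum 1)
        (hmem' 0)) (hmem' 2))
      intro j; fin_cases j
      · exact hmem 0
      · exact hϖm
      · exact hmem 2
    · refine smul_regular (dForm_regular ?_) (E.ring.mul_mem (E.ring.mul_mem (hum 2)
        (hmem' 0)) (hmem' 1))
      intro j; fin_cases j
      · exact hmem 0
      · exact hmem 1
      · exact hϖm
  have h := (hj ϖ hϖ0).1 hreg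
  rw [hϖ1] at h
  omega

end MldPoly
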