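import Pool.Agent.Mld.Stmts

/-!
# The torus fixed point of the toric ring
-/

open scoped BigOperators

namespace MldPoly

namespace MaxX

theorem key (hO : Stmt_OrdSum) (k : Type) [Field k] (a b : ℤ) (u : Fin 3 → ℤ)
    (hu : ∀ m ∈ SS a b, m ≠ 0 → 0 < dot u m) (E : PrimeDiv k (K3 k)) (hE : IsMonoDiv k u E)
    (s : Finset (Fin 3 → ℤ)) (c : (Fin 3 → ℤ) → k) (hs : ∀ m ∈ s, m ∈ SS a b ∧ c m ≠ 0) :
    ((∑ m ∈ s, c m • mono k m) ≠ 0 → 0 ≤ E.ord (∑ m ∈ s, c m • mono k m)) ∧
    (((∑ m ∈ s, c m • mono k m) = 0 ∨ 0 < E.ord (∑ m ∈ s, c m • mono k m)) ↔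
      (0 : Fin 3 → ℤ) ∉ s) := by
  rcases s.eq_empty_or_nonempty with rfl | hne
  · simp
  obtain ⟨h0, ⟨m, hm, hmv⟩, hlow⟩ := hO k u E hE s c (fun m hm => (hs m hm).2) hne
  have hnn : ∀ m ∈ s, 0 ≤ dot u m := by
    intro m hm
    rcases eq_or_ne m 0 with rfl | h
    · exact (dot_zero u).ge
    · exact (hu m (hs m hm).1 h).le
  have hge : 0 ≤ E.ord (∑ m ∈ s, c m • mono k m) := by
    rw [← hmv]; exact hnn m hm
  refine ⟨fun _ => hge, ?_⟩
  constructor
  · rintro (h | h) h0s
    · exact h0 h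
    · have := hlow ⟨0, h0s, rfl⟩
      rw [dot_zero] at this
      omega
  · intro h0s
    right
    rw [← hmv]
    refine hu m (hs m hm).1 ?_
    rintro rfl
    exact h0s hm

theorem u0_pos {a b : ℤ} (ha : 3 ≤ a) (hb : 3 ≤ b) :
    ∀ m ∈ SS a b, m ≠ 0 → 0 < dot ![1, 0, 0] m := by
  intro m hm h0
  rw [mem_SS] at hm
  obtain ⟨h1, h2, h3⟩ := hm
  have hd : dot ![1, 0, 0] m = m 0 := by simp [dot, Fin.sum_univ_three]
  rw [hd]
  by_contra hneg
  push Not at hneg
  have hab : 3 * a ≤ a * b := by nlinarith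
  have h4 : (a * b - 1) * m 0 ≤ 0 := by
    have : 0 ≤ a * b - 1 := by linarith
    nlinarith
  have h5 : 0 ≤ a * m 1 := by positivity
  have h6 : 0 ≤ (a * b - 2 - a) * m 2 := by
    apply mul_nonneg _ h3; linarith
  have h7 : a * m 1 = 0 := by linarith
  have h8 : (a * b - 2 - a) * m 2 = 0 := by linarith
  have h9 : (a * b - 1) * m 0 = 0 := by linarith
  have m1 : m 1 = 0 := by
    rcases mul_eq_zero.1 h7 with h | h
    · omega
    · exact h
  have m2 : m 2 = 0 := by
    rcases mul_eq_zero.1 h8 with h | h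
    · linarith
    · exact h
  have m0 : m 0 = 0 := by
    rcases mul_eq_zero.1 h9 with h | h
    · linarith
    · exact h
  apply h0
  funext i
  fin_cases i
  · exact m0
  · exact m1
  · exact m2

end MaxX

theorem max_proof (hM : Stmt_Mem) (hO : Stmt_OrdSum) (hD : Stmt_MonoDiv) : Stmt_Max := by
  intro k _ a b ha hb X hX
  obtain ⟨E, hE⟩ := hD k ![1, 0, 0] ![1, 0, 0] (by simp [dot, Fin.sum_univ_three])
  have hu0 := MaxX.u0_pos ha hb
  have rep : ∀ y : X.A, ∃ (s : Finset (Fin 3 → ℤ)) (c : (Fin 3 → ℤ) → k),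
      (∀ m ∈ s, m ∈ SS a b ∧ c m ≠ 0) ∧ (y : K3 k) = ∑ m ∈ s, c m • mono k m := by
    intro y
    have hy : (y : K3 k) ∈ AA k a b := by rw [← hX]; exact y.2
    exact (hM k a b _).1 hy
  have hnn : ∀ y : X.A, (y : K3 k) ≠ 0 → 0 ≤ E.ord (y : K3 k) := by
    intro y hy
    obtain ⟨s, c, hs, hys⟩ := rep y
    rw [hys] at hy ⊢
    exact (MaxX.key hO k a b _ hu0 E hE s c hs).1 hy
  let x : Ideal X.A :=
    { carrier := {y : X.A | (y : K3 k) = 0 ∨ 0 < E.ord (y : K3 k)}
      add_mem' := by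
        intro y z hy hz
        simp only [Set.mem_ofPred_eq] at hy hz ⊢
        rcases eq_or_ne (y : K3 k) 0 with hy0 | hy0
        · rw [Subalgebra.coe_add, hy0, zero_add]; exact hz
        rcases eq_or_ne (z : K3 k) 0 with hz0 | hz0
        · rw [Subalgebra.coe_add, hz0, add_zero]; exact hy
        rcases eq_or_ne ((y : K3 k) + (z : K3 k)) 0 with h | h
        · left; rw [Subalgebra.coe_add]; exact h
        · right
          rw [Subalgebra.coe_add]
          exact lt_of_lt_of_le (lt_min (hy.resolve_left hy0) (hz.resolve_left hz0))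
            (E.ord_add _ _ hy0 hz0 h)
      zero_mem' := by
        simp
      smul_mem' := by
        intro y z hz
        simp only [Set.mem_ofPred_eq, smul_eq_mul, Subalgebra.coe_mul] at hz ⊢
        rcases eq_or_ne (y : K3 k) 0 with hy0 | hy0
        · left; rw [hy0, zero_mul]
        rcases eq_or_ne (z : K3 k) 0 with hz0 | hz0
        · left; rw [hz0, mul_zero]
        right
        rw [E.ord_mul _ _ hy0 hz0]
        exact add_pos_of_nonneg_of_pos (hnn y hy0) (hz.resolve_left hz0) }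
  have hxmem : ∀ y : X.A, y ∈ x ↔ ((y : K3 k) = 0 ∨ 0 < E.ord (y : K3 k)) := fun y => Iff.rfl
  refine ⟨x, ?_, ?_, ?_⟩
  · rw [Ideal.isMaximal_iff]
    constructor
    · rw [hxmem]
      rintro (h | h)
      · rw [Subalgebra.coe_one] at h; exact one_ne_zero h
      · rw [Subalgebra.coe_one, E.ord_one] at h; exact lt_irrefl _ h
    · intro J y hxJ hy hyJ
      obtain ⟨s, c, hs, hys⟩ := rep y
      have h0s : (0 : Fin 3 → ℤ) ∈ s := by
        by_contra h0s
        apply hy
        rw [hxmem, hys]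
        exact (MaxX.key hO k a b _ hu0 E hE s c hs).2.2 h0s
      have hc0 : c 0 ≠ 0 := (hs 0 h0s).2
      -- `y - c 0` lies in `x`
      have hz : y - algebraMap k X.A (c 0) ∈ x := by
        rw [hxmem]
        have h1 : ((y - algebraMap k X.A (c 0) : X.A) : K3 k) =
            ∑ m ∈ s.erase 0, c m • mono k m := by
          rw [Subalgebra.coe_sub, hys, ← Finset.add_sum_erase s _ h0s, mono_zero]
          have : ((algebraMap k X.A (c 0) : X.A) : K3 k) = algebraMap k (K3 k) (c 0) := rfl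
          rw [this, Algebra.smul_def, mul_one]
          ring
        rw [h1]
        exact (MaxX.key hO k a b _ hu0 E hE (s.erase 0) c
          (fun m hm => hs m (Finset.mem_of_mem_erase hm))).2.2 (by simp)
      have hcJ : algebraMap k X.A (c 0) ∈ J := by
        have h2 := J.sub_mem hyJ (hxJ hz)
        rwa [sub_sub_cancel] at h2
      have h3 := J.mul_mem_left (algebraMap k X.A (c 0)⁻¹) hcJ
      rwa [← map_mul, inv_mul_cancel₀ hc0, map_one] at h3
  · rintro y ⟨m, hm, hm0, hym⟩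
    rw [hxmem, hym]
    right
    rw [ord_mono_of_isMonoDiv k hE]
    exact hu0 m hm hm0
  · intro u m₁ _ hu E' hE'
    constructor
    · intro y hy hy0
      obtain ⟨s, c, hs, hys⟩ := rep ⟨y, hy⟩
      simp only at hys
      rw [hys] at hy0 ⊢
      exact (MaxX.key hO k a b _ hu E' hE' s c hs).1 hy0
    · intro y
      obtain ⟨s, c, hs, hys⟩ := rep y
      rw [hxmem, hys]
      rw [(MaxX.key hO k a b _ hu0 E hE s c hs).2, (MaxX.key hO k a b _ hu E' hE' s c hs).2]

end MldPoly
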