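import Pool.Agent.Mld.Stmts

open scoped BigOperators

namespace MldPoly

namespace MemX

variable (k : Type) [Field k]

theorem closure_sub (a b : ℤ) :
    ((Submonoid.closure (mono k '' SS a b) : Submonoid (K3 k)) : Set (K3 k)) ⊆
      Submodule.span k (mono k '' SS a b) := by
  intro x hx
  have hx' : x ∈ Submonoid.closure (mono k '' SS a b) := hx
  clear hx
  have key : ∃ m ∈ SS a b, mono k m = x := by
    induction hx' using Submonoid.closure_induction with
    | mem x h => exact h
    | one => exact ⟨0, SS_zero a b, mono_zero k⟩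
    | mul x y _ _ hx hy =>
      obtain ⟨m, hm, rfl⟩ := hx
      obtain ⟨m', hm', rfl⟩ := hy
      exact ⟨m + m', SS_add hm hm', mono_add k m m'⟩
  exact Submodule.subset_span key

theorem mem_span {a b : ℤ} {f : K3 k} (hf : f ∈ AA k a b) :
    f ∈ Submodule.span k (mono k '' SS a b) := by
  unfold AA at hf
  rw [← Subalgebra.mem_toSubmodule, Algebra.adjoin_eq_span_of_subset _ (closure_sub k a b)] at hf
  exact hf

end MemX

theorem mem_proof : Stmt_Mem := by
  intro k _ a b f
  constructor
  · intro hf
    have h := MemX.mem_span k hf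
    rw [Finsupp.mem_span_image_iff_linearCombination] at h
    obtain ⟨l, hl, hs⟩ := h
    refine ⟨l.support, l, ?_, ?_⟩
    · intro m hm
      exact ⟨hl hm, Finsupp.mem_support_iff.1 hm⟩
    · rw [← hs, Finsupp.linearCombination_apply, Finsupp.sum]
  · rintro ⟨s, c, hs, rfl⟩
    exact Subalgebra.sum_mem _ fun m hm => Subalgebra.smul_mem _ (mono_mem_AA k (hs m hm).1) _

end MldPoly
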