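import Pool.Agent.Mld.Stmts

/-!
# The minimum over the lattice: lower bound
-/

namespace MldPoly

theorem min_proof : Stmt_Min := by
  intro a b ha hb u hu w hw0 hw1 hw
  have h0 := hu 0
  have h1 := hu 1
  have h2 := hu 2
  have e0 : dot u (xm a b 0) = u 0 := by simp [dot, xm, Fin.sum_univ_three]
  have e1 : dot u (xm a b 1) = u 0 * a + u 1 * (a * b - 1) := by
    simp [dot, xm, Fin.sum_univ_three]
  have e2 : dot u (xm a b 2) = u 0 * (a * b - 2 - a) + u 2 * (a * b - 1) := by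
    simp [dot, xm, Fin.sum_univ_three]
  rw [e0] at h0
  rw [e1] at h1
  rw [e2] at h2
  have hn : (0 : ℤ) < a * b - 1 := by nlinarith
  have hnR : (0 : ℝ) < (a : ℝ) * b - 1 := by exact_mod_cast hn
  -- the sum of the coordinates is n * s with s ≥ 1
  have hsum : u 0 + (u 0 * a + u 1 * (a * b - 1)) + (u 0 * (a * b - 2 - a) + u 2 * (a * b - 1)) =
      (a * b - 1) * (u 0 + u 1 + u 2) := by ring
  have hs : 1 ≤ u 0 + u 1 + u 2 := by
    by_contra hcon
    push Not at hcon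
    have : (a * b - 1) * (u 0 + u 1 + u 2) ≤ 0 := by nlinarith
    omega
  -- the first two coordinates dominate (1,a) or (b,1)
  have hdom : (1 ≤ u 0 ∧ a ≤ u 0 * a + u 1 * (a * b - 1)) ∨
      (b ≤ u 0 ∧ 1 ≤ u 0 * a + u 1 * (a * b - 1)) := by
    rcases le_or_gt b (u 0) with hb0 | hb0
    · exact Or.inr ⟨hb0, h1⟩
    · left
      refine ⟨h0, ?_⟩
      have hu1 : 0 ≤ u 1 := by
        by_contra hcon
        push Not at hcon
        have h3 : u 0 * a ≤ (b - 1) * a := by nlinarith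
        have h4 : u 1 * (a * b - 1) ≤ -(a * b - 1) := by nlinarith
        nlinarith
      nlinarith [mul_nonneg hu1 hn.le]
  rw [e0, e1, e2]
  set X : ℝ := ((u 0 : ℤ) : ℝ) with hX
  set Y : ℝ := ((u 0 * a + u 1 * (a * b - 1) : ℤ) : ℝ) with hY
  set Z : ℝ := ((u 0 * (a * b - 2 - a) + u 2 * (a * b - 1) : ℤ) : ℝ) with hZ
  have hsumR : X + Y + Z = ((a : ℝ) * b - 1) * ((u 0 + u 1 + u 2 : ℤ) : ℝ) := by
    rw [hX, hY, hZ]; exact_mod_cast hsum
  have hsR : (1 : ℝ) ≤ ((u 0 + u 1 + u 2 : ℤ) : ℝ) := by exact_mod_cast hs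
  have hXYZ : (a : ℝ) * b - 1 ≤ X + Y + Z := by rw [hsumR]; nlinarith
  have hmin : min ((a : ℝ) * w 0 + w 1) (w 0 + (b : ℝ) * w 1) ≤ w 1 * X + w 0 * Y := by
    rcases hdom with ⟨hx, hy⟩ | ⟨hx, hy⟩
    · refine (min_le_left _ _).trans ?_
      have hx' : (1 : ℝ) ≤ X := by rw [hX]; exact_mod_cast hx
      have hy' : (a : ℝ) ≤ Y := by rw [hY]; exact_mod_cast hy
      nlinarith
    · refine (min_le_right _ _).trans ?_
      have hx' : (b : ℝ) ≤ X := by rw [hX]; exact_mod_cast hx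
      have hy' : (1 : ℝ) ≤ Y := by rw [hY]; exact_mod_cast hy
      nlinarith
  unfold mldval
  rw [le_div_iff₀ hnR, add_mul, div_mul_cancel₀ _ hnR.ne']
  have hc : 0 ≤ 1 - w 0 - w 1 := by linarith
  nlinarith [mul_le_mul_of_nonneg_left hXYZ hc]

end MldPoly
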