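import Pool.Agent.Mld.Stmts

/-!
# The minimum over the lattice: it is attained
-/

namespace MldPoly

theorem minatt_proof : Stmt_MinAtt := by
  intro a b ha hb
  have hn : (0 : ℤ) < a * b - 1 := by nlinarith
  have hnR : (0 : ℝ) < (a : ℝ) * b - 1 := by exact_mod_cast hn
  refine ⟨?_, ?_⟩
  · rintro u (rfl | rfl)
    · refine ⟨⟨![1, 0, 0], by simp [dot, Fin.sum_univ_three]⟩, ?_⟩
      intro m hm hm0
      rw [mem_SS] at hm
      obtain ⟨h0, h1, h2⟩ := hm
      have e : dot ![1, 0, 0] m = m 0 := by simp [dot, Fin.sum_univ_three]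
      rw [e]
      have hc : 0 < a * b - 2 - a := by nlinarith
      by_contra hcon
      push Not at hcon
      have hm1 : m 1 = 0 := by nlinarith [mul_nonneg hc.le h2]
      have hm2 : m 2 = 0 := by
        rw [hm1] at h0
        nlinarith
      have hm3 : m 0 = 0 := by
        rw [hm1, hm2] at h0
        nlinarith
      exact hm0 (by funext i; fin_cases i <;> assumption)
    · refine ⟨⟨![0, -1, 0], by simp [dot, Fin.sum_univ_three]⟩, ?_⟩
      intro m hm hm0
      have hm' := hm
      rw [mem_SS] at hm
      obtain ⟨h0, h1, h2⟩ := hm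
      have e : dot ![b, -1, 2 - b] m = b * m 0 - m 1 + (2 - b) * m 2 := by
        simp [dot, Fin.sum_univ_three]; ring
      rw [e]
      have hc : 0 < a * b - 2 - b := by nlinarith
      have key : (a * b - 1) * (b * m 0 - m 1 + (2 - b) * m 2) =
          b * ((a * b - 1) * m 0 - (a * m 1 + (a * b - 2 - a) * m 2)) + m 1 +
            (a * b - 2 - b) * m 2 := by ring
      by_contra hcon
      push Not at hcon
      have hle : (a * b - 1) * (b * m 0 - m 1 + (2 - b) * m 2) ≤ 0 := by nlinarith
      rw [key] at hle
      have hd : 0 ≤ b * ((a * b - 1) * m 0 - (a * m 1 + (a * b - 2 - a) * m 2)) :=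
        mul_nonneg (by omega) (by omega)
      have hz : 0 ≤ (a * b - 2 - b) * m 2 := mul_nonneg hc.le h2
      have hm1 : m 1 = 0 := by omega
      have hm2 : m 2 = 0 := by
        have : (a * b - 2 - b) * m 2 = 0 := by omega
        rcases mul_eq_zero.1 this with h | h
        · omega
        · exact h
      have hm3 : m 0 = 0 := by
        have h3 : b * ((a * b - 1) * m 0 - (a * m 1 + (a * b - 2 - a) * m 2)) = 0 := by omega
        rcases mul_eq_zero.1 h3 with h | h
        · omega
        · rw [hm1, hm2] at h
          have h4 : (a * b - 1) * m 0 = 0 := by linarith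
          rcases mul_eq_zero.1 h4 with h5 | h5
          · omega
          · exact h5
      exact hm0 (by funext i; fin_cases i <;> assumption)
  · intro w
    rcases le_total ((a : ℝ) * w 0 + w 1) (w 0 + (b : ℝ) * w 1) with h | h
    · refine ⟨_, Or.inl rfl, ?_⟩
      have e0 : dot ![1, 0, 0] (xm a b 0) = 1 := by simp [dot, xm, Fin.sum_univ_three]
      have e1 : dot ![1, 0, 0] (xm a b 1) = a := by simp [dot, xm, Fin.sum_univ_three]
      have e2 : dot ![1, 0, 0] (xm a b 2) = a * b - 2 - a := by
        simp [dot, xm, Fin.sum_univ_three]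
      rw [e0, e1, e2]
      unfold mldval
      rw [min_eq_left h]
      push_cast
      rw [eq_div_iff hnR.ne', add_mul, div_mul_cancel₀ _ hnR.ne']
      ring
    · refine ⟨_, Or.inr rfl, ?_⟩
      have e0 : dot ![b, -1, 2 - b] (xm a b 0) = b := by simp [dot, xm, Fin.sum_univ_three]
      have e1 : dot ![b, -1, 2 - b] (xm a b 1) = 1 := by
        simp [dot, xm, Fin.sum_univ_three]; ring
      have e2 : dot ![b, -1, 2 - b] (xm a b 2) = a * b - 2 - b := by
        simp [dot, xm, Fin.sum_univ_three]; ring
      rw [e0, e1, e2]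
      unfold mldval
      rw [min_eq_right h]
      push_cast
      rw [eq_div_iff hnR.ne', add_mul, div_mul_cancel₀ _ hnR.ne']
      ring

end MldPoly
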