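import Pool.Agent.Mld.Stmts

/-! Module MonoDiv: monomial divisors exist. -/

open scoped BigOperators

namespace MldPoly

namespace MonoDivX

variable (k : Type) [Field k] (u : Fin 3 → ℤ)

/-- the weight of an exponent -/
def wt (s : Fin 3 →₀ ℕ) : ℤ := ∑ i, u i * (s i : ℤ)

/-- the homomorphism `t_i ↦ z^{u_i} t_i`. -/
noncomputable def psi : P3 k →+* HahnSeries ℤ (K3 k) :=
  MvPolynomial.eval₂Hom ((HahnSeries.C : K3 k →+* HahnSeries ℤ (K3 k)).comp
    (algebraMap k (K3 k))) fun i => HahnSeries.single (u i) (tt k i)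

theorem psi_monomial (s : Fin 3 →₀ ℕ) (c : k) :
    psi k u (MvPolynomial.monomial s c) =
      HahnSeries.single (wt u s) (algebraMap (P3 k) (K3 k) (MvPolynomial.monomial s c)) := by
  have h1 : (MvPolynomial.monomial s c : P3 k) = MvPolynomial.C c * MvPolynomial.monomial s 1 := by
    rw [MvPolynomial.C_mul_monomial, mul_one]
  have h2 : algebraMap (P3 k) (K3 k) (MvPolynomial.C c) = algebraMap k (K3 k) c := by
    rw [← MvPolynomial.algebraMap_eq, ← IsScalarTower.algebraMap_apply]
  unfold psi
  rw [MvPolynomial.eval₂Hom_monomial, Finsupp.prod_fintype _ _ (by simp), RingHom.comp_apply,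
    HahnSeries.C_apply]
  simp only [HahnSeries.single_pow]
  rw [Fin.prod_univ_three, HahnSeries.single_mul_single, HahnSeries.single_mul_single,
    HahnSeries.single_mul_single]
  have e1 : 0 + (s 0 • u 0 + s 1 • u 1 + s 2 • u 2) = wt u s := by
    simp [wt, Fin.sum_univ_three, mul_comm]
  have e2 : algebraMap k (K3 k) c * (tt k 0 ^ s 0 * tt k 1 ^ s 1 * tt k 2 ^ s 2) =
      algebraMap (P3 k) (K3 k) (MvPolynomial.monomial s c) := by
    rw [h1, map_mul, ← mono_nat, h2]
    unfold mono
    rw [Fin.prod_univ_three]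
    simp
  rw [e1, e2]

theorem coeff_psi (g : P3 k) (z : ℤ) :
    (psi k u g).coeff z = algebraMap (P3 k) (K3 k)
      (∑ s ∈ g.support.filter (fun s => wt u s = z), MvPolynomial.monomial s (g.coeff s)) := by
  conv_lhs => rw [g.as_sum]
  rw [map_sum, HahnSeries.coeff_sum, map_sum, Finset.sum_filter]
  refine Finset.sum_congr rfl ?_
  intro s _
  rw [psi_monomial, HahnSeries.coeff_single]
  by_cases h : wt u s = z
  · simp [h]
  · rw [if_neg h, if_neg (fun h' => h h'.symm)]

theorem coeff_psi_ne (g : P3 k) (s : Fin 3 →₀ ℕ) (hs : s ∈ g.support) :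
    (psi k u g).coeff (wt u s) ≠ 0 := by
  rw [coeff_psi]
  intro h
  rw [map_eq_zero_iff _ (IsFractionRing.injective (P3 k) (K3 k))] at h
  have h1 := congrArg (MvPolynomial.coeff s) h
  rw [MvPolynomial.coeff_sum, MvPolynomial.coeff_zero] at h1
  simp only [MvPolynomial.coeff_monomial] at h1
  rw [Finset.sum_ite_eq' ] at h1
  have h2 : s ∈ g.support.filter (fun s' => wt u s' = wt u s) := by simp [hs]
  rw [if_pos h2] at h1
  exact (MvPolynomial.mem_support_iff.1 hs) h1

theorem psi_injective : Function.Injective (psi k u) := by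
  rw [injective_iff_map_eq_zero]
  intro g hg
  by_contra hne
  obtain ⟨s, hs⟩ := MvPolynomial.support_nonempty.2 hne
  have := coeff_psi_ne k u g s hs
  rw [hg] at this
  exact this rfl

/-- extension to the field -/
noncomputable def Psi : K3 k →+* HahnSeries ℤ (K3 k) :=
  IsFractionRing.lift (A := P3 k) (g := psi k u) (psi_injective k u)

theorem Psi_algebraMap (g : P3 k) : Psi k u (algebraMap (P3 k) (K3 k) g) = psi k u g := by
  unfold Psi
  rw [IsFractionRing.lift_algebraMap]

theorem Psi_ne {f : K3 k} (hf : f ≠ 0) : Psi k u f ≠ 0 := (map_ne_zero (Psi k u)).2 hf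

/-- the order function -/
noncomputable def od (f : K3 k) : ℤ := (Psi k u f).order

theorem od_mul (f g : K3 k) (hf : f ≠ 0) (hg : g ≠ 0) : od k u (f * g) = od k u f + od k u g := by
  unfold od
  rw [map_mul, HahnSeries.order_mul (Psi_ne k u hf) (Psi_ne k u hg)]

theorem od_add (f g : K3 k) (h : f + g ≠ 0) :
    min (od k u f) (od k u g) ≤ od k u (f + g) := by
  unfold od
  rw [map_add]
  refine HahnSeries.min_order_le_order_add ?_
  rw [← map_add]
  exact Psi_ne k u h

theorem od_const (c : k) (_ : c ≠ 0) : od k u (algebraMap k (K3 k) c) = 0 := by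
  unfold od
  have h1 : algebraMap k (K3 k) c = algebraMap (P3 k) (K3 k) (MvPolynomial.C c) := by
    rw [← MvPolynomial.algebraMap_eq, ← IsScalarTower.algebraMap_apply]
  rw [h1, Psi_algebraMap]
  unfold psi
  rw [MvPolynomial.eval₂Hom_C, RingHom.comp_apply, HahnSeries.order_C]

theorem isLeast_od (g : P3 k) (hg : g ≠ 0) :
    IsLeast {z : ℤ | ∃ s ∈ g.support, z = ∑ i, u i * (s i : ℤ)}
      (od k u (algebraMap (P3 k) (K3 k) g)) := by
  unfold od
  rw [Psi_algebraMap]
  have hne : psi k u g ≠ 0 := fun h => hg ((injective_iff_map_eq_zero _).1 (psi_injective k u) g h)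
  constructor
  · have h1 : (psi k u g).coeff (psi k u g).order ≠ 0 := fun h =>
      hne (HahnSeries.coeff_order_eq_zero.1 h)
    rw [coeff_psi] at h1
    have h2 : (g.support.filter (fun s => wt u s = (psi k u g).order)).Nonempty := by
      by_contra h
      rw [Finset.not_nonempty_iff_eq_empty] at h
      rw [h] at h1
      simp at h1
    obtain ⟨s, hs⟩ := h2
    rw [Finset.mem_filter] at hs
    exact ⟨s, hs.1, hs.2.symm⟩
  · rintro z ⟨s, hs, rfl⟩
    exact HahnSeries.order_le_of_coeff_ne_zero (coeff_psi_ne k u g s hs)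

theorem od_mono (m : Fin 3 → ℤ) : od k u (mono k m) = dot u m := by
  have key : ∀ i, Psi k u (tt k i) = HahnSeries.single (u i) (tt k i) := by
    intro i
    unfold tt
    rw [Psi_algebraMap]
    unfold psi
    rw [MvPolynomial.eval₂Hom_X']
    rfl
  have hpow : ∀ (i : Fin 3) (z : ℤ), (Psi k u (tt k i) ^ z).order = z * u i := by
    intro i z
    have h0 : ∀ n : ℕ, (Psi k u (tt k i) ^ n).order = n * u i := by
      intro n
      rw [key, HahnSeries.single_pow, HahnSeries.order_single (pow_ne_zero _ (tt_ne k i))]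
      simp
    cases z with
    | ofNat n => simpa using h0 n
    | negSucc n =>
      have hne : Psi k u (tt k i) ^ (n + 1) ≠ 0 := pow_ne_zero _ (Psi_ne k u (tt_ne k i))
      have h1 := HahnSeries.order_mul hne (inv_ne_zero hne)
      rw [mul_inv_cancel₀ hne, HahnSeries.order_one, h0] at h1
      rw [zpow_negSucc, Int.negSucc_eq]
      push_cast at h1 ⊢
      linarith
  unfold od mono dot
  rw [map_prod, Fin.prod_univ_three, Fin.sum_univ_three]
  have hz : ∀ i, Psi k u (tt k i ^ m i) ≠ 0 := fun i => Psi_ne k u (zpow_ne_zero _ (tt_ne k i))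
  rw [HahnSeries.order_mul (mul_ne_zero (hz 0) (hz 1)) (hz 2), HahnSeries.order_mul (hz 0) (hz 1),
    map_zpow₀, map_zpow₀, map_zpow₀, hpow, hpow, hpow]
  ring

end MonoDivX

open MonoDivX

theorem monodiv_proof : Stmt_MonoDiv := by
  intro k _ u m₁ hm
  classical
  -- basis vectors
  let e : Fin 3 → Fin 3 → ℤ := fun i => Pi.single i 1
  let g : Fin 3 → Fin 3 → ℤ := fun i => e i - u i • m₁
  have hdot : ∀ i, dot u (g i) = 0 := by
    intro i
    show dot u (e i - u i • m₁) = 0
    rw [dot_sub, dot_smul, hm]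
    simp [dot, e, Pi.single_apply]
  have hdec : ∀ m : Fin 3 → ℤ, m = m 0 • g 0 + m 1 • g 1 + m 2 • g 2 + dot u m • m₁ := by
    intro m
    funext j
    simp only [g, e, dot, Fin.sum_univ_three, Pi.add_apply, Pi.smul_apply, Pi.sub_apply,
      smul_eq_mul, Pi.single_apply]
    fin_cases j <;> simp <;> ring
  let S : Finset (K3 k) := {mono k m₁} ∪ (Finset.univ.image fun i => mono k (g i)) ∪
    (Finset.univ.image fun i => mono k (-g i))
  have hS1 : mono k m₁ ∈ Algebra.adjoin k (S : Set (K3 k)) :=
    Algebra.subset_adjoin (by simp [S])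
  have hS2 : ∀ i, mono k (g i) ∈ Algebra.adjoin k (S : Set (K3 k)) := fun i =>
    Algebra.subset_adjoin (by simp [S])
  have hS3 : ∀ i, mono k (-g i) ∈ Algebra.adjoin k (S : Set (K3 k)) := fun i =>
    Algebra.subset_adjoin (by simp [S])
  have hS4 : ∀ (i : Fin 3) (z : ℤ), mono k (z • g i) ∈ Algebra.adjoin k (S : Set (K3 k)) := by
    intro i z
    cases z with
    | ofNat n =>
      have : (Int.ofNat n) • g i = n • g i := by simp
      rw [this, mono_nsmul]
      exact pow_mem (hS2 i) n
    | negSucc n =>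
      have : (Int.negSucc n) • g i = (n + 1) • (-g i) := by
        rw [negSucc_zsmul, smul_neg]
      rw [this, mono_nsmul]
      exact pow_mem (hS3 i) (n + 1)
  have hmem : ∀ m : Fin 3 → ℤ, 0 ≤ dot u m → mono k m ∈ Algebra.adjoin k (S : Set (K3 k)) := by
    intro m h
    rw [hdec m, mono_add, mono_add, mono_add]
    refine mul_mem (mul_mem (mul_mem (hS4 _ _) (hS4 _ _)) (hS4 _ _)) ?_
    obtain ⟨n, hn⟩ := Int.eq_ofNat_of_zero_le h
    have : dot u m • m₁ = n • m₁ := by rw [hn]; simp
    rw [this, mono_nsmul]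
    exact pow_mem hS1 n
  have hpoly : ∀ (q : P3 k) (z : ℤ), (∀ s ∈ q.support, z ≤ wt u s) →
      algebraMap (P3 k) (K3 k) q * mono k (-(z • m₁)) ∈ Algebra.adjoin k (S : Set (K3 k)) := by
    intro q z hq
    rw [q.as_sum, map_sum, Finset.sum_mul]
    refine sum_mem ?_
    intro s hs
    have h1 : (MvPolynomial.monomial s (q.coeff s) : P3 k) =
        q.coeff s • MvPolynomial.monomial s 1 := by
      rw [MvPolynomial.smul_monomial, smul_eq_mul, mul_one]
    rw [h1, ← algebraMap_smul (P3 k) (q.coeff s) (MvPolynomial.monomial s (1 : k)), smul_eq_mul,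
      map_mul, ← IsScalarTower.algebraMap_apply, ← mono_nat, mul_assoc, ← mono_add]
    refine mul_mem (Subalgebra.algebraMap_mem _ _) (hmem _ ?_)
    rw [dot_add, dot_neg, dot_smul, hm]
    have := hq s hs
    unfold wt at this
    unfold dot
    linarith
  refine ⟨{ ord := od k u
            ord_mul := od_mul k u
            ord_add := fun f g _ _ h => od_add k u f g h
            ord_const := od_const k u
            exists_uniformizer := ⟨mono k m₁, mono_ne k m₁, by rw [od_mono, hm]⟩
            exists_model := ⟨S, ?_, ?_⟩ }, isLeast_od k u⟩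
  · -- elements of the model have nonnegative order
    intro a ha
    have : a = 0 ∨ 0 ≤ od k u a := by
      induction ha using Algebra.adjoin_induction with
      | mem x hx =>
        right
        simp only [S, Finset.coe_union, Finset.coe_singleton, Finset.coe_image, Finset.coe_univ,
          Set.image_univ, Set.mem_union, Set.mem_singleton_iff, Set.mem_range] at hx
        rcases hx with (rfl | ⟨i, rfl⟩) | ⟨i, rfl⟩
        · rw [od_mono, hm]; norm_num
        · rw [od_mono, hdot]
        · rw [od_mono, dot_neg, hdot]; simp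
      | algebraMap r =>
        rcases eq_or_ne r 0 with rfl | hr
        · left; simp
        · right; rw [od_const k u r hr]
      | add x y _ _ hx hy =>
        rcases eq_or_ne x 0 with rfl | hx0
        · simpa using hy
        rcases eq_or_ne y 0 with rfl | hy0
        · simpa using hx
        rcases eq_or_ne (x + y) 0 with h | h
        · left; exact h
        right
        exact le_trans (le_min (hx.resolve_left hx0) (hy.resolve_left hy0)) (od_add k u x y h)
      | mul x y _ _ hx hy =>
        rcases eq_or_ne x 0 with rfl | hx0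
        · left; simp
        rcases eq_or_ne y 0 with rfl | hy0
        · left; simp
        right
        rw [od_mul k u x y hx0 hy0]
        exact add_nonneg (hx.resolve_left hx0) (hy.resolve_left hy0)
    intro h0
    exact this.resolve_left h0
  · intro f hf hf0
    obtain ⟨p, q, hq, rfl⟩ := IsFractionRing.div_surjective (A := P3 k) f
    have hq0 : q ≠ 0 := nonZeroDivisors.ne_zero hq
    have hqK : algebraMap (P3 k) (K3 k) q ≠ 0 :=
      (map_ne_zero_iff _ (IsFractionRing.injective (P3 k) (K3 k))).2 hq0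
    have hp0 : p ≠ 0 := by
      rintro rfl
      simp at hf
    have hpK : algebraMap (P3 k) (K3 k) p ≠ 0 :=
      (map_ne_zero_iff _ (IsFractionRing.injective (P3 k) (K3 k))).2 hp0
    obtain ⟨z, hz⟩ : ∃ z, z = od k u (algebraMap (P3 k) (K3 k) q) := ⟨_, rfl⟩
    have hqz : ∀ s ∈ q.support, z ≤ wt u s := by
      intro s hs
      rw [hz]
      exact (isLeast_od k u q hq0).2 ⟨s, hs, rfl⟩
    have hpz : ∀ s ∈ p.support, z ≤ wt u s := by
      intro s hs
      have h1 : od k u (algebraMap (P3 k) (K3 k) p) ≤ wt u s :=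
        (isLeast_od k u p hp0).2 ⟨s, hs, rfl⟩
      have h2 := od_mul k u (algebraMap (P3 k) (K3 k) p / algebraMap (P3 k) (K3 k) q)
        (algebraMap (P3 k) (K3 k) q) hf hqK
      rw [div_mul_cancel₀ _ hqK, ← hz] at h2
      linarith
    have hmne := mono_ne k (-(z • m₁))
    refine ⟨_, hpoly p z hpz, _, hpoly q z hqz, mul_ne_zero hqK hmne, ?_, ?_⟩
    · rw [od_mul k u _ _ hqK hmne, od_mono, dot_neg, dot_smul, hm, ← hz]
      ring
    · rw [mul_div_mul_right _ _ hmne]

end MldPoly
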