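import Pool.Agent.Mld.Stmts

open scoped BigOperators

namespace MldPoly

namespace NormalX

theorem mem_of_integral {k K : Type} [Field k] [Field K] [Algebra k K] (S A : Subalgebra k K)
    (hA : A ≤ S) (f : K) (hf : IsIntegral A f) (hinv : f⁻¹ ∈ S) (hf0 : f ≠ 0) : f ∈ S := by
  obtain ⟨P, hP, hroot⟩ := hf
  rw [Polynomial.eval₂_eq_sum_range] at hroot
  rcases h : P.natDegree with _ | m
  · rw [h] at hroot
    have h1 : P.coeff 0 = 1 := by rw [← h]; exact hP
    simp [h1] at hroot
  · rw [h, Finset.sum_range_succ] at hroot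
    have h1 : P.coeff (m + 1) = 1 := by rw [← h]; exact hP
    rw [h1, map_one, one_mul] at hroot
    have h2 : f = - ∑ i ∈ Finset.range (m + 1), (algebraMap A K (P.coeff i)) * (f⁻¹) ^ (m - i) := by
      have h3 : f ^ (m + 1) * (f⁻¹) ^ m = f := by
        rw [pow_succ, mul_right_comm, ← mul_pow, mul_inv_cancel₀ hf0, one_pow, one_mul]
      have h4 : f ^ (m + 1) = - ∑ i ∈ Finset.range (m + 1), (algebraMap A K (P.coeff i)) * f ^ i := by
        linear_combination hroot
      rw [h4, neg_mul, Finset.sum_mul] at h3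
      rw [← h3]
      congr 1
      refine Finset.sum_congr rfl fun i hi => ?_
      rw [h3]
      have hi' : i ≤ m := Nat.lt_succ_iff.1 (Finset.mem_range.1 hi)
      have h5 : (f⁻¹) ^ m = (f⁻¹) ^ i * (f⁻¹) ^ (m - i) := by
        rw [← pow_add]; congr 1; omega
      rw [h5, mul_assoc, ← mul_assoc (f ^ i), ← mul_pow, mul_inv_cancel₀ hf0, one_pow, one_mul]
    rw [h2]
    refine S.neg_mem (S.sum_mem fun i _ => S.mul_mem (hA (P.coeff i).2) (S.pow_mem hinv _))

theorem mem_ring_of_integral {k K : Type} [Field k] [Field K] [Algebra k K] (E : PrimeDiv k K)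
    (A : Subalgebra k K) (hA : A ≤ E.ring) (f : K) (hf : IsIntegral A f) : f ∈ E.ring := by
  rcases eq_or_ne f 0 with rfl | hf0
  · exact E.ring.zero_mem
  rcases le_or_gt 0 (E.ord f) with h | h
  · exact Or.inr h
  refine mem_of_integral E.ring A hA f hf ?_ hf0
  right
  rw [E.ord_inv f hf0]
  omega

variable (k : Type) [Field k]

theorem amap_smul (c : k) (x : P3 k) :
    algebraMap (P3 k) (K3 k) (c • x) = c • algebraMap (P3 k) (K3 k) x := by
  rw [Algebra.smul_def, map_mul, ← IsScalarTower.algebraMap_apply k (P3 k) (K3 k),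
    ← Algebra.smul_def]

/-- the exponent `(N,N,N)` -/
def dg (N : ℕ) : Fin 3 → ℤ := fun _ => (N : ℤ)

theorem mono_mem_range (m : Fin 3 → ℤ) (hm : ∀ i, 0 ≤ m i) :
    ∃ s : Fin 3 →₀ ℕ, (fun i => (s i : ℤ)) = m := by
  refine ⟨Finsupp.equivFunOnFinite.symm fun i => (m i).toNat, ?_⟩
  funext i
  simp only [Finsupp.equivFunOnFinite_symm_apply_apply]
  have := hm i
  omega

theorem clear (hMem : Stmt_Mem) (a b : ℤ) (x : K3 k) (hx : x ∈ AA k a b) :
    ∃ N : ℕ, ∀ M, N ≤ M → ∃ g : P3 k, algebraMap (P3 k) (K3 k) g = mono k (dg M) * x := by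
  obtain ⟨s, c, -, rfl⟩ := (hMem k a b x).1 hx
  refine ⟨s.sup (fun m => Finset.univ.sup fun i => (-m i).toNat), ?_⟩
  intro M hM
  have h1 : ∀ m ∈ s, ∃ t : Fin 3 →₀ ℕ, (fun i => (t i : ℤ)) = dg M + m := by
    intro m hm
    apply mono_mem_range
    intro i
    have h2 : (-m i).toNat ≤ Finset.univ.sup fun i => (-m i).toNat :=
      Finset.le_sup (f := fun i => (-m i).toNat) (Finset.mem_univ i)
    have h3 : (Finset.univ.sup fun i => (-m i).toNat) ≤
        s.sup (fun m => Finset.univ.sup fun i => (-m i).toNat) :=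
      Finset.le_sup (f := fun m : Fin 3 → ℤ => Finset.univ.sup fun i => (-m i).toNat) hm
    simp only [dg, Pi.add_apply]
    omega
  choose! t ht using h1
  refine ⟨∑ m ∈ s, MvPolynomial.monomial (t m) (c m), ?_⟩
  rw [map_sum, Finset.mul_sum]
  refine Finset.sum_congr rfl fun m hm => ?_
  have h4 : MvPolynomial.monomial (t m) (c m) = c m • (MvPolynomial.monomial (t m) (1 : k)) := by
    rw [MvPolynomial.smul_monomial, smul_eq_mul, mul_one]
  rw [h4, amap_smul, ← mono_nat, ht m hm, mono_add, mul_smul_comm]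

theorem exists_m1 (a b : ℤ) (ρ : Fin 3) : ∃ m₁, dot (ray a b ρ) m₁ = 1 := by
  fin_cases ρ
  · exact ⟨![-1, -b, 0], by simp [dot, ray, Fin.sum_univ_three]⟩
  · exact ⟨![0, 1, 0], by simp [dot, ray, Fin.sum_univ_three]⟩
  · exact ⟨![0, 0, 1], by simp [dot, ray, Fin.sum_univ_three]⟩

/-- an element which is integral over `AA` is a Laurent polynomial -/
theorem laurent (hMem : Stmt_Mem) (a b : ℤ) (f : K3 k) (hf : IsIntegral (AA k a b) f) :
    ∃ (M : ℕ) (g : P3 k), algebraMap (P3 k) (K3 k) g = mono k (dg M) * f := by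
  classical
  obtain ⟨P, hP, hroot⟩ := hf
  have h1 : ∀ i : ℕ, ∃ N : ℕ, ∀ M, N ≤ M → ∃ g : P3 k,
      algebraMap (P3 k) (K3 k) g = mono k (dg M) * (P.coeff i : K3 k) :=
    fun i => clear k hMem a b _ (P.coeff i).2
  choose N hN using h1
  set M : ℕ := (Finset.range (P.natDegree + 1)).sup N with hM
  refine ⟨M, ?_⟩
  set T : K3 k := mono k (dg M) with hT
  have hTr : ∃ t : P3 k, algebraMap (P3 k) (K3 k) t = T := by
    refine ⟨MvPolynomial.monomial (Finsupp.equivFunOnFinite.symm fun _ => M) 1, ?_⟩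
    rw [← mono_nat, hT]
    rfl
  have hint : IsIntegral (P3 k) (T * f) := by
    set P' : Polynomial (K3 k) := P.map (algebraMap (AA k a b) (K3 k)) with hP'
    have hPm : P'.Monic := hP.map _
    have hdeg : P'.natDegree = P.natDegree := hP.natDegree_map _
    have hr' : P'.eval f = 0 := by
      rw [hP', Polynomial.eval_map]; exact hroot
    have hlift : P'.scaleRoots T ∈ Polynomial.lifts (algebraMap (P3 k) (K3 k)) := by
      rw [Polynomial.lifts_iff_coeff_lifts]
      intro i
      rw [Polynomial.coeff_scaleRoots, hdeg]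
      rcases lt_trichotomy i P.natDegree with hi | hi | hi
      · obtain ⟨g, hg⟩ := hN i M (Finset.le_sup (Finset.mem_range.2 (by omega)))
        obtain ⟨t, ht⟩ := hTr
        refine ⟨g * t ^ (P.natDegree - i - 1), ?_⟩
        rw [map_mul, map_pow, hg, ht, ← hT, hP', Polynomial.coeff_map]
        have h2 : T ^ (P.natDegree - i) = T * T ^ (P.natDegree - i - 1) := by
          rw [← pow_succ']; congr 1; omega
        rw [h2]
        show T * (P.coeff i : K3 k) * _ = (P.coeff i : K3 k) * _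
        ring
      · refine ⟨1, ?_⟩
        have h2 : P'.coeff i = 1 := by rw [hi, ← hdeg]; exact hPm
        rw [h2, hi]; simp
      · refine ⟨0, ?_⟩
        have h2 : P'.coeff i = 0 := Polynomial.coeff_eq_zero_of_natDegree_lt (by rw [hdeg]; exact hi)
        rw [h2]; simp
    have hsm : (P'.scaleRoots T).Monic := by
      rw [Polynomial.Monic, ← Polynomial.natDegree_scaleRoots P' T] at *
      rw [Polynomial.leadingCoeff_scaleRoots]
      exact hPm
    obtain ⟨Q, hQ, -, hQm⟩ := Polynomial.lifts_and_natDegree_eq_and_monic hlift hsm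
    refine ⟨Q, hQm, ?_⟩
    rw [← Polynomial.eval_map, hQ]
    exact Polynomial.scaleRoots_eval₂_eq_zero (RingHom.id _) hr'
  obtain ⟨g, hg⟩ := (IsIntegrallyClosed.isIntegral_iff (R := P3 k) (K := K3 k)).1 hint
  exact ⟨g, hg⟩

end NormalX

open NormalX in
theorem normal_proof (hMono : Stmt_MonoDiv) (hOrd : Stmt_OrdSum) (hMem : Stmt_Mem) :
    Stmt_Normal := by
  classical
  intro k _ a b ha hb f hf
  obtain ⟨M, g, hg⟩ := laurent k hMem a b f hf
  -- write f as a Laurent polynomial
  have hfr : f = ∑ m ∈ g.support.image (fun s : Fin 3 →₀ ℕ => (fun i => (s i : ℤ)) - dg M),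
      (g.coeff (Finsupp.equivFunOnFinite.symm fun i => (m i + M).toNat)) • mono k m := by
    have hinj : ∀ s : Fin 3 →₀ ℕ, (Finsupp.equivFunOnFinite.symm fun i =>
        (((fun i => (s i : ℤ)) - dg M) i + (M : ℤ)).toNat) = s := by
      intro s
      ext i
      simp [dg]
    rw [Finset.sum_image]
    · have h1 : f = mono k (-dg M) * algebraMap (P3 k) (K3 k) g := by
        rw [hg, ← mul_assoc, ← mono_add, neg_add_cancel, mono_zero, one_mul]
      conv_lhs => rw [h1, g.as_sum]
      rw [map_sum, Finset.mul_sum]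
      refine Finset.sum_congr rfl fun s _ => ?_
      rw [hinj s]
      have h4 : MvPolynomial.monomial s (g.coeff s) =
          g.coeff s • (MvPolynomial.monomial s (1 : k)) := by
        rw [MvPolynomial.smul_monomial, smul_eq_mul, mul_one]
      rw [h4, amap_smul, ← mono_nat, mul_smul_comm, ← mono_add,
        neg_add_eq_sub]
    · intro s _ s' _ hss
      rw [← hinj s, ← hinj s']
      simp only at hss
      rw [hss]
  set S := g.support.image (fun s : Fin 3 →₀ ℕ => (fun i => (s i : ℤ)) - dg M) with hS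
  set c : (Fin 3 → ℤ) → k := fun m =>
    g.coeff (Finsupp.equivFunOnFinite.symm fun i => (m i + M).toNat) with hc
  have hcne : ∀ m ∈ S, c m ≠ 0 := by
    intro m hm
    rw [hS, Finset.mem_image] at hm
    obtain ⟨s, hs, rfl⟩ := hm
    have : (Finsupp.equivFunOnFinite.symm fun i =>
        (((fun i => (s i : ℤ)) - dg M) i + (M : ℤ)).toNat) = s := by
      ext i
      simp [dg]
    rw [hc]
    simp only
    rw [this]
    exact MvPolynomial.mem_support_iff.1 hs
  rcases S.eq_empty_or_nonempty with hSe | hSn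
  · rw [hfr, hSe, Finset.sum_empty]; exact (AA k a b).zero_mem
  refine (hMem k a b f).2 ⟨S, c, fun m hm => ⟨?_, hcne m hm⟩, hfr⟩
  intro ρ
  obtain ⟨m₁, hm₁⟩ := exists_m1 a b ρ
  obtain ⟨E, hE⟩ := hMono k (ray a b ρ) m₁ hm₁
  have hAE : AA k a b ≤ E.ring := by
    refine Algebra.adjoin_le ?_
    rintro _ ⟨m, hm, rfl⟩
    right
    rw [ord_mono_of_isMonoDiv k hE]
    exact hm ρ
  have hfE := mem_ring_of_integral E (AA k a b) hAE f hf
  obtain ⟨h0, h1⟩ := hOrd k (ray a b ρ) E hE S c hcne hSn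
  rw [← hfr] at h0 h1
  have h2 := hfE.resolve_left h0
  exact le_trans h2 (h1.2 ⟨m, hm, rfl⟩)

end MldPoly
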