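import Pool.Agent.Mld.Stmts

open scoped BigOperators

namespace MldPoly

namespace PDX

variable {A : Type} [CommRing A] [IsDomain A]

/-- contraction of `a A_p` -/
def cI (p : Ideal A) (hp : p.IsPrime) (a : A) : Ideal A where
  carrier := {c | ∃ e z : A, e ∉ p ∧ c * e = a * z}
  zero_mem' := ⟨1, 0, fun h => hp.ne_top ((Ideal.eq_top_iff_one p).2 h), by simp⟩
  add_mem' := by
    rintro c c' ⟨e, z, he, h⟩ ⟨e', z', he', h'⟩
    refine ⟨e * e', z * e' + z' * e, fun h => (hp.mem_or_mem h).elim he he', ?_⟩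
    linear_combination e' * h + e * h'
  smul_mem' := by
    rintro r c ⟨e, z, he, h⟩
    refine ⟨e, r * z, he, ?_⟩
    rw [smul_eq_mul]
    linear_combination r * h

theorem exists_rep [IsNoetherianRing A] (p : Ideal A) (hp : p.IsPrime) (b : A) (hb : b ∈ p)
    (h : ∀ y ∈ p, ∃ c e : A, e ∉ p ∧ y * e = b * c) :
    ∀ a : A, a ≠ 0 → ∃ (n : ℕ) (x y : A), x ∉ p ∧ y ∉ p ∧ a * y = b ^ n * x := by
  have key : ∀ I : Ideal A, ∀ a : A, cI p hp a = I → a ≠ 0 →
      ∃ (n : ℕ) (x y : A), x ∉ p ∧ y ∉ p ∧ a * y = b ^ n * x := by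
    intro I
    induction I using WellFoundedGT.induction with
    | ind I ih =>
      intro a haI ha
      by_cases hap : a ∈ p
      · obtain ⟨c, e, he, hec⟩ := h a hap
        have hc : c ≠ 0 := by
          rintro rfl
          rw [mul_zero] at hec
          rcases mul_eq_zero.1 hec with h1 | h1
          · exact ha h1
          · exact he (h1 ▸ p.zero_mem)
        have hlt : I < cI p hp c := by
          rw [← haI]
          refine lt_of_le_of_ne ?_ ?_
          · rintro d ⟨e', z, he', hz⟩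
            refine ⟨e' * e, b * z, fun h => (hp.mem_or_mem h).elim he' he, ?_⟩
            linear_combination e * hz + z * hec
          · intro heq
            have h1 : c ∈ cI p hp c :=
              ⟨1, 1, fun h => hp.ne_top ((Ideal.eq_top_iff_one p).2 h), rfl⟩
            rw [← heq] at h1
            obtain ⟨e', z, he', hz⟩ := h1
            have h2 : c * (e' * e) = c * (b * z) := by
              linear_combination e * hz + z * hec
            have h3 := mul_left_cancel₀ hc h2
            have h4 : e' * e ∈ p := by rw [h3]; exact p.mul_mem_right _ hb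
            exact (hp.mem_or_mem h4).elim he' he
        obtain ⟨n, x, y, hx, hy, hxy⟩ := ih _ hlt c rfl hc
        refine ⟨n + 1, x, e * y, hx, fun h => (hp.mem_or_mem h).elim he hy, ?_⟩
        rw [pow_succ]
        linear_combination y * hec + b * hxy
      · exact ⟨0, a, 1, hap, fun h => hp.ne_top ((Ideal.eq_top_iff_one p).2 h), by simp⟩
  exact fun a ha => key _ a rfl ha

end PDX

theorem pd_proof : Stmt_PD := by
  classical
  intro k K _ _ _ d X p hp b hb hb0 h
  haveI : IsNoetherianRing X.A := by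
    haveI : Algebra.FiniteType k X.A := by
      exact (Subalgebra.fg_iff_finiteType X.A).1 X.fg
    exact Algebra.FiniteType.isNoetherianRing k X.A
  have h1p : (1 : X.A) ∉ p := fun h => hp.ne_top ((Ideal.eq_top_iff_one p).2 h)
  have hbK : (b : K) ≠ 0 := fun h => hb0 (Subtype.ext h)
  have hne : ∀ x : X.A, x ∉ p → (x : K) ≠ 0 := fun x hx h0 =>
    hx ((Subtype.ext h0 : x = 0) ▸ p.zero_mem)
  -- representation
  let Rep : K → ℤ → Prop := fun f n => ∃ x y : X.A, x ∉ p ∧ y ∉ p ∧ f * (y : K) = (b : K) ^ n * (x : K)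
  have hrepA : ∀ a : X.A, a ≠ 0 → ∃ n : ℕ, Rep (a : K) n := by
    intro a ha
    obtain ⟨n, x, y, hx, hy, hxy⟩ := PDX.exists_rep p hp b hb h a ha
    refine ⟨n, x, y, hx, hy, ?_⟩
    have := congrArg (Subtype.val : X.A → K) hxy
    push_cast at this
    rw [zpow_natCast]
    exact this
  have hrep : ∀ f : K, f ≠ 0 → ∃ n : ℤ, Rep f n := by
    intro f hf
    obtain ⟨a, ha, c, hc, hc0, rfl⟩ := X.fraction f
    have ha0 : a ≠ 0 := by rintro rfl; simp at hf
    obtain ⟨n, x, y, hx, hy, hxy⟩ := hrepA ⟨a, ha⟩ (fun h => ha0 (congrArg Subtype.val h))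
    obtain ⟨m, x', y', hx', hy', hxy'⟩ := hrepA ⟨c, hc⟩ (fun h => hc0 (congrArg Subtype.val h))
    refine ⟨(n : ℤ) - m, x * y', x' * y, fun h => (hp.mem_or_mem h).elim hx hy',
      fun h => (hp.mem_or_mem h).elim hx' hy, ?_⟩
    simp only at hxy hxy'
    push_cast
    rw [zpow_sub₀ hbK]
    have h3 : (b : K) ^ (m : ℤ) ≠ 0 := zpow_ne_zero _ hbK
    rw [div_mul_eq_mul_div, div_mul_eq_mul_div, div_eq_div_iff hc0 h3]
    linear_combination (x' : K) * (b : K) ^ (m : ℤ) * hxy - (b : K) ^ (n : ℤ) * (x : K) * hxy'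
  have huniq0 : ∀ (f : K) (m n : ℤ), m < n → Rep f m → Rep f n → False := by
    rintro f m n hmn ⟨x, y, hx, hy, hxy⟩ ⟨x', y', hx', hy', hxy'⟩
    obtain ⟨j, hj⟩ : ∃ j : ℕ, n = m + (j + 1) := ⟨(n - m - 1).toNat, by omega⟩
    have h3 : (b : K) ^ m ≠ 0 := zpow_ne_zero _ hbK
    have h4 : (b : K) ^ m * ((x : K) * y') = (b : K) ^ m * ((b : K) ^ (j + 1) * x' * y) := by
      have e1 : (b : K) ^ n = (b : K) ^ m * (b : K) ^ (j + 1) := by
        rw [hj, zpow_add₀ hbK]; norm_cast
      rw [e1] at hxy'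
      linear_combination (y : K) * hxy' - (y' : K) * hxy
    have h5 := mul_left_cancel₀ h3 h4
    have h6 : x * y' = b ^ (j + 1) * x' * y := Subtype.ext (by push_cast; exact h5)
    have h7 : x * y' ∈ p := by
      rw [h6, pow_succ]
      exact p.mul_mem_right _ (p.mul_mem_right _ (p.mul_mem_left _ hb))
    exact (hp.mem_or_mem h7).elim hx hy'
  have huniq : ∀ (f : K) (m n : ℤ), Rep f m → Rep f n → m = n := by
    intro f m n hm hn
    rcases lt_trichotomy m n with h1 | h1 | h1
    · exact (huniq0 f m n h1 hm hn).elim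
    · exact h1
    · exact (huniq0 f n m h1 hn hm).elim
  let ord : K → ℤ := fun f => if hf : f ≠ 0 then (hrep f hf).choose else 0
  have hord : ∀ f : K, f ≠ 0 → Rep f (ord f) := by
    intro f hf
    show Rep f (if hf : f ≠ 0 then (hrep f hf).choose else 0)
    rw [dif_pos hf]
    exact (hrep f hf).choose_spec
  have hord' : ∀ (f : K) (n : ℤ), f ≠ 0 → Rep f n → ord f = n := fun f n hf hn =>
    huniq f _ _ (hord f hf) hn
  have hordA : ∀ a : X.A, a ≠ 0 → 0 ≤ ord (a : K) := by
    intro a ha
    obtain ⟨n, hn⟩ := hrepA a ha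
    rw [hord' _ _ (fun h => ha (Subtype.ext h)) hn]
    exact Int.natCast_nonneg n
  have hord0 : ∀ a : X.A, a ∉ p → ord (a : K) = 0 := fun a ha =>
    hord' _ _ (hne a ha) ⟨a, 1, ha, h1p, by push_cast; simp⟩
  have hordb : ord (b : K) = 1 := hord' _ _ hbK ⟨1, 1, h1p, h1p, by push_cast; simp⟩
  have hmul : ∀ f g : K, f ≠ 0 → g ≠ 0 → ord (f * g) = ord f + ord g := by
    intro f g hf hg
    obtain ⟨x, y, hx, hy, hxy⟩ := hord f hf
    obtain ⟨x', y', hx', hy', hxy'⟩ := hord g hg
    refine hord' _ _ (mul_ne_zero hf hg) ⟨x * x', y * y', fun h => (hp.mem_or_mem h).elim hx hx',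
      fun h => (hp.mem_or_mem h).elim hy hy', ?_⟩
    push_cast
    rw [zpow_add₀ hbK]
    linear_combination (g * (y' : K)) * hxy + ((b : K) ^ ord f * (x : K)) * hxy'
  have hadd0 : ∀ f g : K, f ≠ 0 → g ≠ 0 → f + g ≠ 0 → ord f ≤ ord g → ord f ≤ ord (f + g) := by
    intro f g hf hg hfg hle
    obtain ⟨x, y, hx, hy, hxy⟩ := hord f hf
    obtain ⟨x', y', hx', hy', hxy'⟩ := hord g hg
    obtain ⟨j, hj⟩ : ∃ j : ℕ, ord g = ord f + j := ⟨(ord g - ord f).toNat, by omega⟩
    rw [hj, zpow_add₀ hbK, zpow_natCast] at hxy'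
    set a : X.A := x * y' + b ^ j * x' * y with ha
    have h1 : (f + g) * ((y : K) * y') = (b : K) ^ ord f * (a : K) := by
      rw [ha]; push_cast
      linear_combination (y' : K) * hxy + (y : K) * hxy'
    have ha0 : a ≠ 0 := by
      intro h0
      rw [h0] at h1
      push_cast at h1
      rw [mul_zero] at h1
      exact (mul_ne_zero hfg (mul_ne_zero (hne y hy) (hne y' hy'))) h1
    have haK : (a : K) ≠ 0 := fun h => ha0 (Subtype.ext h)
    have h2 : ord ((f + g) * ((y : K) * y')) = ord f * 1 + ord (a : K) := by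
      rw [h1, hmul _ _ (zpow_ne_zero _ hbK) haK]
      congr 1
      refine hord' _ _ (zpow_ne_zero _ hbK) ⟨1, 1, h1p, h1p, ?_⟩
      push_cast; simp
    rw [hmul _ _ hfg (mul_ne_zero (hne y hy) (hne y' hy')), hmul _ _ (hne y hy) (hne y' hy'),
      hord0 y hy, hord0 y' hy'] at h2
    have h3 := hordA a ha0
    omega
  let F : PrimeDiv k K :=
    { ord := ord
      ord_mul := hmul
      ord_add := by
        intro f g hf hg hfg
        rcases le_total (ord f) (ord g) with h1 | h1
        · rw [min_eq_left h1]; exact hadd0 f g hf hg hfg h1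
        · rw [min_eq_right h1, add_comm f g]
          exact hadd0 g f hg hf (by rwa [add_comm]) h1
      ord_const := by
        intro c hc
        have h1 : algebraMap k X.A c ∉ p := by
          intro h1
          have h2 : algebraMap k X.A c⁻¹ * algebraMap k X.A c ∈ p := p.mul_mem_left _ h1
          rw [← map_mul, inv_mul_cancel₀ hc, map_one] at h2
          exact h1p h2
        exact hord0 _ h1
      exists_uniformizer := ⟨b, hbK, hordb⟩
      exists_model := by
        obtain ⟨s, hs⟩ := X.fg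
        refine ⟨s, ?_, ?_⟩
        · intro a ha ha0
          rw [hs] at ha
          exact hordA ⟨a, ha⟩ (fun h => ha0 (congrArg Subtype.val h))
        · intro f hf h0
          obtain ⟨x, y, hx, hy, hxy⟩ := hord f hf
          obtain ⟨n, hn⟩ := Int.eq_ofNat_of_zero_le h0
          rw [hn, zpow_natCast] at hxy
          refine ⟨(b ^ n * x : X.A), by rw [hs]; exact (b ^ n * x : X.A).2, y, by rw [hs]; exact y.2,
            hne y hy, hord0 y hy, ?_⟩
          rw [eq_div_iff (hne y hy)]
          push_cast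
          exact hxy }
  refine ⟨F, ⟨fun a ha ha0 => hordA ⟨a, ha⟩ (fun h => ha0 (congrArg Subtype.val h)), ?_⟩, hordb⟩
  intro a
  constructor
  · intro ha
    by_cases ha0 : a = 0
    · left; rw [ha0]; rfl
    right
    obtain ⟨c, e, he, hec⟩ := h a ha
    have haK : (a : K) ≠ 0 := fun h => ha0 (Subtype.ext h)
    have hc0 : c ≠ 0 := by
      rintro rfl
      rw [mul_zero] at hec
      rcases mul_eq_zero.1 hec with h1 | h1
      · exact ha0 h1
      · exact he (h1 ▸ p.zero_mem)
    have hcK : (c : K) ≠ 0 := fun h => hc0 (Subtype.ext h)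
    have h1 : (a : K) * e = b * c := by
      have := congrArg (Subtype.val : X.A → K) hec
      push_cast at this
      exact this
    have h2 := hmul (a : K) e haK (hne e he)
    rw [h1, hmul _ _ hbK hcK, hordb, hord0 e he] at h2
    have h3 := hordA c hc0
    show 0 < ord (a : K)
    omega
  · rintro (ha | ha)
    · rw [(Subtype.ext ha : a = 0)]; exact p.zero_mem
    · by_contra hap
      have h1 : ord (a : K) = 0 := hord0 a hap
      have h2 : 0 < ord (a : K) := ha
      omega

end MldPoly
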