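import Pool.Agent.Mld.Theta

/-!
# The logarithmic form along a monomial divisor
-/

open scoped BigOperators

namespace MldPoly
namespace TorX

open ThetaX

variable {k : Type} [Field k]

/-- the leading term argument for polynomials -/
theorem theta_poly_ge {u : Fin 3 → ℤ} {E : PrimeDiv k (K3 k)} (hE : IsMonoDiv k u E)
    {θ : Fin 3 → Derivation k (K3 k) (K3 k)}
    (hθ : ∀ i (m : Fin 3 → ℤ), θ i (mono k m) = (m i : K3 k) * mono k m) (g : P3 k) (hg : g ≠ 0) :
    (∀ i, ge E (E.ord (algebraMap (P3 k) (K3 k) g)) (θ i (algebraMap (P3 k) (K3 k) g))) ∧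
    ge E (E.ord (algebraMap (P3 k) (K3 k) g) + 1)
      (∑ i, (u i : K3 k) * θ i (algebraMap (P3 k) (K3 k) g) -
        ((E.ord (algebraMap (P3 k) (K3 k) g) : ℤ) : K3 k) * algebraMap (P3 k) (K3 k) g) := by
  have hle : ∀ s ∈ g.support, E.ord (algebraMap (P3 k) (K3 k) g) ≤ dot u (fun i => (s i : ℤ)) :=
    fun s hs => (hE g hg).2 ⟨s, hs, rfl⟩
  generalize E.ord (algebraMap (P3 k) (K3 k) g) = w at hle
  have hm : ∀ s ∈ g.support, ge E w (mono k (fun i => (s i : ℤ))) := by
    intro s hs
    right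
    rw [ord_mono_of_isMonoDiv k hE]
    exact hle s hs
  constructor
  · intro i
    rw [theta_poly hθ]
    refine ge_sum _ _ fun s hs => ?_
    rw [int_smul_eq]
    exact ((hm s hs).smul _).smul _
  · have h1 : (∑ i, (u i : K3 k) * θ i (algebraMap (P3 k) (K3 k) g) -
        ((w : ℤ) : K3 k) * algebraMap (P3 k) (K3 k) g) =
        ∑ s ∈ g.support, g.coeff s • (((dot u (fun i => (s i : ℤ)) - w : ℤ) : K3 k) *
          mono k (fun i => (s i : ℤ))) := by
      simp only [theta_poly hθ]
      rw [algebraMap_eq_sum]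
      simp only [Finset.mul_sum]
      rw [Finset.sum_comm, ← Finset.sum_sub_distrib]
      refine Finset.sum_congr rfl fun s _ => ?_
      unfold dot
      simp only [Algebra.smul_def]
      push_cast
      rw [sub_mul, mul_sub, Finset.sum_mul, Finset.mul_sum]
      congr 1
      · exact Finset.sum_congr rfl fun i _ => by ring
      · ring
    rw [h1]
    refine ge_sum _ _ fun s hs => ?_
    refine ge.smul _ ?_
    rcases eq_or_lt_of_le (hle s hs) with h | h
    · left; rw [← h]; simp
    · rw [int_smul_eq]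
      refine ge.smul _ ?_
      right
      rw [ord_mono_of_isMonoDiv k hE]
      omega

/-- the leading term argument for all functions of nonnegative order -/
theorem theta_ge {u : Fin 3 → ℤ} {E : PrimeDiv k (K3 k)} (hE : IsMonoDiv k u E)
    {θ : Fin 3 → Derivation k (K3 k) (K3 k)}
    (hθ : ∀ i (m : Fin 3 → ℤ), θ i (mono k m) = (m i : K3 k) * mono k m) (f : K3 k)
    (hf : ge E 0 f) :
    (∀ i, ge E 0 (θ i f)) ∧ ge E 1 (∑ i, (u i : K3 k) * θ i f) := by
  rcases eq_or_ne f 0 with rfl | hf0
  · simp only [map_zero, mul_zero, Finset.sum_const_zero]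
    exact ⟨fun _ => ge_zero _, ge_zero _⟩
  obtain ⟨g, h, hh, rfl⟩ := IsFractionRing.div_surjective (A := P3 k) f
  have hh0 : h ≠ 0 := nonZeroDivisors.ne_zero hh
  have hh1 : algebraMap (P3 k) (K3 k) h ≠ 0 :=
    (map_ne_zero_iff _ (IsFractionRing.injective (P3 k) (K3 k))).2 hh0
  have hg1 : algebraMap (P3 k) (K3 k) g ≠ 0 := fun h' => hf0 (by rw [h', zero_div])
  have hg0 : g ≠ 0 := fun h' => hg1 (by rw [h', map_zero])
  obtain ⟨hg2, hg3⟩ := theta_poly_ge hE hθ g hg0
  obtain ⟨hh2, hh3⟩ := theta_poly_ge hE hθ h hh0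
  generalize algebraMap (P3 k) (K3 k) g = G at *
  generalize algebraMap (P3 k) (K3 k) h = H at *
  have hord := hf.resolve_left hf0
  rw [E.ord_div G H hg1 hh1] at hord
  have hH2 : E.ord (H ^ 2) = 2 * E.ord H := by rw [E.ord_pow H hh1]; norm_num
  constructor
  · intro i
    have e1 : θ i (G / H) = (H * θ i G - G * θ i H) / H ^ 2 := by
      rw [Derivation.leibniz_div]
      simp only [smul_eq_mul]
      rw [inv_pow, mul_comm, div_eq_mul_inv]
    rw [e1]
    have e2 : ge E (E.ord H + E.ord G) (H * θ i G - G * θ i H) := by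
      refine ((ge_ord H).mul (hg2 i)).sub ?_
      rw [add_comm]
      exact (ge_ord G).mul (hh2 i)
    refine (e2.div (pow_ne_zero 2 hh1)).le ?_
    rw [hH2]; omega
  · have e1 : ∑ i, (u i : K3 k) * θ i (G / H) =
        (H * (∑ i, (u i : K3 k) * θ i G - ((E.ord G : ℤ) : K3 k) * G) -
          G * (∑ i, (u i : K3 k) * θ i H - ((E.ord H : ℤ) : K3 k) * H)) / H ^ 2 +
        ((E.ord G - E.ord H : ℤ) : K3 k) * (G / H) := by
      simp only [Derivation.leibniz_div, smul_eq_mul, Fin.sum_univ_three]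
      push_cast
      field_simp
      ring
    rw [e1]
    refine ge.add ?_ ?_
    · have e2 : ge E (E.ord H + (E.ord G + 1))
          (H * (∑ i, (u i : K3 k) * θ i G - ((E.ord G : ℤ) : K3 k) * G) -
          G * (∑ i, (u i : K3 k) * θ i H - ((E.ord H : ℤ) : K3 k) * H)) := by
        refine ((ge_ord H).mul hg3).sub ?_
        have := (ge_ord G).mul hh3
        refine this.le (le_of_eq ?_)
        ring
      refine (e2.div (pow_ne_zero 2 hh1)).le ?_
      rw [hH2]; omega
    · rcases eq_or_lt_of_le hord with h | h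
      · left; rw [← h]; simp
      · rw [int_smul_eq]
        refine ge.smul _ ?_
        right
        rw [E.ord_div G H hg1 hh1]
        omega

/-- an integral vector with nonzero entry gives a nonzero scalar in characteristic zero -/
theorem exists_basis (u m₁ : Fin 3 → ℤ) (h : dot u m₁ = 1) :
    ∃ m : Fin 3 → Fin 3 → ℤ, m 0 = m₁ ∧ dot u (m 1) = 0 ∧ dot u (m 2) = 0 ∧
      Matrix.det (Matrix.of m) ≠ 0 := by
  have hu : u 0 * m₁ 0 + u 1 * m₁ 1 + u 2 * m₁ 2 = 1 := by
    simpa [dot, Fin.sum_univ_three] using h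
  by_cases h0 : u 0 = 0
  · by_cases h1 : u 1 = 0
    · refine ⟨![m₁, ![1, 0, 0], ![0, 1, 0]], rfl, ?_, ?_, ?_⟩
      · simp [dot, Fin.sum_univ_three, h0]
      · simp [dot, Fin.sum_univ_three, h1]
      · simp [Matrix.det_fin_three]
        intro h2
        rw [h0, h1, h2] at hu
        simp at hu
    · refine ⟨![m₁, ![1, 0, 0], ![0, u 2, -u 1]], rfl, ?_, ?_, ?_⟩
      · simp [dot, Fin.sum_univ_three, h0]
      · simp [dot, Fin.sum_univ_three]; ring
      · simp [Matrix.det_fin_three]
        intro h2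
        rw [h0] at hu
        have : (1 : ℤ) = 0 := by linarith
        exact one_ne_zero this
  · refine ⟨![m₁, ![u 1, -u 0, 0], ![u 2, 0, -u 0]], rfl, ?_, ?_, ?_⟩
    · simp [dot, Fin.sum_univ_three]; ring
    · simp [dot, Fin.sum_univ_three]; ring
    · simp [Matrix.det_fin_three]
      intro h2
      have h3 : u 0 * (u 0 * m₁ 0 + u 1 * m₁ 1 + u 2 * m₁ 2) = 0 := by linarith
      rw [hu, mul_one] at h3
      exact h0 h3

end TorX

open TorX ThetaX

theorem tor_proof (hD : Stmt_Der) : Stmt_Tor := by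
  intro k _ _ u m₁ hu E hE f hf
  obtain ⟨θ, hθ⟩ := exists_theta (k := k) hD
  constructor
  · intro hreg
    -- some entry of `u` is nonzero
    have hr : ∃ r, u r ≠ 0 := by
      by_contra hcon
      push Not at hcon
      have : dot u m₁ = 0 := by
        unfold dot
        exact Finset.sum_eq_zero fun i _ => by rw [hcon i, zero_mul]
      omega
    obtain ⟨r, hr⟩ := hr
    have key : ge E 1 ((f • omega0 k) θ) := by
      refine ge_eval θ (fun a ha => ?_) _ hreg
      have h1 : dForm a θ = Matrix.det (Matrix.of fun i j => θ i (a j)) := rfl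
      have h2 := Matrix.det_updateRow_sum (Matrix.of fun i j => θ i (a j)) r
        (fun i => (u i : K3 k))
      have hru : ((u r : ℤ) : k) ≠ 0 := by exact_mod_cast hr
      have h3 : dForm a θ = ((u r : ℤ) : k)⁻¹ • (((u r : ℤ) : K3 k) •
          Matrix.det (Matrix.of fun i j => θ i (a j))) := by
        rw [h1, smul_eq_mul, int_smul_eq, smul_smul, inv_mul_cancel₀ hru, one_smul]
      rw [h3, ← h2]
      refine ge.smul _ ?_
      refine ge_det_row _ r ?_ ?_
      · intro i j
        rw [Matrix.updateRow_apply]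
        split_ifs with hi
        · have := (theta_ge hE hθ (a j) (ha j)).2
          rw [Finset.sum_apply]
          exact this.le (by norm_num)
        · exact (theta_ge hE hθ (a j) (ha j)).1 i
      · intro j
        rw [Matrix.updateRow_apply, if_pos rfl, Finset.sum_apply]
        exact (theta_ge hE hθ (a j) (ha j)).2
    rw [AlternatingMap.smul_apply, omega0_theta hθ, smul_eq_mul, mul_one] at key
    have := key.resolve_left hf
    omega
  · intro hord
    obtain ⟨m, hm0, hm1, hm2, hdet⟩ := exists_basis u m₁ hu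
    have h1 := dForm_mono (k := k) m
    have hdk : ((Matrix.det (Matrix.of m) : ℤ) : k) ≠ 0 := by exact_mod_cast hdet
    have hdK : ((Matrix.det (Matrix.of m) : ℤ) : K3 k) =
        algebraMap k (K3 k) ((Matrix.det (Matrix.of m) : ℤ) : k) := by rw [map_intCast]
    have hdK0 : ((Matrix.det (Matrix.of m) : ℤ) : K3 k) ≠ 0 := by
      rw [hdK]
      exact (map_ne_zero_iff _ (algebraMap k (K3 k)).injective).2 hdk
    have hP0 : (∏ j, mono k (m j)) ≠ 0 := Finset.prod_ne_zero_iff.2 fun j _ => mono_ne k _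
    have hPord : E.ord (∏ j, mono k (m j)) = 1 := by
      rw [E.ord_prod _ _ fun j _ => mono_ne k _, Fin.sum_univ_three,
        ord_mono_of_isMonoDiv k hE, ord_mono_of_isMonoDiv k hE, ord_mono_of_isMonoDiv k hE,
        hm0, hm1, hm2, hu]
      norm_num
    have hc0 : ((∏ j, mono k (m j)) * ((Matrix.det (Matrix.of m) : ℤ) : K3 k)) ≠ 0 :=
      mul_ne_zero hP0 hdK0
    have hcord : E.ord ((∏ j, mono k (m j)) * ((Matrix.det (Matrix.of m) : ℤ) : K3 k)) = 1 := by
      rw [E.ord_mul _ _ hP0 hdK0, hPord, hdK, E.ord_const _ hdk, add_zero]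
    have h2 : f • omega0 k =
        (f / ((∏ j, mono k (m j)) * ((Matrix.det (Matrix.of m) : ℤ) : K3 k))) •
          dForm (fun j => mono k (m j)) := by
      rw [h1, smul_smul, div_mul_cancel₀ _ hc0]
    have hmem : (f / ((∏ j, mono k (m j)) * ((Matrix.det (Matrix.of m) : ℤ) : K3 k))) ∈ E.ring := by
      right
      rw [E.ord_div _ _ hf hc0, hcord]
      omega
    unfold RegularAlong
    rw [h2]
    have h3 : dForm (fun j => mono k (m j)) ∈
        {θ : TopForm k (K3 k) 3 | ∃ a : Fin 3 → K3 k, (∀ j, a j ∈ E.ring) ∧ θ = dForm a} := by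
      refine ⟨_, fun j => ?_, rfl⟩
      right
      rw [ord_mono_of_isMonoDiv k hE]
      fin_cases j
      · show 0 ≤ dot u (m 0)
        rw [hm0, hu]; norm_num
      · show 0 ≤ dot u (m 1)
        rw [hm1]
      · show 0 ≤ dot u (m 2)
        rw [hm2]
    exact Submodule.smul_mem _ (⟨_, hmem⟩ : E.ring) (Submodule.subset_span h3)

end MldPoly
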