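import Pool.Agent.Mld.Stmts

/-! Module Uniq: all presentations give the same log discrepancies. -/

open scoped BigOperators

namespace MldPoly

namespace UniqX

variable {k K : Type} [Field k] [Field K] [Algebra k K] {d : ℕ}

theorem formOrd_unique (F : PrimeDiv k K) (ω : TopForm k K d) {i j : ℤ}
    (hi : IsFormOrd F ω i) (hj : IsFormOrd F ω j) : i = j := by
  obtain ⟨f, hf, hf'⟩ := F.exists_ord (-i)
  obtain ⟨g, hg, hg'⟩ := F.exists_ord (-j)
  have h1 := (hj f hf).1 ((hi f hf).2 (by rw [hf']; linarith))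
  have h2 := (hi g hg).1 ((hj g hg).2 (by rw [hg']; linarith))
  rw [hf'] at h1
  rw [hg'] at h2
  linarith

theorem formOrd_smul (F : PrimeDiv k K) (ω : TopForm k K d) {h : K} (hh : h ≠ 0) {j : ℤ}
    (hj : IsFormOrd F (h • ω) j) : IsFormOrd F ω (j - F.ord h) := by
  intro f hf
  have h1 := hj (f / h) (div_ne_zero hf hh)
  rw [smul_smul, div_mul_cancel₀ _ hh, F.ord_div f h hf hh] at h1
  rw [h1]
  constructor <;> intro h2 <;> linarith

theorem sum_append {n n' : ℕ} (F : PrimeDiv k K) (r : Fin n → ℝ) (r' : Fin n' → ℝ)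
    (φ : Fin n → K) (φ' : Fin n' → K) :
    ∑ i, (Fin.append r r') i * (F.ord ((Fin.append φ φ') i) : ℝ) =
      ∑ i, r i * (F.ord (φ i) : ℝ) + ∑ i, r' i * (F.ord (φ' i) : ℝ) := by
  rw [Fin.sum_univ_add]
  simp

end UniqX

open UniqX

theorem uniq_proof (hForm : Stmt_Form) (hIndep : Stmt_Indep) : Stmt_Uniq := by
  intro k _ X x hx B c c' hc E hE α hα
  obtain ⟨h, hh, hω⟩ := (hForm k).2 c'.ω c'.ω_ne
  obtain ⟨j', hj', hα'⟩ := hα
  have key := hIndep k (K3 k) 3 X x hx E hE (c'.n + c.n + 1)
    (Fin.append (Fin.append c'.r (fun i => - c.r i)) (fun _ : Fin 1 => (-1 : ℝ)))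
    (Fin.append (Fin.append c'.φ c.φ) (fun _ : Fin 1 => h)) (by
      intro i
      refine Fin.addCases (fun i => ?_) (fun i => ?_) i
      · rw [Fin.append_left]
        refine Fin.addCases (fun i => ?_) (fun i => ?_) i
        · rw [Fin.append_left]; exact c'.φ_ne i
        · rw [Fin.append_right]; exact c.φ_ne i
      · rw [Fin.append_right]; exact hh) (by
      intro p hp F hF
      rw [sum_append, sum_append]
      obtain ⟨j1, hj1, e1⟩ := c'.eq_at p hp F hF
      obtain ⟨j2, hj2, e2⟩ := c.eq_at p hp F hF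
      rw [hω] at hj1
      rw [hc] at hj2
      have h3 := formOrd_unique F _ hj2 (formOrd_smul F _ hh hj1)
      simp only [neg_mul, Finset.sum_neg_distrib, Finset.univ_unique, Finset.sum_singleton,
        one_mul]
      rw [← e1, ← e2, h3]
      push_cast
      ring)
  rw [sum_append, sum_append] at key
  simp only [neg_mul, Finset.sum_neg_distrib, Finset.univ_unique, Finset.sum_singleton,
    one_mul] at key
  refine ⟨j' - E.ord h, ?_, ?_⟩
  · rw [hc]
    rw [hω] at hj'
    exact formOrd_smul E _ hh hj'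
  · rw [hα']
    push_cast
    linarith

end MldPoly
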