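import Pool.Agent.Mld.Theta

/-!
# The logarithmic form along the prime divisors of `X` meeting the torus
-/

open scoped BigOperators

namespace MldPoly
namespace UnitX

open ThetaX

variable (k : Type) [Field k]

/-- the product of the variables -/
noncomputable def TP : P3 k := MvPolynomial.X 0 * MvPolynomial.X 1 * MvPolynomial.X 2

/-- the product of the variables in the field -/
noncomputable def TK : K3 k := algebraMap (P3 k) (K3 k) (TP k)

theorem TK_eq : TK k = mono k (fun _ => 1) := by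
  unfold TK TP mono tt
  rw [Fin.prod_univ_three, map_mul, map_mul]
  simp

theorem TK_pow (N : ℕ) : TK k ^ N = mono k (fun _ => (N : ℤ)) := by
  rw [TK_eq, ← mono_nsmul]
  congr 1
  funext i
  simp

theorem TK_ne : TK k ≠ 0 := by rw [TK_eq]; exact mono_ne k _

/-- the Laurent polynomial ring -/
noncomputable def LL : Subalgebra k (K3 k) where
  carrier := {x | ∃ (N : ℕ) (g : P3 k), x * TK k ^ N = algebraMap (P3 k) (K3 k) g}
  mul_mem' := by
    rintro x y ⟨N, g, hg⟩ ⟨M, h, hh⟩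
    refine ⟨N + M, g * h, ?_⟩
    rw [map_mul, ← hg, ← hh, pow_add]; ring
  add_mem' := by
    rintro x y ⟨N, g, hg⟩ ⟨M, h, hh⟩
    refine ⟨N + M, g * TP k ^ M + h * TP k ^ N, ?_⟩
    have : algebraMap (P3 k) (K3 k) (TP k) = TK k := rfl
    rw [map_add, map_mul, map_mul, map_pow, map_pow, this, ← hg, ← hh, pow_add]; ring
  algebraMap_mem' := by
    intro c
    refine ⟨0, MvPolynomial.C c, ?_⟩
    rw [pow_zero, mul_one, IsScalarTower.algebraMap_apply k (P3 k) (K3 k),
      MvPolynomial.algebraMap_eq]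

theorem mono_mem_LL (m : Fin 3 → ℤ) : mono k m ∈ LL k := by
  let s : Fin 3 →₀ ℕ := Finsupp.equivFunOnFinite.symm
    fun i => (m i + ((∑ j, (m j).natAbs : ℕ) : ℤ)).toNat
  refine ⟨∑ j, (m j).natAbs, MvPolynomial.monomial s 1, ?_⟩
  rw [TK_pow, ← mono_add, ← mono_nat]
  congr 1
  funext i
  have h : (s i : ℤ) = m i + ((∑ j, (m j).natAbs : ℕ) : ℤ) := by
    have h1 : s i = (m i + ((∑ j, (m j).natAbs : ℕ) : ℤ)).toNat := rfl
    have h2 : (m i).natAbs ≤ ∑ j, (m j).natAbs :=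
      Finset.single_le_sum (f := fun j => (m j).natAbs) (fun _ _ => Nat.zero_le _)
        (Finset.mem_univ i)
    rw [h1]
    omega
  rw [h, Pi.add_apply]

theorem AA_le_LL (a b : ℤ) : AA k a b ≤ LL k := by
  refine Algebra.adjoin_le ?_
  rintro x ⟨m, -, rfl⟩
  exact mono_mem_LL k m

variable {k}

theorem poly_ge {F : PrimeDiv k (K3 k)} (hF : ∀ m : Fin 3 → ℤ, F.ord (mono k m) = 0) (g : P3 k) :
    ge F 0 (algebraMap (P3 k) (K3 k) g) := by
  rw [algebraMap_eq_sum]
  refine ge_sum _ _ fun s _ => ge.smul _ ?_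
  right
  exact (hF _).ge

theorem aM_ne {g : P3 k} (hg : g ≠ 0) : algebraMap (P3 k) (K3 k) g ≠ 0 :=
  (map_ne_zero_iff _ (IsFractionRing.injective (P3 k) (K3 k))).2 hg

theorem ord_nonneg {F : PrimeDiv k (K3 k)} (hF : ∀ m : Fin 3 → ℤ, F.ord (mono k m) = 0) {g : P3 k}
    (hg : g ≠ 0) : 0 ≤ F.ord (algebraMap (P3 k) (K3 k) g) :=
  (poly_ge hF g).resolve_left (aM_ne hg)

/-- a prime factor of positive order -/
theorem exists_prime_factor {F : PrimeDiv k (K3 k)} (hF : ∀ m : Fin 3 → ℤ, F.ord (mono k m) = 0)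
    (h : P3 k) : h ≠ 0 → 0 < F.ord (algebraMap (P3 k) (K3 k) h) →
    ∃ p : P3 k, Prime p ∧ p ∣ h ∧ 0 < F.ord (algebraMap (P3 k) (K3 k) p) := by
  refine UniqueFactorizationMonoid.induction_on_prime h ?_ ?_ ?_
  · intro h0; exact absurd rfl h0
  · intro x hx hx0 hpos
    obtain ⟨y, hy⟩ := hx.exists_right_inv
    have hy0 : y ≠ 0 := fun h' => by rw [h', mul_zero] at hy; exact zero_ne_one hy
    have h1 := F.ord_mul _ _ (aM_ne hx0) (aM_ne hy0)
    rw [← map_mul, hy, map_one, F.ord_one] at h1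
    have h2 := ord_nonneg hF hy0
    omega
  · intro a p ha hp ih _ hpos
    rw [map_mul, F.ord_mul _ _ (aM_ne hp.ne_zero) (aM_ne ha)] at hpos
    by_cases h1 : 0 < F.ord (algebraMap (P3 k) (K3 k) p)
    · exact ⟨p, hp, dvd_mul_right p a, h1⟩
    · obtain ⟨q, hq1, hq2, hq3⟩ := ih ha (by omega)
      exact ⟨q, hq1, hq2.mul_left p, hq3⟩

/-- the prime ideal of `A` defined by a prime polynomial `p0` -/
noncomputable def PP (A : Subalgebra k (K3 k)) (hA : A ≤ LL k) (p0 : P3 k) : Ideal A where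
  carrier := {a | ∃ (N : ℕ) (g : P3 k),
    (a : K3 k) * TK k ^ N = algebraMap (P3 k) (K3 k) (p0 * g)}
  add_mem' := by
    rintro x y ⟨N, g, hg⟩ ⟨M, h, hh⟩
    refine ⟨N + M, g * TP k ^ M + h * TP k ^ N, ?_⟩
    have : algebraMap (P3 k) (K3 k) (TP k) = TK k := rfl
    have e : p0 * (g * TP k ^ M + h * TP k ^ N) = p0 * g * TP k ^ M + p0 * h * TP k ^ N := by ring
    rw [e, map_add, map_mul _ (p0 * g), map_mul _ (p0 * h), map_pow, map_pow, this, ← hg, ← hh,
      pow_add]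
    push_cast
    ring
  zero_mem' := ⟨0, 0, by simp⟩
  smul_mem' := by
    rintro c x ⟨N, g, hg⟩
    obtain ⟨M, h, hh⟩ := hA c.2
    refine ⟨N + M, g * h, ?_⟩
    have e : p0 * (g * h) = (p0 * g) * h := by ring
    rw [e, map_mul, ← hg, ← hh, pow_add, smul_eq_mul]
    push_cast
    ring

theorem mem_PP {A : Subalgebra k (K3 k)} {hA : A ≤ LL k} {p0 : P3 k} {a : A} :
    a ∈ PP A hA p0 ↔ ∃ (N : ℕ) (g : P3 k),
      (a : K3 k) * TK k ^ N = algebraMap (P3 k) (K3 k) (p0 * g) := Iff.rfl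

/-- the prime divisor `F` is given by a prime polynomial: all functions in its valuation ring are
fractions with denominator of order zero -/
theorem exists_fraction (hFr : Stmt_Frac) {a b : ℤ} (ha : 3 ≤ a) (hb : 3 ≤ b)
    (X : NormalVariety k (K3 k) 3) (hX : X.A = AA k a b) (p : PrimeWeil X)
    (F : PrimeDiv k (K3 k)) (hc : F.HasCenter X p.1) (hF : ∀ m : Fin 3 → ℤ, F.ord (mono k m) = 0)
    (f : K3 k) (hf : ge F 0 f) :
    ∃ g h : P3 k, h ≠ 0 ∧ F.ord (algebraMap (P3 k) (K3 k) h) = 0 ∧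
      f = algebraMap (P3 k) (K3 k) g / algebraMap (P3 k) (K3 k) h := by
  rcases eq_or_ne f 0 with rfl | hf0
  · exact ⟨0, 1, one_ne_zero, by rw [map_one, F.ord_one], by simp⟩
  obtain ⟨g, ⟨h, hh⟩, hrel, hfr⟩ := IsFractionRing.exists_reduced_fraction (A := P3 k) f
  have hh0 : h ≠ 0 := nonZeroDivisors.ne_zero hh
  rw [IsFractionRing.mk'_eq_div] at hfr
  have hg0 : g ≠ 0 := by
    rintro rfl
    rw [map_zero, zero_div] at hfr
    exact hf0 hfr.symm
  refine ⟨g, h, hh0, ?_, hfr.symm⟩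
  have h1 := ord_nonneg hF hh0
  by_contra hcon
  have h2 : 0 < F.ord (algebraMap (P3 k) (K3 k) h) := by omega
  obtain ⟨p0, hp0, hp0h, hp0ord⟩ := exists_prime_factor hF h hh0 h2
  have hp0g : ¬ p0 ∣ g := fun h' => hp0.not_isUnit (hrel h' hp0h)
  have hgord : 0 < F.ord (algebraMap (P3 k) (K3 k) g) := by
    have h3 := hf.resolve_left hf0
    rw [← hfr, F.ord_div _ _ (aM_ne hg0) (aM_ne hh0)] at h3
    omega
  have hTT : algebraMap (P3 k) (K3 k) (TP k) = TK k := rfl
  have hT0 : TP k ≠ 0 := fun h' => TK_ne k (by rw [← hTT, h', map_zero])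
  have hTord : F.ord (TK k) = 0 := by rw [TK_eq]; exact hF _
  have hTNord : ∀ N : ℕ, F.ord (TK k ^ N) = 0 := by
    intro N; rw [TK_pow]; exact hF _
  have hp0T : ¬ p0 ∣ TP k := by
    rintro ⟨q, hq⟩
    have hq0 : q ≠ 0 := fun h' => hT0 (by rw [hq, h', mul_zero])
    have h3 := congrArg (algebraMap (P3 k) (K3 k)) hq
    rw [hTT, map_mul] at h3
    rw [h3, F.ord_mul _ _ (aM_ne hp0.ne_zero) (aM_ne hq0)] at hTord
    have h4 := ord_nonneg hF hq0
    omega
  have hinj := IsFractionRing.injective (P3 k) (K3 k)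
  have hAL : X.A ≤ LL k := by rw [hX]; exact AA_le_LL k a b
  -- key: from a relation in the field to divisibility
  have key : ∀ (x : K3 k) (q : P3 k) (m : Fin 3 → ℤ) (N : ℕ) (r : P3 k),
      x = algebraMap (P3 k) (K3 k) q * mono k m → x * TK k ^ N = algebraMap (P3 k) (K3 k) (p0 * r) →
      p0 ∣ q := by
    intro x q m N r hx hr
    obtain ⟨M, w, hw⟩ := mono_mem_LL k (-m)
    have h3 : algebraMap (P3 k) (K3 k) (q * TP k ^ (N + M)) =
        algebraMap (P3 k) (K3 k) (p0 * (r * w)) := by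
      have e : p0 * (r * w) = (p0 * r) * w := by ring
      rw [e, map_mul _ (p0 * r), ← hr, ← hw, hx, map_mul, map_pow, hTT, pow_add, mono_neg]
      have := mono_ne k m
      field_simp
    have h4 := hinj h3
    have h5 : p0 ∣ q * TP k ^ (N + M) := ⟨_, h4⟩
    rcases hp0.dvd_or_dvd h5 with h6 | h6
    · exact h6
    · exact absurd (hp0.dvd_of_dvd_pow h6) hp0T
  -- the ideal is prime
  have hprime : (PP X.A hAL p0).IsPrime := by
    refine Ideal.isPrime_iff.2 ⟨?_, ?_⟩
    · rw [Ideal.ne_top_iff_one]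
      rintro ⟨N, r, hr⟩
      have h3 := key 1 1 0 N r (by rw [mono_zero]; simp) (by simpa using hr)
      exact hp0.not_isUnit (isUnit_of_dvd_one h3)
    · rintro x y ⟨N, r, hr⟩
      obtain ⟨M₁, g₁, h₁⟩ := hAL x.2
      obtain ⟨M₂, g₂, h₂⟩ := hAL y.2
      have h3 : algebraMap (P3 k) (K3 k) (g₁ * g₂ * TP k ^ N) =
          algebraMap (P3 k) (K3 k) (p0 * (r * TP k ^ (M₁ + M₂))) := by
        have e : p0 * (r * TP k ^ (M₁ + M₂)) = (p0 * r) * TP k ^ (M₁ + M₂) := by ring
        rw [e, map_mul _ (p0 * r), ← hr, map_mul, map_mul, ← h₁, ← h₂, map_pow, map_pow, hTT]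
        push_cast
        ring
      have h4 := hinj h3
      have h5 : p0 ∣ g₁ * g₂ * TP k ^ N := ⟨_, h4⟩
      rcases hp0.dvd_or_dvd h5 with h6 | h6
      · rcases hp0.dvd_or_dvd h6 with ⟨r', h7⟩ | ⟨r', h7⟩
        · left; exact ⟨M₁, r', by rw [← h7]; exact h₁⟩
        · right; exact ⟨M₂, r', by rw [← h7]; exact h₂⟩
      · exact absurd (hp0.dvd_of_dvd_pow h6) hp0T
  -- it is contained in `p`
  have hle : PP X.A hAL p0 ≤ p.1 := by
    rintro x ⟨N, r, hr⟩
    rw [hc.2 x]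
    rcases eq_or_ne (x : K3 k) 0 with hx | hx
    · exact Or.inl hx
    right
    have hr0 : r ≠ 0 := by
      rintro rfl
      rw [mul_zero, map_zero] at hr
      exact (mul_ne_zero hx (pow_ne_zero _ (TK_ne k))) hr
    have h3 := F.ord_mul _ _ hx (pow_ne_zero N (TK_ne k))
    rw [hTNord, hr, map_mul, F.ord_mul _ _ (aM_ne hp0.ne_zero) (aM_ne hr0)] at h3
    have h4 := ord_nonneg hF hr0
    omega
  -- it is nonzero
  have hbot : ⊥ < PP X.A hAL p0 := by
    obtain ⟨m, hm, hmem⟩ := (hFr k a b ha hb).1 p0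
    rw [← hX] at hmem
    rw [bot_lt_iff_ne_bot, Submodule.ne_bot_iff]
    refine ⟨⟨_, hmem⟩, ?_, ?_⟩
    · obtain ⟨M, w, hw⟩ := mono_mem_LL k m
      exact ⟨M, w, by rw [map_mul, ← hw]; ring⟩
    · intro h'
      exact (mul_ne_zero (aM_ne hp0.ne_zero) (mono_ne k m)) (congrArg Subtype.val h')
  -- it is different from `p`
  have hlt : PP X.A hAL p0 < p.1 := by
    refine lt_of_le_of_ne hle fun heq => ?_
    obtain ⟨m, hm, hmem⟩ := (hFr k a b ha hb).1 g
    rw [← hX] at hmem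
    have h3 : (⟨_, hmem⟩ : X.A) ∈ p.1 := by
      rw [hc.2]
      right
      rw [F.ord_mul _ _ (aM_ne hg0) (mono_ne k m), hF, add_zero]
      exact hgord
    rw [← heq] at h3
    obtain ⟨N, r, hr⟩ := h3
    exact hp0g (key _ g m N r rfl hr)
  have := hprime
  have := p.2.1
  have h3 : (⊥ : Ideal X.A).height + 1 ≤ (PP X.A hAL p0).height :=
    Ideal.height_add_one_le_of_lt_of_isPrime hbot
  have h4 : (PP X.A hAL p0).height + 1 ≤ p.1.height :=
    Ideal.height_add_one_le_of_lt_of_isPrime hlt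
  rw [p.2.2] at h4
  have h5 : (1 : ℕ∞) ≤ (PP X.A hAL p0).height := le_trans (by simp) h3
  have h6 : (1 : ℕ∞) + 1 ≤ 1 := le_trans (by gcongr) h4
  exact absurd h6 (by decide)

end UnitX

open UnitX ThetaX

theorem unit_proof (hD : Stmt_Der) (hFr : Stmt_Frac) : Stmt_Unit := by
  intro k _ a b ha hb X hX p F hc hF f hf
  obtain ⟨θ, hθ⟩ := exists_theta (k := k) hD
  rw [add_zero]
  constructor
  · intro hreg
    have hpoly : ∀ (i : Fin 3) (g : P3 k), ge F 0 (θ i (algebraMap (P3 k) (K3 k) g)) := by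
      intro i g
      rw [theta_poly hθ]
      refine ge_sum _ _ fun s _ => ge.smul _ ?_
      rw [int_smul_eq]
      refine ge.smul _ ?_
      right
      exact (hF _).ge
    have hpres : ∀ (i : Fin 3) (x : K3 k), ge F 0 x → ge F 0 (θ i x) := by
      intro i x hx
      obtain ⟨g, h, hh0, hh1, rfl⟩ := exists_fraction hFr ha hb X hX p F hc hF x hx
      have e1 : θ i (algebraMap (P3 k) (K3 k) g / algebraMap (P3 k) (K3 k) h) =
          (algebraMap (P3 k) (K3 k) h * θ i (algebraMap (P3 k) (K3 k) g) -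
            algebraMap (P3 k) (K3 k) g * θ i (algebraMap (P3 k) (K3 k) h)) /
              algebraMap (P3 k) (K3 k) h ^ 2 := by
        rw [Derivation.leibniz_div]
        simp only [smul_eq_mul]
        rw [inv_pow, mul_comm, div_eq_mul_inv]
      rw [e1]
      have e2 : ge F 0 (algebraMap (P3 k) (K3 k) h * θ i (algebraMap (P3 k) (K3 k) g) -
            algebraMap (P3 k) (K3 k) g * θ i (algebraMap (P3 k) (K3 k) h)) := by
        have e3 := ((poly_ge hF h).mul (hpoly i g)).sub ((poly_ge hF g).mul (hpoly i h))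
        rwa [add_zero] at e3
      have e4 := e2.div (pow_ne_zero 2 (aM_ne hh0))
      rw [F.ord_pow _ (aM_ne hh0), hh1] at e4
      simpa using e4
    have key : ge F 0 ((f • omega0 k) θ) := by
      refine ge_eval θ (fun a ha => ?_) _ hreg
      exact ge_det _ fun i j => hpres i _ (ha j)
    rw [AlternatingMap.smul_apply, omega0_theta hθ, smul_eq_mul, mul_one] at key
    exact key.resolve_left hf
  · intro hord
    have htt : ∀ i, F.ord (tt k i) = 0 := fun i => by rw [← mono_single]; exact hF _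
    have hP0 : (∏ i, tt k i) ≠ 0 := Finset.prod_ne_zero_iff.2 fun i _ => tt_ne k i
    have hPord : F.ord (∏ i, tt k i) = 0 := by
      rw [F.ord_prod _ _ fun i _ => tt_ne k i]
      exact Finset.sum_eq_zero fun i _ => htt i
    have hmem : f * (∏ i, tt k i)⁻¹ ∈ F.ring := by
      right
      rw [F.ord_mul _ _ hf (inv_ne_zero hP0), F.ord_inv _ hP0, hPord]
      omega
    unfold RegularAlong omega0
    rw [smul_smul]
    refine Submodule.smul_mem _ (⟨_, hmem⟩ : F.ring) (Submodule.subset_span ?_)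
    exact ⟨_, fun j => Or.inr (htt j).ge, rfl⟩

end MldPoly
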