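import Pool.Agent.Mld.Formula
import Pool.Agent.Mld.Class
import Pool.Agent.Mld.Cover
import Pool.Agent.Mld.Der
import Pool.Agent.Mld.Dim
import Pool.Agent.Mld.FG
import Pool.Agent.Mld.Form
import Pool.Agent.Mld.Frac
import Pool.Agent.Mld.Hartogs
import Pool.Agent.Mld.HtRay
import Pool.Agent.Mld.Indep
import Pool.Agent.Mld.LocRay
import Pool.Agent.Mld.Log
import Pool.Agent.Mld.Max
import Pool.Agent.Mld.Mem
import Pool.Agent.Mld.Min
import Pool.Agent.Mld.MinAtt
import Pool.Agent.Mld.MonoDiv
import Pool.Agent.Mld.Normal
import Pool.Agent.Mld.OrdSum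
import Pool.Agent.Mld.PD
import Pool.Agent.Mld.Tor
import Pool.Agent.Mld.Uniq
import Pool.Agent.Mld.Unit

/-!
# Assembly: the formula for the minimal log discrepancy, without hypotheses
-/

namespace MldPoly

theorem formula_final : Stmt_Formula := by
  have hLoc : Stmt_LocRay := locRay_proof mem_proof ordSum_proof frac_proof
  have hHt : Stmt_HtRay := htRay_proof hLoc
  have hCover : Stmt_Cover := cover_proof mem_proof ordSum_proof
  exact formula_proof monodiv_proof (tor_proof der_proof) log_proof
    (uniq_proof (form_proof der_proof) (indep_proof (hartogs_proof pd_proof))) fg_proof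
    frac_proof (normal_proof monodiv_proof ordSum_proof mem_proof) dim_proof hHt
    (class_proof hCover hHt hLoc) (unit_proof der_proof frac_proof)
    (max_proof mem_proof ordSum_proof monodiv_proof) min_proof minatt_proof

end MldPoly
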