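import Pool.Agent.Mld.Stmts

/-!
# Assembly: the minimal log discrepancy of the example
-/

open scoped BigOperators

namespace MldPoly

namespace FormulaX

variable {k : Type} [Field k]

theorem ord_mono (E : PrimeDiv k (K3 k)) (m : Fin 3 → ℤ) :
    E.ord (mono k m) = dot (fun i => E.ord (tt k i)) m := by
  unfold mono dot
  rw [E.ord_prod _ _ fun i _ => zpow_ne_zero _ (tt_ne k i)]
  exact Finset.sum_congr rfl fun i _ => by rw [E.ord_zpow _ (tt_ne k i), mul_comm]

theorem exists_dot_ray (a b : ℤ) (ρ : Fin 3) : ∃ m₁, dot (ray a b ρ) m₁ = 1 := by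
  fin_cases ρ
  · exact ⟨![-1, -b, 0], by simp [dot, ray, Fin.sum_univ_three]⟩
  · exact ⟨![0, 1, 0], by simp [dot, ray, Fin.sum_univ_three]⟩
  · exact ⟨![0, 0, 1], by simp [dot, ray, Fin.sum_univ_three]⟩

theorem isMonoDiv_congr {u : Fin 3 → ℤ} {E F : PrimeDiv k (K3 k)} (h : IsMonoDiv k u E)
    (hEF : ∀ f : K3 k, f ≠ 0 → F.ord f = E.ord f) : IsMonoDiv k u F := by
  intro g hg
  rw [hEF _ ((map_ne_zero_iff _ (IsFractionRing.injective (P3 k) (K3 k))).2 hg)]
  exact h g hg

/-- boundary coefficients of the three toric divisors -/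
noncomputable def beta (w : Fin 2 → ℝ) : Fin 3 → ℝ := ![w 0, w 1, w 0 + w 1]

end FormulaX

open FormulaX

theorem formula_proof (hMono : Stmt_MonoDiv) (hTor : Stmt_Tor) (hLog : Stmt_Log)
    (hUniq : Stmt_Uniq) (hFG : Stmt_FG) (hFrac : Stmt_Frac) (hNormal : Stmt_Normal)
    (hDim : Stmt_Dim) (hHt : Stmt_HtRay) (hClass : Stmt_Class) (hUnit : Stmt_Unit)
    (hMax : Stmt_Max) (hMin : Stmt_Min) (hAtt : Stmt_MinAtt) : Stmt_Formula := by
  intro k _ _ a b ha hb
  have hn0 : (8 : ℤ) ≤ a * b - 1 := by nlinarith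
  have hn : (0 : ℝ) < (a : ℝ) * b - 1 := by exact_mod_cast (by omega : (0 : ℤ) < a * b - 1)
  -- the variety
  let X : NormalVariety k (K3 k) 3 :=
    { A := AA k a b
      fg := hFG k a b ha hb
      fraction := (hFrac k a b ha hb).2
      normal := hNormal k a b ha hb
      dim := hDim k }
  have hX : X.A = AA k a b := rfl
  obtain ⟨x, hxmax, hxmono, hxcen⟩ := hMax k a b ha hb X hX
  -- the toric divisors
  choose E hE using fun ρ => hMono k (ray a b ρ) _ (exists_dot_ray a b ρ).choose_spec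
  choose p hp using fun ρ => hHt k a b ha hb X hX ρ (E ρ) (hE ρ)
  have hordxm : ∀ ρ σ, (E ρ).ord (mono k (xm a b σ)) = if ρ = σ then a * b - 1 else 0 := by
    intro ρ σ
    rw [ord_mono_of_isMonoDiv k (hE ρ), dot_ray_xm]
  let y : Fin 3 → X.A := fun σ => ⟨mono k (xm a b σ), mono_mem_AA k (xm_mem_SS (by omega) σ)⟩
  have hymem : ∀ ρ σ, y σ ∈ (p ρ).1 ↔ ρ = σ := by
    intro ρ σ
    rw [(hp ρ).2 (y σ)]
    change mono k (xm a b σ) = 0 ∨ 0 < (E ρ).ord (mono k (xm a b σ)) ↔ _
    rw [hordxm]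
    constructor
    · rintro (h | h)
      · exact absurd h (mono_ne k _)
      · by_contra hne
        rw [if_neg hne] at h
        exact lt_irrefl _ h
    · rintro rfl
      right
      rw [if_pos rfl]
      omega
  have hpinj : ∀ ρ σ, p ρ = p σ → ρ = σ := by
    intro ρ σ h
    have h1 := (hymem ρ ρ).2 rfl
    rw [h] at h1
    exact ((hymem σ ρ).1 h1).symm
  -- the divisors
  classical
  let B : Fin 2 → EffDiv X :=
    ![Finsupp.single (p 0) 1 + Finsupp.single (p 2) 1, Finsupp.single (p 1) 1 + Finsupp.single (p 2) 1]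
  have hcomb : ∀ (w : Fin 2 → ℝ) (q : PrimeWeil X), comb w B q =
      w 0 * ((if p 0 = q then 1 else 0) + (if p 2 = q then 1 else 0)) +
      w 1 * ((if p 1 = q then 1 else 0) + (if p 2 = q then 1 else 0)) := by
    intro w q
    unfold comb
    rw [Fin.sum_univ_two, Finsupp.add_apply, Finsupp.smul_apply, Finsupp.smul_apply,
      Finsupp.mapRange_apply, Finsupp.mapRange_apply]
    simp only [B, Matrix.cons_val_zero, Matrix.cons_val_one, Finsupp.add_apply,
      Finsupp.single_apply, smul_eq_mul]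
    push_cast
    rfl
  have hcombp : ∀ (w : Fin 2 → ℝ) (ρ : Fin 3), comb w B (p ρ) = beta w ρ := by
    intro w ρ
    rw [hcomb]
    have h01 : p 0 ≠ p 1 := fun h => absurd (hpinj _ _ h) (by decide)
    have h02 : p 0 ≠ p 2 := fun h => absurd (hpinj _ _ h) (by decide)
    have h12 : p 1 ≠ p 2 := fun h => absurd (hpinj _ _ h) (by decide)
    fin_cases ρ
    · simp [beta, h01.symm, h02.symm]
    · simp [beta, h01, h12.symm]
    · simp [beta, h02, h12]
  -- the presentation
  have hdata : ∀ w : Fin 2 → ℝ, ∀ q : PrimeWeil X, q.1 ≤ x → ∀ F : PrimeDiv k (K3 k),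
      F.HasCenter X q.1 → ∃ j : ℤ, IsFormOrd F (omega0 k) j ∧ (j : ℝ) + comb w B q =
        ∑ i : Fin 3, (-(1 - beta w i) / ((a : ℝ) * b - 1)) * (F.ord (mono k (xm a b i)) : ℝ) := by
    intro w q _ F hF
    rcases hClass k a b ha hb X hX q F hF with ⟨ρ, hρ⟩ | hunit
    · have hFE := hρ (E ρ) (hE ρ)
      have hq : q = p ρ := by
        apply Subtype.ext
        ext z
        rw [hF.2 z, (hp ρ).2 z]
        constructor
        · rintro (h | h)
          · exact Or.inl h
          · rcases eq_or_ne (z : K3 k) 0 with h0 | h0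
            · exact Or.inl h0
            · exact Or.inr (by rwa [hFE _ h0] at h)
        · rintro (h | h)
          · exact Or.inl h
          · rcases eq_or_ne (z : K3 k) 0 with h0 | h0
            · exact Or.inl h0
            · exact Or.inr (by rwa [hFE _ h0])
      refine ⟨-1, hTor k (ray a b ρ) _ (exists_dot_ray a b ρ).choose_spec F
        (isMonoDiv_congr (hE ρ) hFE), ?_⟩
      rw [hq, hcombp]
      have hsum : ∀ i : Fin 3, (F.ord (mono k (xm a b i)) : ℝ) =
          if ρ = i then ((a : ℝ) * b - 1) else 0 := by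
        intro i
        rw [hFE _ (mono_ne k _), hordxm]
        split_ifs <;> push_cast <;> rfl
      simp only [hsum, mul_ite, mul_zero, Finset.sum_ite_eq, Finset.mem_univ, if_true]
      rw [div_mul_cancel₀ _ hn.ne']
      push_cast
      ring
    · refine ⟨0, hUnit k a b ha hb X hX q F hF hunit, ?_⟩
      have hne : ∀ ρ, p ρ ≠ q := by
        intro ρ h
        have h1 := (hymem ρ ρ).2 rfl
        rw [h, hF.2 (y ρ)] at h1
        rcases h1 with h1 | h1
        · exact mono_ne k _ h1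
        · change 0 < F.ord (mono k (xm a b ρ)) at h1
          rw [hunit] at h1
          exact lt_irrefl _ h1
      rw [hcomb, if_neg (hne 0), if_neg (hne 1), if_neg (hne 2)]
      simp [hunit]
  let c : ∀ w : Fin 2 → ℝ, CartierData X x (comb w B) := fun w =>
    { ω := omega0 k
      ω_ne := by
        intro h0
        have h1 := hTor k (ray a b 0) _ (exists_dot_ray a b 0).choose_spec (E 0) (hE 0)
        have h2 : ∀ f : K3 k, f ≠ 0 → 0 ≤ (E 0).ord f + -1 := by
          intro f hf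
          rw [← h1 f hf, h0, smul_zero]
          exact Submodule.zero_mem _
        have h3 := h2 1 one_ne_zero
        rw [(E 0).ord_one] at h3
        omega
      n := 3
      r := fun i => -(1 - beta w i) / ((a : ℝ) * b - 1)
      φ := fun i => mono k (xm a b i)
      φ_ne := fun i => mono_ne k _
      eq_at := hdata w }
  refine ⟨X, x, B, hxmax, fun w hw0 hw1 hw => ⟨⟨c w⟩, ?_⟩⟩
  have hval : ∀ u : Fin 3 → ℤ,
      ∑ i : Fin 3, (-(1 - beta w i) / ((a : ℝ) * b - 1)) * (dot u (xm a b i) : ℝ) =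
      -(((1 - w 0) * (dot u (xm a b 0) : ℝ) + (1 - w 1) * (dot u (xm a b 1) : ℝ) +
        (1 - w 0 - w 1) * (dot u (xm a b 2) : ℝ)) / ((a : ℝ) * b - 1)) := by
    intro u
    rw [Fin.sum_univ_three]
    simp only [beta, Matrix.cons_val_zero, Matrix.cons_val_one, Matrix.cons_val]
    field_simp
    ring
  apply IsLeast.isGLB
  constructor
  · obtain ⟨u, hu, hatt⟩ := (hAtt a b ha hb).2 w
    obtain ⟨⟨m₁, hm₁⟩, hpos⟩ := (hAtt a b ha hb).1 u hu
    obtain ⟨G, hG⟩ := hMono k u m₁ hm₁
    refine ⟨G, hxcen u m₁ hm₁ hpos G hG, c w, -1, hTor k u m₁ hm₁ G hG, ?_⟩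
    have h1 : ∑ i, (c w).r i * (G.ord ((c w).φ i) : ℝ) =
        ∑ i : Fin 3, (-(1 - beta w i) / ((a : ℝ) * b - 1)) * (dot u (xm a b i) : ℝ) := by
      apply Finset.sum_congr rfl
      intro i _
      change (-(1 - beta w i) / ((a : ℝ) * b - 1)) * (G.ord (mono k (xm a b i)) : ℝ) = _
      rw [ord_mono_of_isMonoDiv k hG]
    rw [h1, hval u, hatt]
    push_cast
    ring
  · rintro α ⟨G, hGx, c', hα⟩
    obtain ⟨j, hj, hαeq⟩ := hUniq k X x hxmax.isPrime (comb w B) (c w) c' rfl G hGx α hα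
    have hj1 := hLog k G j hj
    set u : Fin 3 → ℤ := fun i => G.ord (tt k i) with hu
    have hpos : ∀ ρ, 0 < dot u (xm a b ρ) := by
      intro ρ
      have hne : xm a b ρ ≠ 0 := by
        intro h
        have := dot_ray_xm a b ρ ρ
        rw [h, dot_zero, if_pos rfl] at this
        omega
      have h1 := hxmono (y ρ) ⟨xm a b ρ, xm_mem_SS (by omega) ρ, hne, rfl⟩
      rw [hGx.2 (y ρ)] at h1
      rcases h1 with h1 | h1
      · exact absurd h1 (mono_ne k _)
      · change 0 < G.ord (mono k (xm a b ρ)) at h1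
        rwa [ord_mono] at h1
    have h2 := hMin a b ha hb u hpos w hw0 hw1 hw
    have h1 : ∑ i, (c w).r i * (G.ord ((c w).φ i) : ℝ) =
        ∑ i : Fin 3, (-(1 - beta w i) / ((a : ℝ) * b - 1)) * (dot u (xm a b i) : ℝ) := by
      apply Finset.sum_congr rfl
      intro i _
      change (-(1 - beta w i) / ((a : ℝ) * b - 1)) * (G.ord (mono k (xm a b i)) : ℝ) = _
      rw [ord_mono]
    rw [h1, hval u] at hαeq
    rw [hαeq]
    have hj2 : (-1 : ℝ) ≤ j := by exact_mod_cast hj1
    linarith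

end MldPoly
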