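import Pool.Agent.Mld.Stmts

/-!
# Module MAIN of the refutation of Q1 of MP_1fc009_ag

The polytope argument: the minimal log discrepancy of the example has a kink along a rational ray
of arbitrary slope, so it is not affine on a rational polytope with `v` in its relative interior.
-/

open scoped BigOperators

namespace MldPoly

namespace MainX

theorem isMld_unique {k K : Type} [Field k] [Field K] [Algebra k K] {d : ℕ}
    {X : NormalVariety k K d} {x : Ideal X.A} {B : RDiv X} {μ μ' : ℝ}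
    (h : IsMld X x B μ) (h' : IsMld X x B μ') : μ = μ' :=
  h.2.unique h'.2

/-- the kink: at a point `v` with `(a-1) v_0 < (b-1) v_1`, the function `mldval` is not affine on
the segment `[2v - w, w]` if `(b-1) w_1 < (a-1) w_0` -/
theorem kink {a b : ℤ} (hn : 0 < (a : ℝ) * b - 1) {v w w' : Fin 2 → ℝ}
    (h0 : v 0 + v 0 = w 0 + w' 0) (h1 : v 1 + v 1 = w 1 + w' 1)
    (hv : ((a : ℝ) - 1) * v 0 < ((b : ℝ) - 1) * v 1)
    (hw : ((b : ℝ) - 1) * w 1 < ((a : ℝ) - 1) * w 0) :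
    mldval a b w + mldval a b w' < mldval a b v + mldval a b v := by
  have hv1 : min ((a : ℝ) * v 0 + v 1) (v 0 + (b : ℝ) * v 1) = (a : ℝ) * v 0 + v 1 :=
    min_eq_left (by nlinarith)
  have hw1 : min ((a : ℝ) * w 0 + w 1) (w 0 + (b : ℝ) * w 1) = w 0 + (b : ℝ) * w 1 :=
    min_eq_right (by nlinarith)
  have hw2 : min ((a : ℝ) * w' 0 + w' 1) (w' 0 + (b : ℝ) * w' 1) ≤ (a : ℝ) * w' 0 + w' 1 :=
    min_le_left _ _
  unfold mldval
  rw [hv1, hw1]
  have key : (w 0 + (b : ℝ) * w 1) / ((a : ℝ) * b - 1) +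
      min ((a : ℝ) * w' 0 + w' 1) (w' 0 + (b : ℝ) * w' 1) / ((a : ℝ) * b - 1) <
      ((a : ℝ) * v 0 + v 1) / ((a : ℝ) * b - 1) + ((a : ℝ) * v 0 + v 1) / ((a : ℝ) * b - 1) := by
    rw [← add_div, ← add_div]
    apply div_lt_div_of_pos_right _ hn
    have e : (a : ℝ) * v 0 + v 1 + ((a : ℝ) * v 0 + v 1) =
        ((a : ℝ) * w 0 + w 1) + ((a : ℝ) * w' 0 + w' 1) := by
      have : (a : ℝ) * v 0 + v 1 + ((a : ℝ) * v 0 + v 1) = a * (v 0 + v 0) + (v 1 + v 1) := by ring
      rw [this, h0, h1]; ring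
    rw [e]
    linarith
  linarith

/-- points of the line through `v` and the vertex `j₀`, close to `v`, lie in the polytope -/
theorem mem_hull {r : ℕ} {vtx : Fin r → Fin 2 → ℚ} {a : Fin r → ℝ} {v : Fin 2 → ℝ}
    (ha : ∀ j, 0 ≤ a j) (hs : ∑ j, a j = 1) (hv : ∀ i, ∑ j, a j * (vtx j i : ℝ) = v i)
    (j₀ : Fin r) (t : ℝ) (h1 : -a j₀ ≤ t) (h2 : t ≤ 1) :
    (fun i => v i + t * ((vtx j₀ i : ℝ) - v i)) ∈
      convexHull ℝ (Set.range fun (j : Fin r) (i : Fin 2) => (vtx j i : ℝ)) := by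
  have hle : a j₀ ≤ 1 := by
    rw [← hs]
    exact Finset.single_le_sum (fun j _ => ha j) (Finset.mem_univ j₀)
  have hmem := (convex_convexHull ℝ (Set.range fun (j : Fin r) (i : Fin 2) => (vtx j i : ℝ))).sum_mem
    (t := Finset.univ) (w := fun j => (1 - t) * a j + (if j = j₀ then t else 0))
    (z := fun (j : Fin r) (i : Fin 2) => (vtx j i : ℝ)) ?_ ?_ ?_
  · convert hmem using 1
    funext i
    rw [Finset.sum_apply]
    simp only [Pi.smul_apply, smul_eq_mul]
    have : ∀ j, ((1 - t) * a j + (if j = j₀ then t else 0)) * (vtx j i : ℝ) =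
        (1 - t) * (a j * (vtx j i : ℝ)) + (if j = j₀ then t * (vtx j i : ℝ) else 0) := by
      intro j
      split_ifs <;> ring
    rw [Finset.sum_congr rfl fun j _ => this j, Finset.sum_add_distrib, ← Finset.mul_sum, hv i,
      Finset.sum_ite_eq' Finset.univ j₀]
    simp only [Finset.mem_univ, if_true]
    ring
  · intro j _
    split_ifs with h
    · subst h
      rcases le_total 0 t with ht | ht
      · have : 0 ≤ (1 - t) * a j := mul_nonneg (by linarith) (ha j)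
        linarith
      · nlinarith
    · rw [add_zero]
      exact mul_nonneg (by linarith) (ha j)
  · rw [Finset.sum_add_distrib, ← Finset.mul_sum, hs, Finset.sum_ite_eq' Finset.univ j₀]
    simp
  · intro j _
    exact subset_convexHull ℝ _ ⟨j, rfl⟩

/-- some vertex that is used does not lie on the line through `0` and `v` -/
theorem exists_vertex {r : ℕ} {vtx : Fin r → Fin 2 → ℚ} {a : Fin r → ℝ} {v : Fin 2 → ℝ}
    (ha : ∀ j, 0 ≤ a j) (h1 : 0 < v 1) (hirr : Irrational (v 0 / v 1))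
    (hv : ∀ i, ∑ j, a j * (vtx j i : ℝ) = v i) :
    ∃ j, 0 < a j ∧ (vtx j 0 : ℝ) * v 1 - (vtx j 1 : ℝ) * v 0 ≠ 0 := by
  by_contra hcon
  push Not at hcon
  have hz : ∀ j, 0 < a j → vtx j 1 = 0 := by
    intro j ha0
    by_contra hj
    apply hirr
    refine ⟨vtx j 0 / vtx j 1, ?_⟩
    have hj' : (vtx j 1 : ℝ) ≠ 0 := by exact_mod_cast hj
    push_cast
    rw [div_eq_div_iff hj' h1.ne']
    linarith [hcon j ha0]
  have := hv 1
  rw [Finset.sum_eq_zero] at this
  · exact h1.ne this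
  · intro j _
    rcases (ha j).eq_or_lt with h | h
    · rw [← h, zero_mul]
    · rw [hz j h]; simp

/-- a point of the convex hull of finitely many points is a convex combination of them -/
theorem exists_weights {r : ℕ} {P : Fin r → Fin 2 → ℝ} {v : Fin 2 → ℝ}
    (hv : v ∈ convexHull ℝ (Set.range P)) :
    ∃ a : Fin r → ℝ, (∀ j, 0 ≤ a j) ∧ ∑ j, a j = 1 ∧ ∀ i, ∑ j, a j * P j i = v i := by
  rw [convexHull_range_eq_exists_affineCombination] at hv
  obtain ⟨s, w, hw0, hw1, hw⟩ := hv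
  rw [Finset.affineCombination_eq_linear_combination _ _ _ hw1] at hw
  refine ⟨fun j => if j ∈ s then w j else 0, ?_, ?_, ?_⟩
  · intro j
    dsimp only
    split_ifs with h
    · exact hw0 j h
    · exact le_rfl
  · rw [Finset.sum_ite_mem, Finset.univ_inter]
    exact hw1
  · intro i
    rw [← hw, Finset.sum_apply]
    simp only [Pi.smul_apply, smul_eq_mul, ite_mul, zero_mul]
    rw [Finset.sum_ite_mem, Finset.univ_inter]

end MainX

open MainX

/-- KINK, the elementary core: if `v` lies in the convex hull of finitely many rational points and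
`v 0 / v 1` is irrational, then for suitable `a, b` the function `mldval a b` is not affine on
that convex hull: there are two points `p`, `q` of the hull, in the open triangle
`0 < w 0`, `0 < w 1`, `w 0 + w 1 < 1`, whose midpoint is `v`, with
`mldval a b p + mldval a b q < 2 * mldval a b v`. -/
theorem kink_mid (v : Fin 2 → ℝ) (hv0 : 0 < v 0) (hv1 : 0 < v 1) (hv01 : v 0 + v 1 < 1)
    (hirr : Irrational (v 0 / v 1)) (r : ℕ) (vtx : Fin r → Fin 2 → ℚ)
    (hv : v ∈ convexHull ℝ (Set.range fun (j : Fin r) (i : Fin 2) => (vtx j i : ℝ))) :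
    ∃ a b : ℤ, 3 ≤ a ∧ 3 ≤ b ∧ ∃ p q : Fin 2 → ℝ,
      p ∈ convexHull ℝ (Set.range fun (j : Fin r) (i : Fin 2) => (vtx j i : ℝ)) ∧
      q ∈ convexHull ℝ (Set.range fun (j : Fin r) (i : Fin 2) => (vtx j i : ℝ)) ∧
      (0 < p 0 ∧ 0 < p 1 ∧ p 0 + p 1 < 1) ∧ (0 < q 0 ∧ 0 < q 1 ∧ q 0 + q 1 < 1) ∧
      (∀ i, p i + q i = v i + v i) ∧
      mldval a b p + mldval a b q < mldval a b v + mldval a b v := by
  obtain ⟨α, hα, hsum, hav⟩ := exists_weights hv
  obtain ⟨j₀, hα0, hj₀⟩ := exists_vertex hα hv1 hirr hav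
  -- choose a small step
  set p : Fin 2 → ℝ := fun i => (vtx j₀ i : ℝ) with hp
  have hev : ∀ᶠ t : ℝ in nhds 0, -α j₀ < t ∧ t < 1 ∧ 0 < v 0 + t * (p 0 - v 0) ∧
      0 < v 1 + t * (p 1 - v 1) ∧
      (v 0 + t * (p 0 - v 0)) + (v 1 + t * (p 1 - v 1)) < 1 := by
    have c0 : ContinuousAt (fun t : ℝ => v 0 + t * (p 0 - v 0)) 0 := by fun_prop
    have c1 : ContinuousAt (fun t : ℝ => v 1 + t * (p 1 - v 1)) 0 := by fun_prop
    have c2 : ContinuousAt (fun t : ℝ => (v 0 + t * (p 0 - v 0)) + (v 1 + t * (p 1 - v 1))) 0 := by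
      fun_prop
    refine (lt_mem_nhds (by linarith)).and ((gt_mem_nhds one_pos).and
      ((c0.eventually (lt_mem_nhds (by simpa using hv0))).and
      ((c1.eventually (lt_mem_nhds (by simpa using hv1))).and
      (c2.eventually (gt_mem_nhds (by simpa using hv01))))))
  obtain ⟨δ, hδ, hball⟩ := Metric.eventually_nhds_iff.mp hev
  -- the step with the right sign
  obtain ⟨s, hs, hs2, hcross⟩ : ∃ s : ℝ, |s| < δ ∧ |-s| < δ ∧
      0 < s * (p 0 * v 1 - p 1 * v 0) := by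
    rcases lt_or_gt_of_ne hj₀ with h | h
    · refine ⟨-(δ / 2), ?_, ?_, ?_⟩
      · rw [abs_neg, abs_of_pos (by linarith)]; linarith
      · rw [neg_neg, abs_of_pos (by linarith)]; linarith
      · have : p 0 * v 1 - p 1 * v 0 < 0 := h
        nlinarith
    · refine ⟨δ / 2, ?_, ?_, ?_⟩
      · rw [abs_of_pos (by linarith)]; linarith
      · rw [abs_neg, abs_of_pos (by linarith)]; linarith
      · have : 0 < p 0 * v 1 - p 1 * v 0 := h
        positivity
  obtain ⟨a1, a2, a3, a4, a5⟩ := hball (y := s) (by simpa [Real.dist_eq] using hs)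
  obtain ⟨b1, b2, b3, b4, b5⟩ := hball (y := -s) (by simpa [Real.dist_eq] using hs)
  set w : Fin 2 → ℝ := fun i => v i + s * (p i - v i) with hw
  set w' : Fin 2 → ℝ := fun i => v i + (-s) * (p i - v i) with hw'
  have hwP := mem_hull hα hsum hav j₀ s a1.le a2.le
  have hwP' := mem_hull hα hsum hav j₀ (-s) b1.le b2.le
  -- the slope of the kink
  have hratio : v 0 / v 1 < w 0 / w 1 := by
    rw [div_lt_div_iff₀ hv1 (show 0 < w 1 from a4)]
    simp only [hw]
    nlinarith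
  obtain ⟨q, hq1, hq2⟩ := exists_rat_btwn hratio
  have hq0 : (0 : ℝ) < q := lt_trans (div_pos hv0 hv1) hq1
  have hq0' : 0 < q := by exact_mod_cast hq0
  have hnum : 0 < q.num := Rat.num_pos.mpr hq0'
  have hden : (0 : ℤ) < q.den := by exact_mod_cast q.den_pos
  have hqd : (q : ℝ) * (q.den : ℝ) = (q.num : ℝ) := by
    exact_mod_cast Rat.mul_den_eq_num q
  have hdenR : (0 : ℝ) < (q.den : ℝ) := by exact_mod_cast q.den_pos
  refine ⟨2 * (q.den : ℤ) + 1, 2 * q.num + 1, by omega, by omega, w, w', hwP, hwP',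
    ⟨a3, a4, a5⟩, ⟨b3, b4, b5⟩, ?_, ?_⟩
  · intro i
    simp only [hw, hw']; ring
  · have ha3 : 3 ≤ 2 * (q.den : ℤ) + 1 := by omega
    have hb3 : 3 ≤ 2 * q.num + 1 := by omega
    generalize ha₀ : 2 * (q.den : ℤ) + 1 = a₀ at *
    generalize hb₀ : 2 * q.num + 1 = b₀ at *
    have haR : (a₀ : ℝ) - 1 = 2 * (q.den : ℝ) := by rw [← ha₀]; push_cast; ring
    have hbR : (b₀ : ℝ) - 1 = 2 * ((q : ℝ) * (q.den : ℝ)) := by rw [hqd, ← hb₀]; push_cast; ring
    have hn : 0 < (a₀ : ℝ) * b₀ - 1 := by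
      have h1 : (3 : ℝ) ≤ a₀ := by exact_mod_cast ha3
      have h2 : (3 : ℝ) ≤ b₀ := by exact_mod_cast hb3
      nlinarith
    exact kink (a := a₀) (b := b₀) hn (v := v) (w := w) (w' := w')
      (by simp only [hw, hw']; ring) (by simp only [hw, hw']; ring)
      (by
        rw [haR, hbR]
        rw [div_lt_iff₀ hv1] at hq1
        nlinarith)
      (by
        rw [haR, hbR]
        rw [lt_div_iff₀ (show 0 < w 1 from a4)] at hq2
        nlinarith)

/-- MAIN from FORMULA. -/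
theorem main_proof (hF : Stmt_Formula) : Stmt_Main := by
  intro k _ _ v hv0 hv1 hv01 hirr ε hε hεv hU
  obtain ⟨r, vtx, α, ε', hα, -, hsum, hav, -, hall⟩ := hU
  have hvP : v ∈ convexHull ℝ (Set.range fun (j : Fin r) (i : Fin 2) => (vtx j i : ℝ)) := by
    obtain ⟨j₀, -, -⟩ := exists_vertex (fun j => (hα j).le) hv1 hirr hav
    have h := mem_hull (fun j => (hα j).le) hsum hav j₀ 0 (by linarith [hα j₀]) (by norm_num)
    have h' : (fun i => v i + 0 * ((vtx j₀ i : ℝ) - v i)) = v := by funext i; ring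
    rwa [h'] at h
  obtain ⟨a₀, b₀, ha3, hb3, w, w', hwP, hwP', ⟨a3, a4, a5⟩, ⟨b3, b4, b5⟩, hmid, hlt⟩ :=
    kink_mid v hv0 hv1 hv01 hirr r vtx hvP
  have hn : 0 < (a₀ : ℝ) * b₀ - 1 := by
    have h1 : (3 : ℝ) ≤ a₀ := by exact_mod_cast ha3
    have h2 : (3 : ℝ) ≤ b₀ := by exact_mod_cast hb3
    nlinarith
  obtain ⟨X, x, B, hx, hmld⟩ := hF k a₀ b₀ ha3 hb3
  obtain ⟨⟨c₀, c, hc⟩, -⟩ := hall (K3 k) X x hx B ⟨mldval a₀ b₀ v,
    hmld v hv0.le hv1.le hv01.le, by
      unfold mldval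
      have h3 : 0 ≤ min ((a₀ : ℝ) * v 0 + v 1) (v 0 + (b₀ : ℝ) * v 1) / ((a₀ : ℝ) * b₀ - 1) := by
        apply div_nonneg _ hn.le
        have h1 : (3 : ℝ) ≤ a₀ := by exact_mod_cast ha3
        have h2 : (3 : ℝ) ≤ b₀ := by exact_mod_cast hb3
        apply le_min <;> positivity
      linarith⟩
  have ev := isMld_unique (hc v hvP) (hmld v hv0.le hv1.le hv01.le)
  have ew := isMld_unique (hc w hwP) (hmld w a3.le a4.le a5.le)
  have ew' := isMld_unique (hc w' hwP') (hmld w' b3.le b4.le b5.le)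
  rw [← ev, ← ew, ← ew', Fin.sum_univ_two, Fin.sum_univ_two, Fin.sum_univ_two] at hlt
  have h2 : c 0 * (w 0 + w' 0) = c 0 * (v 0 + v 0) := by rw [hmid]
  have h3 : c 1 * (w 1 + w' 1) = c 1 * (v 1 + v 1) := by rw [hmid]
  nlinarith

end MldPoly
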