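import Pool.Agent.Mld.Stmts

/-!
# Order of a Laurent polynomial along a monomial divisor
-/

open scoped BigOperators

namespace MldPoly

theorem ordSum_proof : Stmt_OrdSum := by
  intro k _ u E hE s c hc hs
  classical
  -- a shift making all exponents nonnegative
  obtain ⟨M, hM⟩ : ∃ M : ℤ, ∀ m ∈ s, ∀ i, 0 ≤ m i + M := by
    refine ⟨∑ m ∈ s, ∑ i, |m i|, fun m hm i => ?_⟩
    have h1 : ∑ i, |m i| ≤ ∑ m ∈ s, ∑ i, |m i| :=
      Finset.single_le_sum (f := fun m : Fin 3 → ℤ => ∑ i, |m i|)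
        (fun m _ => Finset.sum_nonneg fun i _ => abs_nonneg _) hm
    have h2 : |m i| ≤ ∑ i, |m i| :=
      Finset.single_le_sum (f := fun i => |m i|) (fun i _ => abs_nonneg _) (Finset.mem_univ i)
    have h3 := neg_abs_le (m i)
    linarith
  set e : (Fin 3 → ℤ) → (Fin 3 →₀ ℕ) := fun m =>
    Finsupp.equivFunOnFinite.symm fun i => (m i + M).toNat with he
  have he1 : ∀ m ∈ s, ∀ i, ((e m i : ℕ) : ℤ) = m i + M := by
    intro m hm i
    simp only [he, Finsupp.equivFunOnFinite_symm_apply_apply]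
    exact Int.toNat_of_nonneg (hM m hm i)
  have hinj : Set.InjOn e (s : Set (Fin 3 → ℤ)) := by
    intro m hm m' hm' h
    funext i
    have h1 := he1 m hm i
    have h2 := he1 m' hm' i
    rw [h] at h1
    linarith
  set g : P3 k := ∑ m ∈ s, MvPolynomial.monomial (e m) (c m) with hg
  have hcoef : ∀ m ∈ s, g.coeff (e m) = c m := by
    intro m hm
    rw [hg, MvPolynomial.coeff_sum]
    rw [Finset.sum_eq_single m]
    · simp
    · intro m' hm' hne
      rw [MvPolynomial.coeff_monomial, if_neg]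
      intro h
      exact hne (hinj hm' hm h)
    · intro h; exact absurd hm h
  have hsupp : ∀ t, t ∈ g.support ↔ ∃ m ∈ s, t = e m := by
    intro t
    constructor
    · intro ht
      by_contra hcon
      push Not at hcon
      rw [MvPolynomial.mem_support_iff] at ht
      apply ht
      rw [hg, MvPolynomial.coeff_sum]
      apply Finset.sum_eq_zero
      intro m hm
      rw [MvPolynomial.coeff_monomial, if_neg]
      intro h
      exact hcon m hm h.symm
    · rintro ⟨m, hm, rfl⟩
      rw [MvPolynomial.mem_support_iff, hcoef m hm]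
      exact hc m hm
  have hg0 : g ≠ 0 := by
    obtain ⟨m, hm⟩ := hs
    intro h
    have := (hsupp (e m)).2 ⟨m, hm, rfl⟩
    rw [h] at this
    simp at this
  have halg : algebraMap (P3 k) (K3 k) g = (∑ m ∈ s, c m • mono k m) * mono k (fun _ => M) := by
    rw [hg, map_sum, Finset.sum_mul]
    refine Finset.sum_congr rfl fun m hm => ?_
    have h1 : MvPolynomial.monomial (e m) (c m) =
        MvPolynomial.C (c m) * MvPolynomial.monomial (e m) (1 : k) := by
      rw [MvPolynomial.C_mul_monomial, mul_one]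
    rw [h1, map_mul, ← mono_nat]
    have h2 : (fun i => ((e m i : ℕ) : ℤ)) = m + (fun _ => M) := by
      funext i
      rw [he1 m hm i]; rfl
    rw [h2, mono_add, smul_mul_assoc, Algebra.smul_def]
    congr 1
  have halg0 : algebraMap (P3 k) (K3 k) g ≠ 0 :=
    (map_ne_zero_iff _ (IsFractionRing.injective (P3 k) (K3 k))).2 hg0
  have hsum0 : (∑ m ∈ s, c m • mono k m) ≠ 0 := by
    intro h
    rw [h, zero_mul] at halg
    exact halg0 halg
  refine ⟨hsum0, ?_⟩
  have hord : E.ord (algebraMap (P3 k) (K3 k) g) =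
      E.ord (∑ m ∈ s, c m • mono k m) + dot u (fun _ => M) := by
    rw [halg, E.ord_mul _ _ hsum0 (mono_ne k _), ord_mono_of_isMonoDiv k hE]
  have hval : ∀ m ∈ s, ∑ i, u i * ((e m i : ℕ) : ℤ) = dot u m + dot u (fun _ => M) := by
    intro m hm
    rw [← dot_add]
    unfold dot
    refine Finset.sum_congr rfl fun i _ => ?_
    rw [he1 m hm i]; rfl
  have hL := hE g hg0
  rw [hord] at hL
  obtain ⟨⟨t, ht, htz⟩, hlow⟩ := hL
  obtain ⟨m, hm, rfl⟩ := (hsupp t).1 ht
  rw [hval m hm] at htz
  refine ⟨⟨m, hm, by linarith⟩, ?_⟩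
  rintro z ⟨m', hm', rfl⟩
  have h := hlow ⟨e m', (hsupp _).2 ⟨m', hm', rfl⟩, rfl⟩
  rw [hval m' hm'] at h
  linarith

end MldPoly
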