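import Pool.Agent.Mld.Base

/-!
# Module statements for the refutation of Q1 of MP_1fc009_ag

Each module proves one `Stmt_*` (for all fields `k` of characteristic zero), possibly assuming
other `Stmt_*` as hypotheses.  `a b : ℤ`, `3 ≤ a`, `3 ≤ b`, `n = a * b - 1`, `c = a * b - 2 - a`.
-/

open scoped BigOperators

namespace MldPoly

/-! ### general algebra -/

/-- DVR constructor: if `p A_p` is generated by `b ∈ p`, `b ≠ 0`, then `A_p` is the local ring of a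
prime divisor with centre `p`, and `b` is a uniformizer. -/
def Stmt_PD : Prop :=
  ∀ (k K : Type) [Field k] [Field K] [Algebra k K] (d : ℕ) (X : NormalVariety k K d)
    (p : Ideal X.A), p.IsPrime → ∀ b : X.A, b ∈ p → b ≠ 0 →
    (∀ y ∈ p, ∃ c e : X.A, e ∉ p ∧ y * e = b * c) →
    ∃ F : PrimeDiv k K, F.HasCenter X p ∧ F.ord (b : K) = 1

/-- algebraic Hartogs near the point `x` -/
def Stmt_Hartogs : Prop :=
  ∀ (k K : Type) [Field k] [Field K] [Algebra k K] (d : ℕ) (X : NormalVariety k K d)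
    (x : Ideal X.A), x.IsPrime → ∀ f : K, f ≠ 0 →
    (∀ p : PrimeWeil X, p.1 ≤ x → ∀ F : PrimeDiv k K, F.HasCenter X p.1 → 0 ≤ F.ord f) →
    ∃ a b : X.A, b ∉ x ∧ f = (a : K) / (b : K)

/-- a real combination of principal divisors which vanishes near `x` pulls back to zero -/
def Stmt_Indep : Prop :=
  ∀ (k K : Type) [Field k] [Field K] [Algebra k K] (d : ℕ) (X : NormalVariety k K d)
    (x : Ideal X.A), x.IsPrime → ∀ E : PrimeDiv k K, E.HasCenter X x →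
    ∀ (n : ℕ) (r : Fin n → ℝ) (φ : Fin n → K), (∀ i, φ i ≠ 0) →
    (∀ p : PrimeWeil X, p.1 ≤ x → ∀ F : PrimeDiv k K, F.HasCenter X p.1 →
      ∑ i, r i * (F.ord (φ i) : ℝ) = 0) →
    ∑ i, r i * (E.ord (φ i) : ℝ) = 0

/-! ### the field `k(t_0,t_1,t_2)`: derivations and forms -/

/-- derivations of `k(t_0,t_1,t_2)` are uniquely and arbitrarily determined on the variables -/
def Stmt_Der : Prop :=
  ∀ (k : Type) [Field k],
    Function.Bijective (evalAt (tt k) : Derivation k (K3 k) (K3 k) →ₗ[K3 k] (Fin 3 → K3 k))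

/-- top forms are one dimensional, generated by `omega0` -/
def Stmt_Form : Prop :=
  ∀ (k : Type) [Field k], omega0 k ≠ 0 ∧
    ∀ ω : TopForm k (K3 k) 3, ω ≠ 0 → ∃ h : K3 k, h ≠ 0 ∧ ω = h • omega0 k

/-- the logarithmic form has at most simple poles -/
def Stmt_Log : Prop :=
  ∀ (k : Type) [Field k] (E : PrimeDiv k (K3 k)) (j : ℤ), IsFormOrd E (omega0 k) j → -1 ≤ j

/-- monomial divisors exist -/
def Stmt_MonoDiv : Prop :=
  ∀ (k : Type) [Field k] (u m₁ : Fin 3 → ℤ), dot u m₁ = 1 →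
    ∃ E : PrimeDiv k (K3 k), IsMonoDiv k u E

/-- the logarithmic form has a simple pole along every monomial divisor -/
def Stmt_Tor : Prop :=
  ∀ (k : Type) [Field k] [CharZero k] (u m₁ : Fin 3 → ℤ), dot u m₁ = 1 →
    ∀ E : PrimeDiv k (K3 k), IsMonoDiv k u E → IsFormOrd E (omega0 k) (-1)

/-- every log discrepancy computed with some presentation can be computed with a presentation
that uses `omega0` -/
def Stmt_Uniq : Prop :=
  ∀ (k : Type) [Field k] (X : NormalVariety k (K3 k) 3) (x : Ideal X.A), x.IsPrime →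
    ∀ (B : RDiv X) (c c' : CartierData X x B), c.ω = omega0 k →
    ∀ (E : PrimeDiv k (K3 k)), E.HasCenter X x → ∀ α : ℝ, IsLogDisc E c' α → IsLogDisc E c α

/-! ### the toric ring -/

/-- elements of `AA` are the `k`-combinations of the monomials with exponent in `SS` -/
def Stmt_Mem : Prop :=
  ∀ (k : Type) [Field k] (a b : ℤ) (f : K3 k), f ∈ AA k a b ↔
    ∃ (s : Finset (Fin 3 → ℤ)) (c : (Fin 3 → ℤ) → k), (∀ m ∈ s, m ∈ SS a b ∧ c m ≠ 0) ∧
      f = ∑ m ∈ s, c m • mono k m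

/-- the order of a Laurent polynomial along a monomial divisor is the least weight of its
monomials -/
def Stmt_OrdSum : Prop :=
  ∀ (k : Type) [Field k] (u : Fin 3 → ℤ) (E : PrimeDiv k (K3 k)), IsMonoDiv k u E →
    ∀ (s : Finset (Fin 3 → ℤ)) (c : (Fin 3 → ℤ) → k), (∀ m ∈ s, c m ≠ 0) → s.Nonempty →
      (∑ m ∈ s, c m • mono k m) ≠ 0 ∧
      IsLeast (dot u '' (s : Set (Fin 3 → ℤ))) (E.ord (∑ m ∈ s, c m • mono k m))

def Stmt_FG : Prop :=
  ∀ (k : Type) [Field k] (a b : ℤ), 3 ≤ a → 3 ≤ b → (AA k a b).FG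

/-- every element of the field is a quotient of two elements of `AA`; moreover for every
nonzero polynomial `g` there is an exponent `m ∈ SS a b` with `g * t^m ∈ AA` -/
def Stmt_Frac : Prop :=
  ∀ (k : Type) [Field k] (a b : ℤ), 3 ≤ a → 3 ≤ b →
    (∀ g : P3 k, ∃ m ∈ SS a b, algebraMap (P3 k) (K3 k) g * mono k m ∈ AA k a b) ∧
    (∀ f : K3 k, ∃ x ∈ AA k a b, ∃ y ∈ AA k a b, y ≠ 0 ∧ f = x / y)

def Stmt_Normal : Prop :=
  ∀ (k : Type) [Field k] (a b : ℤ), 3 ≤ a → 3 ≤ b →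
    ∀ f : K3 k, IsIntegral (AA k a b) f → f ∈ AA k a b

def Stmt_Dim : Prop :=
  ∀ (k : Type) [Field k], Algebra.trdeg k (K3 k) = (3 : ℕ)

/-- the local ring of `X` at the generic point of the toric divisor `D_ρ` is the valuation ring -/
def Stmt_LocRay : Prop :=
  ∀ (k : Type) [Field k] (a b : ℤ), 3 ≤ a → 3 ≤ b → ∀ (ρ : Fin 3) (E : PrimeDiv k (K3 k)),
    IsMonoDiv k (ray a b ρ) E →
    (∀ f ∈ AA k a b, f ≠ 0 → 0 ≤ E.ord f) ∧
    ∀ f : K3 k, f ≠ 0 → 0 ≤ E.ord f →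
      ∃ x ∈ AA k a b, ∃ y ∈ AA k a b, y ≠ 0 ∧ E.ord y = 0 ∧ f = x / y

/-- a prime ideal of `AA` which contains a monomial different from `1` contains the centre of one
of the three toric divisors -/
def Stmt_Cover : Prop :=
  ∀ (k : Type) [Field k] (a b : ℤ), 3 ≤ a → 3 ≤ b →
    ∀ (X : NormalVariety k (K3 k) 3), X.A = AA k a b → ∀ p : Ideal X.A, p.IsPrime →
    ∀ y ∈ p, (∃ m ∈ SS a b, (y : K3 k) = mono k m) →
    ∃ ρ : Fin 3, ∀ E : PrimeDiv k (K3 k), IsMonoDiv k (ray a b ρ) E →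
      ∀ f : X.A, ((f : K3 k) = 0 ∨ 0 < E.ord (f : K3 k)) → f ∈ p

/-- the centre of the toric divisor `D_ρ` is a prime ideal of height one -/
def Stmt_HtRay : Prop :=
  ∀ (k : Type) [Field k] (a b : ℤ), 3 ≤ a → 3 ≤ b →
    ∀ (X : NormalVariety k (K3 k) 3), X.A = AA k a b → ∀ (ρ : Fin 3) (E : PrimeDiv k (K3 k)),
    IsMonoDiv k (ray a b ρ) E → ∃ p : PrimeWeil X, E.HasCenter X p.1

/-- prime divisors `F` on `X`: either `F` is one of the toric divisors, or all monomials are units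
along `F` -/
def Stmt_Class : Prop :=
  ∀ (k : Type) [Field k] (a b : ℤ), 3 ≤ a → 3 ≤ b →
    ∀ (X : NormalVariety k (K3 k) 3), X.A = AA k a b →
    ∀ (p : PrimeWeil X) (F : PrimeDiv k (K3 k)), F.HasCenter X p.1 →
      (∃ ρ : Fin 3, ∀ E : PrimeDiv k (K3 k), IsMonoDiv k (ray a b ρ) E →
        ∀ f : K3 k, f ≠ 0 → F.ord f = E.ord f) ∨
      (∀ m : Fin 3 → ℤ, F.ord (mono k m) = 0)

/-- along a prime divisor on `X` on which all monomials are units, `omega0` is a generator -/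
def Stmt_Unit : Prop :=
  ∀ (k : Type) [Field k] (a b : ℤ), 3 ≤ a → 3 ≤ b →
    ∀ (X : NormalVariety k (K3 k) 3), X.A = AA k a b →
    ∀ (p : PrimeWeil X) (F : PrimeDiv k (K3 k)), F.HasCenter X p.1 →
      (∀ m : Fin 3 → ℤ, F.ord (mono k m) = 0) → IsFormOrd F (omega0 k) 0

/-- the torus fixed point -/
def Stmt_Max : Prop :=
  ∀ (k : Type) [Field k] (a b : ℤ), 3 ≤ a → 3 ≤ b →
    ∀ (X : NormalVariety k (K3 k) 3), X.A = AA k a b → ∃ x : Ideal X.A, x.IsMaximal ∧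
      (∀ y : X.A, (∃ m ∈ SS a b, m ≠ 0 ∧ (y : K3 k) = mono k m) → y ∈ x) ∧
      (∀ u m₁ : Fin 3 → ℤ, dot u m₁ = 1 → (∀ m ∈ SS a b, m ≠ 0 → 0 < dot u m) →
        ∀ E : PrimeDiv k (K3 k), IsMonoDiv k u E → E.HasCenter X x)

/-! ### the minimum over the lattice -/

/-- lower bound for the log discrepancy of a valuation with weights `u` -/
def Stmt_Min : Prop :=
  ∀ (a b : ℤ), 3 ≤ a → 3 ≤ b → ∀ u : Fin 3 → ℤ, (∀ ρ, 0 < dot u (xm a b ρ)) →
    ∀ w : Fin 2 → ℝ, 0 ≤ w 0 → 0 ≤ w 1 → w 0 + w 1 ≤ 1 →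
      mldval a b w ≤ ((1 - w 0) * (dot u (xm a b 0) : ℝ) + (1 - w 1) * (dot u (xm a b 1) : ℝ) +
        (1 - w 0 - w 1) * (dot u (xm a b 2) : ℝ)) / ((a : ℝ) * b - 1)

/-- the value of the minimum: it is attained at `(1,0,0)` or at `(b,-1,2-b)`, which lie in the
interior of the cone -/
def Stmt_MinAtt : Prop :=
  ∀ (a b : ℤ), 3 ≤ a → 3 ≤ b →
    (∀ u : Fin 3 → ℤ, (u = ![1, 0, 0] ∨ u = ![b, -1, 2 - b]) →
      (∃ m₁, dot u m₁ = 1) ∧ ∀ m ∈ SS a b, m ≠ 0 → 0 < dot u m) ∧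
    ∀ w : Fin 2 → ℝ, ∃ u : Fin 3 → ℤ, (u = ![1, 0, 0] ∨ u = ![b, -1, 2 - b]) ∧
      mldval a b w = ((1 - w 0) * (dot u (xm a b 0) : ℝ) + (1 - w 1) * (dot u (xm a b 1) : ℝ) +
        (1 - w 0 - w 1) * (dot u (xm a b 2) : ℝ)) / ((a : ℝ) * b - 1)

/-! ### assembly -/

/-- the minimal log discrepancy of the example -/
def Stmt_Formula : Prop :=
  ∀ (k : Type) [Field k] [CharZero k] (a b : ℤ), 3 ≤ a → 3 ≤ b →
    ∃ (X : NormalVariety k (K3 k) 3) (x : Ideal X.A) (B : Fin 2 → EffDiv X), x.IsMaximal ∧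
      ∀ w : Fin 2 → ℝ, 0 ≤ w 0 → 0 ≤ w 1 → w 0 + w 1 ≤ 1 →
        IsMld X x (comb w B) (mldval a b w)

/-- no rational polytope works -/
def Stmt_Main : Prop :=
  ∀ (k : Type) [Field k] [CharZero k] (v : Fin 2 → ℝ), 0 < v 0 → 0 < v 1 → v 0 + v 1 < 1 →
    Irrational (v 0 / v 1) → ∀ ε : ℝ, 0 < ε → ε ≤ 1 - v 0 - v 1 →
      ¬ UniformPolytope k 3 2 ε v

end MldPoly
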