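import Pool.Agent.Mld.Stmts

/-!
# Logarithmic derivations of `k(t_0,t_1,t_2)` and orders (common lemmas for Tor and Unit)
-/

open scoped BigOperators

namespace MldPoly
namespace ThetaX

section ge

variable {k K : Type} [Field k] [Field K] [Algebra k K] (E : PrimeDiv k K)

/-- `f = 0` or `ord f ≥ c` -/
def ge (c : ℤ) (f : K) : Prop := f = 0 ∨ c ≤ E.ord f

variable {E}

theorem ge_zero (c : ℤ) : ge E c (0 : K) := Or.inl rfl

theorem ge_ord (f : K) : ge E (E.ord f) f := Or.inr le_rfl

theorem ge.le {c d : ℤ} {f : K} (hf : ge E d f) (h : c ≤ d) : ge E c f :=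
  hf.imp id fun h' => le_trans h h'

theorem ge.add {c : ℤ} {f g : K} (hf : ge E c f) (hg : ge E c g) : ge E c (f + g) := by
  rcases eq_or_ne f 0 with rfl | hf0
  · simpa using hg
  rcases eq_or_ne g 0 with rfl | hg0
  · simpa using hf
  rcases eq_or_ne (f + g) 0 with h | h
  · exact Or.inl h
  · exact Or.inr (le_trans (le_min (hf.resolve_left hf0) (hg.resolve_left hg0))
      (E.ord_add f g hf0 hg0 h))

theorem ge.mul {c d : ℤ} {f g : K} (hf : ge E c f) (hg : ge E d g) : ge E (c + d) (f * g) := by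
  rcases eq_or_ne f 0 with rfl | hf0
  · left; simp
  rcases eq_or_ne g 0 with rfl | hg0
  · left; simp
  right
  rw [E.ord_mul f g hf0 hg0]
  exact add_le_add (hf.resolve_left hf0) (hg.resolve_left hg0)

theorem ge.neg {c : ℤ} {f : K} (hf : ge E c f) : ge E c (-f) := by
  rcases eq_or_ne f 0 with rfl | hf0
  · simpa using hf
  right
  rw [E.ord_neg f hf0]
  exact hf.resolve_left hf0

theorem ge.sub {c : ℤ} {f g : K} (hf : ge E c f) (hg : ge E c g) : ge E c (f - g) := by
  rw [sub_eq_add_neg]; exact hf.add hg.neg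

theorem ge_const (c : k) : ge E 0 (algebraMap k K c) := by
  rcases eq_or_ne c 0 with rfl | hc
  · left; simp
  right; exact (E.ord_const c hc).ge

theorem ge.smul {c : ℤ} {f : K} (x : k) (hf : ge E c f) : ge E c (x • f) := by
  rw [Algebra.smul_def]
  have := (ge_const (E := E) x).mul hf
  rwa [zero_add] at this

theorem ge_sum {ι : Type*} (s : Finset ι) (f : ι → K) {c : ℤ} (h : ∀ i ∈ s, ge E c (f i)) :
    ge E c (∑ i ∈ s, f i) :=
  Finset.sum_induction f (ge E c) (fun _ _ => ge.add) (ge_zero c) h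

theorem ge_one : ge E 0 (1 : K) := Or.inr (E.ord_one).ge

theorem ge_prod {ι : Type*} (s : Finset ι) (f : ι → K) (c : ι → ℤ) (h : ∀ i ∈ s, ge E (c i) (f i)) :
    ge E (∑ i ∈ s, c i) (∏ i ∈ s, f i) := by
  classical
  induction s using Finset.induction_on with
  | empty => simpa using ge_one
  | insert i s hi ih =>
    rw [Finset.sum_insert hi, Finset.prod_insert hi]
    exact (h i (Finset.mem_insert_self i s)).mul
      (ih fun j hj => h j (Finset.mem_insert_of_mem hj))

theorem ge.div {c : ℤ} {f g : K} (hf : ge E c f) (hg : g ≠ 0) : ge E (c - E.ord g) (f / g) := by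
  rcases eq_or_ne f 0 with rfl | hf0
  · left; simp
  right
  rw [E.ord_div f g hf0 hg]
  exact sub_le_sub_right (hf.resolve_left hf0) _

theorem mem_ring_iff {f : K} : f ∈ E.ring ↔ ge E 0 f := Iff.rfl

/-- the determinant of a matrix with entries in the valuation ring -/
theorem ge_det {n : ℕ} (M : Matrix (Fin n) (Fin n) K) (h : ∀ i j, ge E 0 (M i j)) :
    ge E 0 M.det := by
  rw [Matrix.det_apply']
  refine ge_sum _ _ fun σ _ => ?_
  have h1 : ge E (∑ i : Fin n, (0 : ℤ)) (∏ i, M (σ i) i) :=
    ge_prod _ _ (fun _ => 0) fun i _ => h _ _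
  rw [Finset.sum_const_zero] at h1
  rcases Int.units_eq_one_or (Equiv.Perm.sign σ) with h2 | h2
  · rw [h2]; simpa using h1
  · rw [h2]; simpa using h1.neg

/-- the determinant of a matrix with entries in the valuation ring and one row in the maximal
ideal -/
theorem ge_det_row {n : ℕ} (M : Matrix (Fin n) (Fin n) K) (r : Fin n) (h : ∀ i j, ge E 0 (M i j))
    (hr : ∀ j, ge E 1 (M r j)) : ge E 1 M.det := by
  rw [Matrix.det_apply']
  refine ge_sum _ _ fun σ _ => ?_
  have h1 : ge E (∑ i : Fin n, (if σ i = r then (1 : ℤ) else 0)) (∏ i, M (σ i) i) := by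
    refine ge_prod _ _ _ fun i _ => ?_
    split_ifs with hi
    · rw [hi]; exact hr i
    · exact h _ _
  have h3 : (∑ i : Fin n, (if σ i = r then (1 : ℤ) else 0)) = 1 := by
    rw [Equiv.sum_comp σ (fun i => if i = r then (1 : ℤ) else 0)]
    simp
  rw [h3] at h1
  rcases Int.units_eq_one_or (Equiv.Perm.sign σ) with h2 | h2
  · rw [h2]; simpa using h1
  · rw [h2]; simpa using h1.neg

/-- evaluation of regular forms at derivations which preserve the valuation ring -/
theorem ge_eval {d : ℕ} {c : ℤ} (θ : Fin d → Derivation k K K)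
    (h : ∀ a : Fin d → K, (∀ j, a j ∈ E.ring) → ge E c (dForm a θ)) (η : TopForm k K d)
    (hη : RegularAlong E η) : ge E c (η θ) := by
  unfold RegularAlong at hη
  induction hη using Submodule.span_induction with
  | mem x hx =>
    obtain ⟨a, ha, rfl⟩ := hx
    exact h a ha
  | zero => exact ge_zero c
  | add x y _ _ hx hy => exact hx.add hy
  | smul r x _ hx =>
    have : (r • x) θ = (r : K) * x θ := rfl
    rw [this]
    have h2 := (mem_ring_iff.1 r.2).mul hx
    rwa [zero_add] at h2

end ge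

section der

variable {k : Type} [Field k]

theorem logder_add (D : Derivation k (K3 k) (K3 k)) {x y : K3 k} (hx : x ≠ 0) (hy : y ≠ 0) :
    D (x * y) / (x * y) = D x / x + D y / y := by
  rw [D.leibniz, smul_eq_mul, smul_eq_mul]
  field_simp
  ring

theorem logder_pow (D : Derivation k (K3 k) (K3 k)) {x : K3 k} (hx : x ≠ 0) (n : ℕ) :
    D (x ^ n) / x ^ n = n * (D x / x) := by
  induction n with
  | zero => simp
  | succ n ih =>
    rw [pow_succ, logder_add D (pow_ne_zero _ hx) hx, ih]
    push_cast; ring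

theorem logder_inv (D : Derivation k (K3 k) (K3 k)) {x : K3 k} (hx : x ≠ 0) :
    D x⁻¹ / x⁻¹ = -(D x / x) := by
  have h := logder_add D hx (inv_ne_zero hx)
  rw [mul_inv_cancel₀ hx, D.map_one_eq_zero, zero_div] at h
  exact eq_neg_of_add_eq_zero_right h.symm

theorem logder_zpow (D : Derivation k (K3 k) (K3 k)) {x : K3 k} (hx : x ≠ 0) (n : ℤ) :
    D (x ^ n) / x ^ n = n * (D x / x) := by
  cases n with
  | ofNat n => simpa using logder_pow D hx n
  | negSucc n =>
    rw [zpow_negSucc, logder_inv D (pow_ne_zero _ hx), logder_pow D hx]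
    push_cast
    ring

theorem logder_mono (D : Derivation k (K3 k) (K3 k)) (m : Fin 3 → ℤ) :
    D (mono k m) / mono k m = ∑ i, (m i : K3 k) * (D (tt k i) / tt k i) := by
  have h0 := zpow_ne_zero (m 0) (tt_ne k 0)
  have h1 := zpow_ne_zero (m 1) (tt_ne k 1)
  have h2 := zpow_ne_zero (m 2) (tt_ne k 2)
  unfold mono
  rw [Fin.prod_univ_three, logder_add D (mul_ne_zero h0 h1) h2, logder_add D h0 h1,
    logder_zpow D (tt_ne k 0), logder_zpow D (tt_ne k 1), logder_zpow D (tt_ne k 2),
    Fin.sum_univ_three]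

theorem der_mono (D : Derivation k (K3 k) (K3 k)) (m : Fin 3 → ℤ) :
    D (mono k m) = mono k m * ∑ i, (m i : K3 k) * (D (tt k i) / tt k i) := by
  rw [← logder_mono, mul_div_cancel₀ _ (mono_ne k m)]

/-- the forms of three monomials -/
theorem dForm_mono (m : Fin 3 → Fin 3 → ℤ) :
    dForm (fun j => mono k (m j)) =
      ((∏ j, mono k (m j)) * ((Matrix.det (Matrix.of m) : ℤ) : K3 k)) • omega0 k := by
  refine AlternatingMap.ext fun D => ?_
  have h1 : dForm (fun j => mono k (m j)) D =
      Matrix.det (Matrix.of fun i j => D i (mono k (m j))) := rfl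
  have h2 : omega0 k D = (∏ i, tt k i)⁻¹ * Matrix.det (Matrix.of fun i j => D i (tt k j)) := rfl
  rw [AlternatingMap.smul_apply, h1, h2, smul_eq_mul]
  have h3 : (Matrix.of fun i j => D i (mono k (m j))) =
      (Matrix.of fun i j => D i (tt k j)) * Matrix.diagonal (fun j => (tt k j)⁻¹) *
        ((Matrix.of m).map (Int.cast : ℤ → K3 k)).transpose *
        Matrix.diagonal (fun j => mono k (m j)) := by
    ext i j
    rw [Matrix.mul_diagonal, Matrix.mul_apply]
    simp only [Matrix.mul_diagonal, Matrix.of_apply, Matrix.transpose_apply, Matrix.map_apply]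
    rw [der_mono, mul_comm]
    congr 1
    refine Finset.sum_congr rfl fun l _ => ?_
    rw [div_eq_mul_inv]; ring
  rw [h3, Matrix.det_mul, Matrix.det_mul, Matrix.det_mul, Matrix.det_diagonal,
    Matrix.det_diagonal, Matrix.det_transpose]
  have h4 : ((Matrix.of m).map (Int.cast : ℤ → K3 k)).det =
      ((Matrix.det (Matrix.of m) : ℤ) : K3 k) := by
    have := (Int.castRingHom (K3 k)).map_det (Matrix.of m)
    rw [RingHom.mapMatrix_apply] at this
    exact this.symm
  rw [h4, Finset.prod_inv_distrib]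
  ring

theorem algebraMap_eq_sum (g : P3 k) : algebraMap (P3 k) (K3 k) g =
    ∑ s ∈ g.support, g.coeff s • mono k (fun i => (s i : ℤ)) := by
  conv_lhs => rw [← MvPolynomial.support_sum_monomial_coeff g]
  rw [map_sum]
  refine Finset.sum_congr rfl fun s _ => ?_
  rw [mono_nat, Algebra.smul_def, IsScalarTower.algebraMap_apply k (P3 k) (K3 k), ← map_mul,
    MvPolynomial.algebraMap_eq, MvPolynomial.C_mul_monomial, mul_one]

/-- the logarithmic derivations -/
theorem exists_theta (hD : Stmt_Der) : ∃ θ : Fin 3 → Derivation k (K3 k) (K3 k),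
    ∀ i (m : Fin 3 → ℤ), θ i (mono k m) = (m i : K3 k) * mono k m := by
  have h : ∀ i : Fin 3, ∃ D : Derivation k (K3 k) (K3 k), ∀ j, D (tt k j) =
      if i = j then tt k j else 0 := by
    intro i
    obtain ⟨D, hD⟩ := (hD k).2 (fun j => if i = j then tt k j else 0)
    exact ⟨D, fun j => congrFun hD j⟩
  choose θ hθ using h
  refine ⟨θ, fun i m => ?_⟩
  rw [der_mono, Finset.sum_eq_single i]
  · rw [hθ, if_pos rfl, div_self (tt_ne k i)]; ring
  · intro j _ hj
    rw [hθ, if_neg hj.symm]; simp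
  · intro h; exact absurd (Finset.mem_univ i) h

theorem mono_single (j : Fin 3) : mono k (Pi.single j 1) = tt k j := by
  unfold mono
  rw [Finset.prod_eq_single j]
  · simp
  · intro i _ hi; simp [hi]
  · intro h; exact absurd (Finset.mem_univ j) h

theorem omega0_theta {θ : Fin 3 → Derivation k (K3 k) (K3 k)}
    (hθ : ∀ i (m : Fin 3 → ℤ), θ i (mono k m) = (m i : K3 k) * mono k m) :
    omega0 k θ = 1 := by
  have h2 : omega0 k θ = (∏ i, tt k i)⁻¹ * Matrix.det (Matrix.of fun i j => θ i (tt k j)) := rfl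
  have h3 : (Matrix.of fun i j => θ i (tt k j)) = Matrix.diagonal (tt k) := by
    ext i j
    rw [Matrix.of_apply, ← mono_single, hθ, Matrix.diagonal_apply]
    rcases eq_or_ne i j with rfl | hij
    · simp [mono_single]
    · rw [if_neg hij]; simp [hij]
  rw [h2, h3, Matrix.det_diagonal, inv_mul_cancel₀]
  exact Finset.prod_ne_zero_iff.2 fun i _ => tt_ne k i

theorem theta_poly {θ : Fin 3 → Derivation k (K3 k) (K3 k)}
    (hθ : ∀ i (m : Fin 3 → ℤ), θ i (mono k m) = (m i : K3 k) * mono k m) (i : Fin 3) (g : P3 k) :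
    θ i (algebraMap (P3 k) (K3 k) g) =
      ∑ s ∈ g.support, g.coeff s • (((s i : ℤ) : K3 k) * mono k (fun i => (s i : ℤ))) := by
  rw [algebraMap_eq_sum, map_sum]
  refine Finset.sum_congr rfl fun s _ => ?_
  rw [Derivation.map_smul, hθ]

theorem int_smul_eq (z : ℤ) (x : K3 k) : (z : K3 k) * x = (z : k) • x := by
  rw [Algebra.smul_def, map_intCast]

end der

end ThetaX
end MldPoly
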